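import Pool.Agent.Lib.MP_663568_tw.V12
import Pool.Agent.Lib.MP_663568_t3.TRaw

/-!
Row V13: from the raw data to the filtration, and the suprema over explicit families.
-/

set_option autoImplicit false
open Finset MeasureTheory

namespace Pool.Agent.Lib.MP_663568_nt.E

open Katai Tw Fib Nul T3

/-- the filtration by the lower central series -/
theorem ns_raw {G : Type} [Group G] [TopologicalSpace G] [IsTopologicalGroup G]
    (Γ : Subgroup G) (t : ℕ)
    (hnil : (⊤ : Subgroup G).lowerCentralSeries t = ⊥)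
    (d : ℕ → ℕ) (π : (s : ℕ) → G → Fin (d s) → ℝ) (e : (s : ℕ) → Fin (d s) → ℝ → G)
    (hπmul : ∀ s, ∀ x ∈ (⊤ : Subgroup G).lowerCentralSeries s,
      ∀ y ∈ (⊤ : Subgroup G).lowerCentralSeries s, π s (x * y) = π s x + π s y)
    (hπcont : ∀ s, ContinuousOn (π s) ((⊤ : Subgroup G).lowerCentralSeries s))
    (hπint : ∀ s, ∀ γ ∈ Γ, γ ∈ (⊤ : Subgroup G).lowerCentralSeries s →
      ∀ j, ∃ z : ℤ, π s γ j = z)
    (hπker : ∀ s, ∀ x ∈ (⊤ : Subgroup G).lowerCentralSeries s,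
      π s x = 0 ↔ x ∈ (⊤ : Subgroup G).lowerCentralSeries (s + 1))
    (hecont : ∀ s j, Continuous (e s j)) (headd : ∀ s j a b, e s j (a + b) = e s j a * e s j b)
    (heΓ : ∀ s j, e s j 1 ∈ Γ) (hemem : ∀ s j r, e s j r ∈ (⊤ : Subgroup G).lowerCentralSeries s)
    (heπ : ∀ s j r, π s (e s j r) = Pi.single j r) :
    NS (lcs G) Γ (β := fun s => Fin (d (s - 1))) (fun s => π (s - 1)) (fun s => e (s - 1)) := by
  set π' : (s : ℕ) → G → Fin (d (s - 1)) → ℝ := fun s => π (s - 1) with hπ'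
  set e' : (s : ℕ) → Fin (d (s - 1)) → ℝ → G := fun s => e (s - 1) with he'
  have hsucc : ∀ s, 1 ≤ s → lcs G (s + 1) = (⊤ : Subgroup G).lowerCentralSeries (s - 1 + 1) := by
    intro s hs
    unfold lcs; congr 1; omega
  have hker : ∀ s, 1 ≤ s → ∀ x ∈ lcs G s, π' s x = 0 ↔ x ∈ lcs G (s + 1) := by
    intro s hs x hx
    rw [hsucc s hs]
    exact hπker (s - 1) x hx
  have hgen : ∀ s, 1 ≤ s → lcs G s ≤
      Subgroup.closure {x | ∃ j r, x = e' s j r} ⊔ lcs G (s + 1) := fun s hs =>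
    gen_raw (π' s) (e' s) (hπmul (s - 1)) (hker s hs) (hemem (s - 1)) (heπ (s - 1))
  have ht : lcs G (t + 1) = ⊥ := hnil
  have hcoc : Coc (lcs G) Γ := by
    refine coc_of_gen (lcs G) lcs_anti lcs_comm' lcs_one t ht Γ (esL e') ?_ ?_
    · intro s hs x hx
      rw [mem_esL] at hx
      obtain ⟨j, rfl⟩ := hx
      exact ⟨⟨hecont _ _, headd _ _⟩, heΓ _ _, hemem _ _⟩
    · intro s hs
      refine (hgen s hs).trans (sup_le_sup_right (Subgroup.closure_mono ?_) _)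
      rintro x ⟨j, r, rfl⟩
      exact ⟨e' s j, (mem_esL e' s _).2 ⟨j, rfl⟩, r, rfl⟩
  exact
    { anti := lcs_anti
      comm := lcs_comm'
      A0 := lcs_zero
      A1 := lcs_one
      low := lcs_low
      coc := hcoc
      pi_mul := fun s hs x hx y hy => hπmul (s - 1) x hx y hy
      pi_cont := fun s hs => hπcont (s - 1)
      pi_int := fun s hs γ hγ hγs => hπint (s - 1) γ hγ hγs
      pi_ker := hker
      e_onep := fun s hs j => ⟨⟨hecont _ _, headd _ _⟩, heΓ _ _, hemem _ _⟩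
      e_pi := fun s hs j r => heπ _ _ _ }

/-- bounded suprema -/
theorem le_ggT {G : Type} [Group G] {T : Set (ℕ → ℂ)} {N : Subgroup G} {U : Set G} {F : G → ℂ}
    (hF : ∃ B : ℝ, ∀ x, ‖F x‖ ≤ B) (hT : BddF T) (H n : ℕ) (i : IdxT T N U) :
    ‖∑ h ∈ Icc 1 H, orbT T N U F i (n + h) * muC (n + h)‖ ≤ GG (orbT T N U F) muC H n := by
  obtain ⟨B, hB⟩ := hF
  obtain ⟨B', _, hB'⟩ := hT
  have hB0 : 0 ≤ B := (norm_nonneg _).trans (hB 1)
  refine le_ciSup (f := fun i => ‖∑ h ∈ Icc 1 H, orbT T N U F i (n + h) * muC (n + h)‖)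
    ⟨H * (B * B'), ?_⟩ i
  rintro _ ⟨i, rfl⟩
  have hB'0 : 0 ≤ B' := (norm_nonneg _).trans (hB' _ i.2.2 0)
  calc _ ≤ ∑ h ∈ Icc 1 H, ‖orbT T N U F i (n + h) * muC (n + h)‖ := norm_sum_le _ _
    _ ≤ ∑ _h ∈ Icc 1 H, B * B' := by
        refine sum_le_sum fun h _ => ?_
        rw [norm_mul, orbT, norm_mul]
        calc _ ≤ B * B' * 1 := mul_le_mul (mul_le_mul (hB _) (hB' _ i.2.2 _) (norm_nonneg _) hB0)
              (norm_muC _) (norm_nonneg _) (by positivity)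
          _ = B * B' := mul_one _
    _ = H * (B * B') := by simp

end Pool.Agent.Lib.MP_663568_nt.E
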