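import Pool.Agent.Lib.MP_663568_tw.WDefs

/-!
# Tame families of twists
-/

set_option autoImplicit false
open Finset MeasureTheory

namespace Pool.Agent.Lib.MP_663568_nt.E

open Katai Tw Fib Nul T3

/-- the family is bounded -/
def BddF (T : Set (ℕ → ℂ)) : Prop := ∃ B : ℝ, 0 < B ∧ ∀ t ∈ T, ∀ l, ‖t l‖ ≤ B

/-- A family of sequences is tame of degree `0` if its elements are constant, and of degree `d + 1`
if all correlations `t (l + r) * conj (t l)` are, up to `ε`, sums of boundedly many elements of one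
family which is tame of degree `d`. -/
def Tame : ℕ → Set (ℕ → ℂ) → Prop
  | 0, T => BddF T ∧ ∀ t ∈ T, ∀ l, t l = t 0
  | d + 1, T => BddF T ∧ ∀ ε : ℝ, 0 < ε → ∃ S : Set (ℕ → ℂ), Tame d S ∧
      ∃ (I : Type) (_ : Fintype I), ∀ r : ℕ, ∀ t ∈ T, ∃ c : I → ℕ → ℂ,
        (∀ i, c i ∈ S ∨ c i = 0) ∧
        ∀ l, ‖t (l + r) * (starRingEnd ℂ) (t l) - ∑ i, c i l‖ ≤ ε

lemma Tame.bdd {d : ℕ} {T : Set (ℕ → ℂ)} (h : Tame d T) : BddF T := by
  cases d with
  | zero => exact h.1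
  | succ d => exact h.1

lemma BddF.subset {T T' : Set (ℕ → ℂ)} (h : BddF T) (hT : T' ⊆ T) : BddF T' := by
  obtain ⟨B, hB, h⟩ := h
  exact ⟨B, hB, fun t ht => h t (hT ht)⟩

lemma Tame.subset {d : ℕ} {T T' : Set (ℕ → ℂ)} (h : Tame d T) (hT : T' ⊆ T) : Tame d T' := by
  cases d with
  | zero => exact ⟨h.1.subset hT, fun t ht => h.2 t (hT ht)⟩
  | succ d =>
    refine ⟨h.1.subset hT, fun ε hε => ?_⟩
    obtain ⟨S, hS, I, hI, h1⟩ := h.2 ε hε
    exact ⟨S, hS, I, hI, fun r t ht => h1 r t (hT ht)⟩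

lemma Tame.succ {d : ℕ} {T : Set (ℕ → ℂ)} (h : Tame d T) : Tame (d + 1) T := by
  induction d generalizing T with
  | zero =>
    obtain ⟨B, hB, hb⟩ := h.1
    refine ⟨h.1, fun ε hε => ⟨{c | ‖c 0‖ ≤ B * B ∧ ∀ l, c l = c 0}, ⟨⟨B * B, by positivity,
      fun c hc l => by rw [hc.2 l]; exact hc.1⟩, fun c hc => hc.2⟩, Unit, inferInstance,
      fun r t ht => ⟨fun _ l => t (l + r) * (starRingEnd ℂ) (t l), fun _ => Or.inl ⟨?_, ?_⟩,
        fun l => ?_⟩⟩⟩
    · rw [norm_mul, RCLike.norm_conj]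
      exact mul_le_mul (hb t ht _) (hb t ht _) (norm_nonneg _) hB.le
    · intro l
      have h1 := h.2 t ht
      simp only
      rw [h1 (l + r), h1 l, h1 (0 + r)]
    · simp [hε.le]
  | succ d ih =>
    refine ⟨h.1, fun ε hε => ?_⟩
    obtain ⟨S, hS, I, hI, h1⟩ := h.2 ε hε
    exact ⟨S, ih hS, I, hI, h1⟩

lemma Tame.mono {d d' : ℕ} {T : Set (ℕ → ℂ)} (h : Tame d T) (hd : d ≤ d') : Tame d' T := by
  induction d', hd using Nat.le_induction with
  | base => exact h
  | succ d' _ ih => exact ih.succ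

/-- finite unions -/
lemma Tame.iUnion {d : ℕ} {N : Type} [Fintype N] {T : N → Set (ℕ → ℂ)}
    (h : ∀ ν, Tame d (T ν)) : Tame d (⋃ ν, T ν) := by
  classical
  have hb : BddF (⋃ ν, T ν) := by
    choose B hB hb using fun ν => (h ν).bdd
    refine ⟨1 + ∑ ν, B ν, ?_, ?_⟩
    · have : 0 ≤ ∑ ν, B ν := sum_nonneg fun ν _ => (hB ν).le
      linarith
    · intro t ht l
      obtain ⟨ν, hν⟩ := Set.mem_iUnion.1 ht
      have h1 := hb ν t hν l
      have h2 : B ν ≤ ∑ ν, B ν := single_le_sum (f := B) (fun ν _ => (hB ν).le) (mem_univ ν)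
      linarith
  induction d generalizing T with
  | zero =>
    refine ⟨hb, fun t ht l => ?_⟩
    obtain ⟨ν, hν⟩ := Set.mem_iUnion.1 ht
    exact (h ν).2 t hν l
  | succ d ih =>
    refine ⟨hb, fun ε hε => ?_⟩
    choose S hS I hI h1 using fun ν => (h ν).2 ε hε
    have hbS : BddF (⋃ ν, S ν) := by
      choose B hB hb using fun ν => (hS ν).bdd
      refine ⟨1 + ∑ ν, B ν, ?_, ?_⟩
      · have : 0 ≤ ∑ ν, B ν := sum_nonneg fun ν _ => (hB ν).le
        linarith
      · intro t ht l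
        obtain ⟨ν, hν⟩ := Set.mem_iUnion.1 ht
        have h1 := hb ν t hν l
        have h2 : B ν ≤ ∑ ν, B ν := single_le_sum (f := B) (fun ν _ => (hB ν).le) (mem_univ ν)
        linarith
    refine ⟨⋃ ν, S ν, ih hS hbS, (Σ ν, I ν), inferInstance, fun r t ht => ?_⟩
    obtain ⟨ν, hν⟩ := Set.mem_iUnion.1 ht
    obtain ⟨c, hc, h2⟩ := h1 ν r t hν
    refine ⟨fun i => if h : i.1 = ν then c (h ▸ i.2) else 0, ?_, fun l => ?_⟩
    · rintro ⟨ν', i⟩
      by_cases h3 : ν' = ν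
      · subst h3
        simp only [dif_pos]
        rcases hc i with h4 | h4
        · exact Or.inl (Set.mem_iUnion.2 ⟨ν', h4⟩)
        · exact Or.inr h4
      · exact Or.inr (dif_neg h3)
    · have e1 : ∑ i : (Σ ν, I ν), (if h : i.1 = ν then c (h ▸ i.2) else 0 : ℕ → ℂ) l =
          ∑ i, c i l := by
        rw [Fintype.sum_sigma, sum_eq_single ν]
        · refine sum_congr rfl fun i _ => ?_
          simp
        · intro ν' _ hν'
          refine sum_eq_zero fun i _ => ?_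
          rw [dif_neg hν']
          rfl
        · intro h3
          exact absurd (mem_univ ν) h3
      rw [e1]
      exact h2 l

/-- complex conjugates -/
lemma Tame.conj {d : ℕ} {T : Set (ℕ → ℂ)} (h : Tame d T) :
    Tame d {s | ∃ t ∈ T, s = fun l => (starRingEnd ℂ) (t l)} := by
  induction d generalizing T with
  | zero =>
    obtain ⟨B, hB, hb⟩ := h.1
    refine ⟨⟨B, hB, ?_⟩, ?_⟩
    · rintro s ⟨t, ht, rfl⟩ l
      rw [RCLike.norm_conj]
      exact hb t ht l
    · rintro s ⟨t, ht, rfl⟩ l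
      simp only
      rw [h.2 t ht l]
  | succ d ih =>
    obtain ⟨B, hB, hb⟩ := h.1
    refine ⟨⟨B, hB, ?_⟩, fun ε hε => ?_⟩
    · rintro s ⟨t, ht, rfl⟩ l
      rw [RCLike.norm_conj]
      exact hb t ht l
    · obtain ⟨S, hS, I, hI, h1⟩ := h.2 ε hε
      refine ⟨_, ih hS, I, hI, ?_⟩
      rintro r s ⟨t, ht, rfl⟩
      obtain ⟨c, hc, h2⟩ := h1 r t ht
      refine ⟨fun i l => (starRingEnd ℂ) (c i l), fun i => ?_, fun l => ?_⟩
      · rcases hc i with h4 | h4
        · exact Or.inl ⟨c i, h4, rfl⟩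
        · right
          funext l
          simp [h4]
      · have h3 := h2 l
        rw [← RCLike.norm_conj] at h3
        simpa [map_sub, map_mul, map_sum] using h3

/-- products -/
lemma Tame.mul {d : ℕ} {T T' : Set (ℕ → ℂ)} (h : Tame d T) (h' : Tame d T') :
    Tame d {s | ∃ t ∈ T, ∃ t' ∈ T', s = fun l => t l * t' l} := by
  induction d generalizing T T' with
  | zero =>
    obtain ⟨B, hB, hb⟩ := h.1
    obtain ⟨B', hB', hb'⟩ := h'.1
    refine ⟨⟨B * B', by positivity, ?_⟩, ?_⟩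
    · rintro s ⟨t, ht, t', ht', rfl⟩ l
      rw [norm_mul]
      exact mul_le_mul (hb t ht l) (hb' t' ht' l) (norm_nonneg _) hB.le
    · rintro s ⟨t, ht, t', ht', rfl⟩ l
      simp only
      rw [h.2 t ht l, h'.2 t' ht' l]
  | succ d ih =>
    obtain ⟨B, hB, hb⟩ := h.1
    obtain ⟨B', hB', hb'⟩ := h'.1
    refine ⟨⟨B * B', by positivity, ?_⟩, fun ε hε => ?_⟩
    · rintro s ⟨t, ht, t', ht', rfl⟩ l
      rw [norm_mul]
      exact mul_le_mul (hb t ht l) (hb' t' ht' l) (norm_nonneg _) hB.le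
    · obtain ⟨S, hS, I, hI, h1⟩ := h.2 (min 1 (ε / (2 * (B' * B')))) (by positivity)
      obtain ⟨S', hS', I', hI', h1'⟩ := h'.2 (ε / (2 * (B * B + 1))) (by positivity)
      refine ⟨_, ih hS hS', I × I', inferInstance, ?_⟩
      rintro r s ⟨t, ht, t', ht', rfl⟩
      obtain ⟨c, hc, h2⟩ := h1 r t ht
      obtain ⟨c', hc', h2'⟩ := h1' r t' ht'
      refine ⟨fun i l => c i.1 l * c' i.2 l, fun i => ?_, fun l => ?_⟩
      · rcases hc i.1 with h4 | h4
        · rcases hc' i.2 with h5 | h5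
          · exact Or.inl ⟨c i.1, h4, c' i.2, h5, rfl⟩
          · right
            funext l
            simp [h5]
        · right
          funext l
          simp [h4]
      · have e1 : ∑ i : I × I', c i.1 l * c' i.2 l = (∑ i, c i l) * ∑ i, c' i l := by
          rw [sum_mul_sum, Fintype.sum_prod_type]
        set a := t (l + r) * (starRingEnd ℂ) (t l) with ha
        set a' := t' (l + r) * (starRingEnd ℂ) (t' l) with ha'
        have ea : t (l + r) * t' (l + r) * (starRingEnd ℂ) (t l * t' l) = a * a' := by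
          rw [map_mul, ha, ha']; ring
        have na : ‖a‖ ≤ B * B := by
          rw [ha, norm_mul, RCLike.norm_conj]
          exact mul_le_mul (hb t ht _) (hb t ht _) (norm_nonneg _) hB.le
        have na' : ‖a'‖ ≤ B' * B' := by
          rw [ha', norm_mul, RCLike.norm_conj]
          exact mul_le_mul (hb' t' ht' _) (hb' t' ht' _) (norm_nonneg _) hB'.le
        have h3 := h2 l
        have h3' := h2' l
        have n1 : ‖∑ i, c i l‖ ≤ B * B + 1 := by
          have : ∑ i, c i l = a - (a - ∑ i, c i l) := by ring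
          rw [this]
          refine (norm_sub_le _ _).trans (add_le_add na (h3.trans (min_le_left _ _)))
        rw [e1, ea]
        have e2 : a * a' - (∑ i, c i l) * ∑ i, c' i l =
            (a - ∑ i, c i l) * a' + (∑ i, c i l) * (a' - ∑ i, c' i l) := by ring
        rw [e2]
        refine (norm_add_le _ _).trans ?_
        rw [norm_mul (a - ∑ i, c i l) a', norm_mul (∑ i, c i l)]
        calc _ ≤ ε / (2 * (B' * B')) * (B' * B') + (B * B + 1) * (ε / (2 * (B * B + 1))) := by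
              refine add_le_add (mul_le_mul (h3.trans (min_le_right _ _)) na' (norm_nonneg _)
                (by positivity)) (mul_le_mul n1 h3' (norm_nonneg _) (by positivity))
          _ = ε := by field_simp; ring

/-- affine changes of the variable -/
lemma Tame.dil {d : ℕ} {T : Set (ℕ → ℂ)} (h : Tame d T) :
    Tame d {s | ∃ t ∈ T, ∃ p j : ℕ, s = fun l => t (p * (j + l))} := by
  induction d generalizing T with
  | zero =>
    obtain ⟨B, hB, hb⟩ := h.1
    refine ⟨⟨B, hB, ?_⟩, ?_⟩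
    · rintro s ⟨t, ht, p, j, rfl⟩ l
      exact hb t ht _
    · rintro s ⟨t, ht, p, j, rfl⟩ l
      simp only
      rw [h.2 t ht (p * (j + l)), h.2 t ht (p * (j + 0))]
  | succ d ih =>
    obtain ⟨B, hB, hb⟩ := h.1
    refine ⟨⟨B, hB, ?_⟩, fun ε hε => ?_⟩
    · rintro s ⟨t, ht, p, j, rfl⟩ l
      exact hb t ht _
    · obtain ⟨S, hS, I, hI, h1⟩ := h.2 ε hε
      refine ⟨_, ih hS, I, hI, ?_⟩
      rintro r s ⟨t, ht, p, j, rfl⟩
      obtain ⟨c, hc, h2⟩ := h1 (p * r) t ht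
      refine ⟨fun i l => c i (p * (j + l)), fun i => ?_, fun l => ?_⟩
      · rcases hc i with h4 | h4
        · exact Or.inl ⟨c i, h4, p, j, rfl⟩
        · right
          funext l
          simp [h4]
      · have h3 := h2 (p * (j + l))
        rwa [show p * (j + l) + p * r = p * (j + (l + r)) by ring] at h3

/-- polynomial phases -/
lemma tame_pp (d : ℕ) : Tame d {s | ∃ q : ℕ → ℝ, PP d q ∧ s = fun l => ee (q l)} := by
  induction d with
  | zero =>
    refine ⟨⟨1, one_pos, ?_⟩, ?_⟩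
    · rintro s ⟨q, hq, rfl⟩ l
      rw [norm_ee]
    · rintro s ⟨q, hq, rfl⟩ l
      simp only
      rw [hq l]
  | succ d ih =>
    refine ⟨⟨1, one_pos, ?_⟩, fun ε hε => ⟨_, ih, Unit, inferInstance, ?_⟩⟩
    · rintro s ⟨q, hq, rfl⟩ l
      rw [norm_ee]
    · rintro r s ⟨q, hq, rfl⟩
      refine ⟨fun _ l => ee (q (l + r) - q l), fun _ => Or.inl ⟨_, hq r, rfl⟩, fun l => ?_⟩
      have : ee (q (l + r)) * (starRingEnd ℂ) (ee (q l)) = ee (q (l + r) - q l) := by
        rw [Katai.conj_ee, sub_eq_add_neg, ee_add]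
      simp [this, hε.le]

section

variable {G : Type} [Group G] {β : ℕ → Type} [∀ s, Fintype (β s)]

/-- the averages of `F`, twisted by the elements of `T`, along the orbits of all `g` with
horizontal coordinates near `θ` are at most `ε` -/
def LocT {β₁ : Type} (T : Set (ℕ → ℂ)) (p : G → β₁ → ℝ) (F : G → ℂ) (θ : β₁ → ℝ) (ε : ℝ) :
    Prop :=
  ∃ ρ : ℝ, 0 < ρ ∧ ∃ L₀ : ℕ, ∀ L : ℕ, L₀ ≤ L → ∀ g x : G, (∀ j, |p g j - θ j| < ρ) →
    ∀ t ∈ T, ‖∑ l ∈ Icc 1 L, F (g ^ l * x) * t l‖ ≤ ε * L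

end

/-- **The statement of the induction on the level, with tame twists.** -/
def EGT (k : ℕ) : Prop :=
  ∀ (G : Type) [Group G] [TopologicalSpace G] [IsTopologicalGroup G]
    (A : ℕ → Subgroup G) (Γ : Subgroup G)
    (β : ℕ → Type) [∀ s, Fintype (β s)] [∀ s, DecidableEq (β s)]
    (π : (s : ℕ) → G → β s → ℝ) (e : (s : ℕ) → β s → ℝ → G), NS A Γ π e →
    ∀ b : β 2 → β 1 → β 1 → ℤ, CF π b → ∀ T : Set (ℕ → ℂ), Tame (k + 1) T →
    ∀ F : G → ℂ, LevN A Γ e (k + 2) F → GoodN e (k + 2) F → ∀ ε : ℝ, 0 < ε →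
    ∃ (K : ℕ) (δ : ℝ), 0 < δ ∧ ∀ θ : β 1 → ℝ, TT π e (k + 2) K θ → GGd b K δ θ →
      LocT T (π 1) F θ ε

/-- the index set of the twisted family -/
abbrev IdxT {G : Type} [Group G] (T : Set (ℕ → ℂ)) (N : Subgroup G) (U : Set G) : Type :=
  Idx N U × {t : ℕ → ℂ // t ∈ T}

/-- the family of sequences `F (g ^ n x) t n` -/
noncomputable def orbT {G : Type} [Group G] (T : Set (ℕ → ℂ)) (N : Subgroup G) (U : Set G)
    (F : G → ℂ) (i : IdxT T N U) (n : ℕ) : ℂ := F ((i.1.1 : G) ^ n * i.1.2) * i.2.1 n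

/-- The uniform estimate with constant `ε` for `F`, all `g ∈ U N`, `U` a neighbourhood of `K`, and
all twists in `T`. -/
def UEpsT {G : Type} [Group G] [TopologicalSpace G] (T : Set (ℕ → ℂ)) (N : Subgroup G)
    (F : G → ℂ) (K : Set G) (ε : ℝ) : Prop :=
  ∃ U : Set G, IsOpen U ∧ K ⊆ U ∧ ∃ H₀ : ℕ, ∀ M H : ℕ, H₀ ≤ H → H ≤ M →
    ∑ n ∈ Icc 1 M, (1 / (n : ℝ)) * GG (orbT T N U F) muC H n ≤ ε * H * Real.log M

end Pool.Agent.Lib.MP_663568_nt.E
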