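import Pool.Agent.Lib.MP_663568_e.EDefs

/-!
Row W5: the criterion of Kátai for one function, with a constant which does not depend on the
primes.
-/

set_option autoImplicit false
open Finset

namespace Pool.Agent.Lib.MP_663568_nt.E

open Katai Tw Fib Nul T3

/-- The sum of the window suprema; the error has the weight of the primes, not their number. -/
lemma sum_BB_w {ι : Type*} (P : Finset ℕ) (hP : ∀ p ∈ P, p.Prime) (F : ι → ℕ → ℂ) (a : ℕ → ℂ)
    (hF : ∀ i n, ‖F i n‖ ≤ 1) (ha : ∀ n, ‖a n‖ ≤ 1) (L : ℕ) (η : ℝ) (hη : 0 ≤ η)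
    (horth : ∀ p ∈ P, ∀ q ∈ P, p ≠ q → ∀ i i' j,
      ‖∑ l ∈ Icc 1 L, F i (p * (j + l)) * (starRingEnd ℂ) (F i' (q * (j + l)))‖ ≤ η * L) (Y : ℕ) :
    ∑ p ∈ P, ∑ m ∈ Icc 1 (Y / p), BB F a L p (m - 1)
      ≤ L * (2 * Y + √η * WW P * Y) := by
  have e1 : ∀ p ∈ P, ∑ m ∈ Icc 1 (Y / p), BB F a L p (m - 1)
      = ∑ m ∈ Icc 1 Y, if m * p ≤ Y then BB F a L p (m - 1) else 0 := by
    intro p hp
    rw [← sum_filter]
    apply sum_congr _ (fun _ _ => rfl)
    ext m
    simp only [mem_Icc, mem_filter]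
    rw [Nat.le_div_iff_mul_le (hP p hp).pos]
    constructor
    · rintro ⟨h1, h2⟩
      exact ⟨⟨h1, (Nat.le_mul_of_pos_right m (hP p hp).pos).trans h2⟩, h2⟩
    · rintro ⟨⟨h1, _⟩, h2⟩; exact ⟨h1, h2⟩
  rw [sum_congr rfl e1, sum_comm]
  have e2 : ∀ m ∈ Icc 1 Y, ∑ p ∈ P, (if m * p ≤ Y then BB F a L p (m - 1) else 0)
      ≤ L * (√Y * (1 / √m) + √η * ((P.filter fun p => m * p ≤ Y).card : ℝ)) := by
    intro m hm
    rw [mem_Icc] at hm
    rw [← sum_filter]
    set Q := P.filter (fun p => m * p ≤ Y) with hQ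
    have hQP : Q ⊆ P := filter_subset _ _
    have h1 : ∑ p ∈ Q, BB F a L p (m - 1) ≤ L * √((Q.card : ℝ) + η * (Q.card : ℝ) ^ 2) := by
      apply duality_iSup Q L η hη (fun l => a (m - 1 + l)) (fun _ => ha _)
        (fun i p l => F i (p * (m - 1 + l))) (fun _ _ _ => hF _ _)
      intro p hp q hq hpq i i'
      exact horth p (hQP hp) q (hQP hq) hpq i i' (m - 1)
    have h2 : (Q.card : ℝ) ≤ (Y : ℝ) / m := by
      have : Q.card ≤ Y / m := by
        calc Q.card ≤ (Icc 1 (Y / m)).card := by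
              apply card_le_card
              intro p hp
              rw [hQ, mem_filter] at hp
              rw [mem_Icc, Nat.le_div_iff_mul_le hm.1, mul_comm]
              exact ⟨(hP p hp.1).pos, hp.2⟩
          _ = Y / m := by simp
      calc (Q.card : ℝ) ≤ ((Y / m : ℕ) : ℝ) := by exact_mod_cast this
        _ ≤ _ := Nat.cast_div_le
    refine h1.trans (mul_le_mul_of_nonneg_left ?_ (by positivity))
    have hs : √((Q.card : ℝ) + η * (Q.card : ℝ) ^ 2) ≤ √(Q.card : ℝ) + √(η * (Q.card : ℝ) ^ 2) := by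
      rw [Real.sqrt_le_left (by positivity)]
      have a1 := Real.sq_sqrt (show (0:ℝ) ≤ (Q.card : ℝ) by positivity)
      have a2 := Real.sq_sqrt (show (0:ℝ) ≤ η * (Q.card : ℝ) ^ 2 by positivity)
      have a3 : 0 ≤ √(Q.card : ℝ) * √(η * (Q.card : ℝ) ^ 2) := by positivity
      nlinarith
    refine hs.trans (add_le_add ?_ ?_)
    · calc √(Q.card : ℝ) ≤ √((Y : ℝ) / m) := Real.sqrt_le_sqrt h2
        _ = √Y * (1 / √m) := by rw [Real.sqrt_div (by positivity)]; ring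
    · rw [Real.sqrt_mul hη, Real.sqrt_sq (by positivity)]
  have e3 : ∑ m ∈ Icc 1 Y, ((P.filter fun p => m * p ≤ Y).card : ℝ) ≤ WW P * Y := by
    have h1 : ∀ m ∈ Icc 1 Y, ((P.filter fun p => m * p ≤ Y).card : ℝ) =
        ∑ p ∈ P, if m * p ≤ Y then (1 : ℝ) else 0 := by
      intro m _
      rw [card_filter]
      push_cast
      rfl
    rw [sum_congr rfl h1, sum_comm, WW, sum_mul]
    refine sum_le_sum fun p hp => ?_
    rw [← sum_filter, sum_const, nsmul_eq_mul, mul_one]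
    have h2 : ((Icc 1 Y).filter fun m => m * p ≤ Y).card ≤ Y / p := by
      calc ((Icc 1 Y).filter fun m => m * p ≤ Y).card ≤ (Icc 1 (Y / p)).card := by
            apply card_le_card
            intro m hm
            rw [mem_filter, mem_Icc] at hm
            rw [mem_Icc, Nat.le_div_iff_mul_le (hP p hp).pos]
            exact ⟨hm.1.1, hm.2⟩
        _ = Y / p := by simp
    calc (((Icc 1 Y).filter fun m => m * p ≤ Y).card : ℝ) ≤ ((Y / p : ℕ) : ℝ) := by exact_mod_cast h2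
      _ ≤ (Y : ℝ) / p := Nat.cast_div_le
      _ = 1 / (p : ℝ) * Y := by ring
  calc _ ≤ ∑ m ∈ Icc 1 Y, (L : ℝ) * (√Y * (1 / √m) +
        √η * ((P.filter fun p => m * p ≤ Y).card : ℝ)) := sum_le_sum e2
    _ = L * (√Y * ∑ m ∈ Icc 1 Y, (1 / √(m : ℝ)) +
        √η * ∑ m ∈ Icc 1 Y, ((P.filter fun p => m * p ≤ Y).card : ℝ)) := by
        rw [← mul_sum, sum_add_distrib, ← mul_sum, ← mul_sum]
    _ ≤ L * (√Y * (2 * √Y) + √η * (WW P * Y)) := by
        gcongr; exact sum_inv_sqrt Y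
    _ = _ := by
        have : √(Y : ℝ) * (2 * √(Y : ℝ)) = 2 * Y := by
          rw [mul_left_comm, Real.mul_self_sqrt (by positivity)]
        rw [this]; ring

/-- The main estimate for natural averages. -/
lemma main_estimate_w {ι : Type*} (P : Finset ℕ) (hP : ∀ p ∈ P, p.Prime) (F : ι → ℕ → ℂ) (a : ℕ → ℂ)
    (hF : ∀ i n, ‖F i n‖ ≤ 1) (ha : ∀ n, ‖a n‖ ≤ 1)
    (hmul : ∀ p ∈ P, ∀ m, ¬ p ∣ m → a (p * m) = a p * a m)
    (L : ℕ) (hL : 0 < L) (η : ℝ) (hη : 0 ≤ η)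
    (horth : ∀ p ∈ P, ∀ q ∈ P, p ≠ q → ∀ i i' j,
      ‖∑ l ∈ Icc 1 L, F i (p * (j + l)) * (starRingEnd ℂ) (F i' (q * (j + l)))‖ ≤ η * L)
    (H X : ℕ) (hX : 2 * P.card ≤ X + H) :
    WW P * ∑ n ∈ range X, GG F a H n
      ≤ H * ((X + H : ℕ) : ℝ) * (√(2 * WW P) + 4 + √η * WW P) + 2 * L * (P.card : ℝ) * X := by
  set Y := X + H with hY
  have h1 : ∑ n ∈ range X, ∑ m ∈ Ioc n (n + H), |om P m - WW P|
      ≤ H * (√(2 * WW P) * Y) := by
    have := sum_windows_le 1 one_pos H X (fun m => |om P m - WW P|) (fun _ => abs_nonneg _)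
    simp only [Nat.div_one] at this
    refine this.trans ?_
    exact mul_le_mul_of_nonneg_left (turan_kubilius_one P hP Y hX) (by positivity)
  have h2 : ∀ p ∈ P, ∑ n ∈ range X, ∑ m ∈ Ioc (n / p) ((n + H) / p), BB F a L p (m - 1)
      ≤ H * ∑ m ∈ Icc 1 (Y / p), BB F a L p (m - 1) := fun p hp =>
    sum_windows_le p (hP p hp).pos H X _ (fun _ => BB_nonneg _ _ _ _ _)
  have h3 : ∀ p ∈ P, ∑ n ∈ range X, ∑ m ∈ Ioc (n / p) ((n + H) / p), (if p ∣ m then (2 : ℝ) else 0)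
      ≤ H * (2 * (Y * (1 / (p : ℝ) ^ 2))) := by
    intro p hp
    refine (sum_windows_le p (hP p hp).pos H X _ (fun m => by split_ifs <;> norm_num)).trans ?_
    apply mul_le_mul_of_nonneg_left _ (by positivity)
    have : ∀ m, (if p ∣ m then (2 : ℝ) else 0) = 2 * (if p ∣ m then (1 : ℝ) else 0) := by
      intro m; split_ifs <;> norm_num
    simp only [this, ← mul_sum]
    rw [← hY, sum_dvd]
    apply mul_le_mul_of_nonneg_left _ (by norm_num)
    have hpr : (0 : ℝ) < p := by exact_mod_cast (hP p hp).pos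
    calc ((Y / p / p : ℕ) : ℝ) ≤ ((Y / p : ℕ) : ℝ) / p := Nat.cast_div_le
      _ ≤ ((Y : ℝ) / p) / p := by gcongr; exact Nat.cast_div_le
      _ = _ := by field_simp
  have hB := sum_BB_w P hP F a hF ha L η hη horth Y
  have hS := sum_inv_sq_primes P hP
  have hLr : (0 : ℝ) < L := by exact_mod_cast hL
  have hW0 := WW_nonneg P
  calc WW P * ∑ n ∈ range X, GG F a H n = ∑ n ∈ range X, WW P * GG F a H n := by rw [mul_sum]
    _ ≤ ∑ n ∈ range X, (∑ m ∈ Ioc n (n + H), |om P m - WW P|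
        + ∑ p ∈ P, (((1 / (L : ℝ)) * ∑ m ∈ Ioc (n / p) ((n + H) / p), BB F a L p (m - 1) + 2 * L)
          + ∑ m ∈ Ioc (n / p) ((n + H) / p), if p ∣ m then (2 : ℝ) else 0)) := by
        apply sum_le_sum; intro n _
        exact sup_ineq P hP F a hF ha hmul L hL H n
    _ = ∑ n ∈ range X, ∑ m ∈ Ioc n (n + H), |om P m - WW P|
        + ∑ p ∈ P, ((1 / (L : ℝ)) * (∑ n ∈ range X, ∑ m ∈ Ioc (n / p) ((n + H) / p),
            BB F a L p (m - 1)) + 2 * L * X
          + ∑ n ∈ range X, ∑ m ∈ Ioc (n / p) ((n + H) / p), if p ∣ m then (2 : ℝ) else 0) := by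
        rw [sum_add_distrib]
        congr 1
        rw [sum_comm]
        apply sum_congr rfl; intro p _
        rw [sum_add_distrib, sum_add_distrib, ← mul_sum]
        simp; ring
    _ ≤ H * (√(2 * WW P) * Y)
        + ∑ p ∈ P, ((1 / (L : ℝ)) * (H * ∑ m ∈ Icc 1 (Y / p), BB F a L p (m - 1)) + 2 * L * X
          + H * (2 * (Y * (1 / (p : ℝ) ^ 2)))) := by
        apply add_le_add h1
        apply sum_le_sum; intro p hp
        apply add_le_add _ (h3 p hp)
        apply add_le_add _ le_rfl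
        exact mul_le_mul_of_nonneg_left (h2 p hp) (by positivity)
    _ = H * (√(2 * WW P) * Y)
        + ((1 / (L : ℝ)) * (H * ∑ p ∈ P, ∑ m ∈ Icc 1 (Y / p), BB F a L p (m - 1))
          + 2 * L * X * (P.card : ℝ)
          + H * (2 * (Y * ∑ p ∈ P, (1 / (p : ℝ) ^ 2)))) := by
        rw [sum_add_distrib, sum_add_distrib]
        simp only [← mul_sum]
        simp; ring
    _ ≤ H * (√(2 * WW P) * Y)
        + ((1 / (L : ℝ)) * (H * (L * (2 * Y + √η * WW P * Y)))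
          + 2 * L * X * (P.card : ℝ)
          + H * (2 * (Y * 1))) := by
        gcongr
    _ = _ := by
        field_simp
        ring

/-- The criterion of Kátai for one function; the constant `η` does not depend on the primes. -/
theorem natural_w (a : ℕ → ℂ) (ha : ∀ n, ‖a n‖ ≤ 1) (hmul : Mult a) (ε : ℝ) (hε : 0 < ε) :
    ∃ η : ℝ, 0 < η ∧ ∀ K₀ : ℕ, ∃ P : Finset ℕ, (∀ p ∈ P, p.Prime ∧ K₀ < p) ∧
      ∀ L : ℕ, 0 < L → ∃ H₀ : ℕ, 0 < H₀ ∧
      ∀ f : ℕ → ℂ, (∀ n, ‖f n‖ ≤ 1) →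
      (∀ p ∈ P, ∀ q ∈ P, p ≠ q → ∀ j,
        ‖∑ l ∈ Icc 1 L, f (p * (j + l)) * (starRingEnd ℂ) (f (q * (j + l)))‖ ≤ η * L) →
      ∀ X : ℕ, H₀ ≤ X → ∑ n ∈ range X, ws f a n H₀ ≤ ε * H₀ * X := by
  refine ⟨(ε / 16) ^ 2, by positivity, fun K₀ => ?_⟩
  obtain ⟨P₀, hPsub, hW₀⟩ := exists_finset_WW {p : ℕ | p.Prime} not_summable_one_div_on_primes
    (2048 / ε ^ 2 + 160 / ε + 1 + (K₀ + 1))
  set P : Finset ℕ := P₀.filter fun p => K₀ < p with hPdef
  have hP : ∀ p ∈ P, p.Prime ∧ K₀ < p := fun p hp => by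
    rw [hPdef, mem_filter] at hp
    exact ⟨hPsub hp.1, hp.2⟩
  have hW : 2048 / ε ^ 2 + 160 / ε + 1 ≤ WW P := by
    have h1 : WW P₀ = WW P + ∑ p ∈ P₀.filter (fun p => ¬ K₀ < p), 1 / (p : ℝ) := by
      rw [WW, WW, hPdef]
      exact (sum_filter_add_sum_filter_not P₀ (fun p => K₀ < p) _).symm
    have h2 : ∑ p ∈ P₀.filter (fun p => ¬ K₀ < p), 1 / (p : ℝ) ≤ K₀ + 1 := by
      have h3 : ∀ p ∈ P₀.filter (fun p => ¬ K₀ < p), 1 / (p : ℝ) ≤ 1 := by
        intro p hp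
        rw [mem_filter] at hp
        have h4 : (1 : ℝ) ≤ p := by exact_mod_cast (hPsub hp.1 : p.Prime).one_le
        rw [div_le_one (by linarith)]
        exact h4
      refine (sum_le_card_nsmul _ _ _ h3).trans ?_
      rw [nsmul_eq_mul, mul_one]
      have h5 : (P₀.filter (fun p => ¬ K₀ < p)).card ≤ (range (K₀ + 1)).card := by
        apply card_le_card
        intro p hp
        rw [mem_filter] at hp
        rw [mem_range]
        omega
      rw [card_range] at h5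
      exact_mod_cast h5
    linarith
  refine ⟨P, hP, fun L hL0 => ?_⟩
  have hP' : ∀ p ∈ P, p.Prime := fun p hp => (hP p hp).1
  set K : ℝ := (P.card : ℝ) with hK
  have hK0 : 0 ≤ K := by positivity
  refine ⟨⌈4 * (L : ℝ) * K / ε⌉₊ + P.card + 1, by omega, ?_⟩
  set H : ℕ := ⌈4 * (L : ℝ) * K / ε⌉₊ + P.card + 1 with hH
  intro f hf hL X hHX
  have hmain := main_estimate_w (ι := Unit) P hP' (fun _ => f) a (fun _ => hf) ha
    (fun p hp m hm => hmul p (hP' p hp) m hm) L hL0 ((ε / 16) ^ 2) (by positivity)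
    (fun p hp q hq hpq _ _ j => hL p hp q hq hpq j) H X (by omega)
  have hGG : ∀ n, GG (fun _ : Unit => f) a H n = ws f a n H := by
    intro n
    rw [GG, ws, ciSup_const]
  simp only [hGG] at hmain
  have hsη : √((ε / 16) ^ 2) = ε / 16 := Real.sqrt_sq (by positivity)
  rw [hsη] at hmain
  set W := WW P with hWdef
  have hW1 : 1 ≤ W := by
    have : (0 : ℝ) < 2048 / ε ^ 2 + 160 / ε := by positivity
    linarith
  have hWa : 2048 / ε ^ 2 ≤ W := by
    have : (0 : ℝ) < 160 / ε := by positivity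
    linarith
  have hWb : 160 / ε ≤ W := by
    have : (0 : ℝ) < 2048 / ε ^ 2 := by positivity
    linarith
  have hs : √(2 * W) ≤ ε / 16 * W := by
    rw [Real.sqrt_le_left (by positivity)]
    rw [div_le_iff₀ (by positivity)] at hWa
    have : 2 * W ≤ 2 * W * (W * ε ^ 2 / 2048) := by
      have h1 : 1 ≤ W * ε ^ 2 / 2048 := by linarith
      nlinarith
    nlinarith
  have h5 : 4 ≤ ε / 16 * W := by
    rw [div_le_iff₀ hε] at hWb; linarith
  have hHr : 4 * (L : ℝ) * K / ε ≤ H := by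
    have h1 := Nat.le_ceil (4 * (L : ℝ) * K / ε)
    have h2 : ((⌈4 * (L : ℝ) * K / ε⌉₊ : ℕ) : ℝ) ≤ H := Nat.cast_le.mpr (by omega)
    linarith
  have hHX' : ((X + H : ℕ) : ℝ) ≤ 2 * X := by
    have : (H : ℝ) ≤ X := by exact_mod_cast hHX
    push_cast; linarith
  have hX0 : (0 : ℝ) ≤ X := by positivity
  have hH0 : (0 : ℝ) ≤ H := by positivity
  have h6 : 2 * L * K * X ≤ ε / 2 * W * H * X := by
    rw [div_le_iff₀ hε] at hHr
    have : 2 * L * K ≤ ε / 2 * W * H := by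
      have h1 : 2 * (L : ℝ) * K ≤ ε / 2 * H := by linarith
      have h2 : ε / 2 * H ≤ ε / 2 * H * W := le_mul_of_one_le_right (by positivity) hW1
      linarith
    exact mul_le_mul_of_nonneg_right this hX0
  have h7 : H * ((X + H : ℕ) : ℝ) * (√(2 * W) + 4 + ε / 16 * W) ≤
      H * (2 * X) * (ε / 16 * W + ε / 16 * W + ε / 16 * W) := by
    have h8 : √(2 * W) + 4 + ε / 16 * W ≤ ε / 16 * W + ε / 16 * W + ε / 16 * W := by linarith
    gcongr
  have h9 : W * ∑ n ∈ range X, ws f a n H ≤ W * (ε * H * X) := by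
    calc _ ≤ _ := hmain
      _ ≤ H * (2 * X) * (ε / 16 * W + ε / 16 * W + ε / 16 * W) + ε / 2 * W * H * X :=
        add_le_add h7 h6
      _ = 7 / 8 * (W * (ε * H * X)) := by ring
      _ ≤ _ := by
        have : 0 ≤ W * (ε * H * X) := by positivity
        linarith
  exact le_of_mul_le_mul_left h9 (by linarith)

end Pool.Agent.Lib.MP_663568_nt.E
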