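import Pool.Agent.Lib.MP_663568_e.E09A
import Pool.Agent.Lib.MP_663568_tw.VDefs

/-!
Row V11: nilsequences are tame.
-/

set_option autoImplicit false
open Finset MeasureTheory

namespace Pool.Agent.Lib.MP_663568_nt.E

open Katai Tw Fib Nul T3

/-- the nilsequences of the function `ψ` -/
def NilT {G : Type} [Group G] (ψ : G → ℂ) : Set (ℕ → ℂ) :=
  {t | ∃ h y : G, t = fun l => ψ (h ^ l * y)}

variable {G : Type} [Group G] [TopologicalSpace G] [IsTopologicalGroup G] {A : ℕ → Subgroup G}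
  {Γ : Subgroup G}
  {β : ℕ → Type} [∀ s, Fintype (β s)] [∀ s, DecidableEq (β s)]
  {π : (s : ℕ) → G → β s → ℝ} {e : (s : ℕ) → β s → ℝ → G}

/-- decomposition into functions of level `s` -/
theorem dec_lev (hN : NS A Γ π e) (s : ℕ) (hs : 1 ≤ s) (ψ : G → ℂ) (hr : Reg Γ ψ)
    (hinv : Inv (A (s + 1)) ψ) (ε : ℝ) (hε : 0 < ε) :
    ∃ (ι : Type) (_ : Fintype ι) (Ψ : ι → G → ℂ), (∀ i, LevN A Γ e s (Ψ i)) ∧
      ∀ x, ‖ψ x - ∑ i, Ψ i x‖ ≤ ε := by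
  have hC : Cocompact' Γ := by
    obtain ⟨C, hC1, _, hC2⟩ := hN.coc 0
    exact ⟨C, hC1, fun x => hC2 x (by rw [hN.A0]; trivial)⟩
  obtain ⟨ι, hι, Ψ, hΨ, happ⟩ := fourier_list Γ hC
    ((univ : Finset (β s)).toList.map (e s))
    (by
      intro c hc
      obtain ⟨j, _, rfl⟩ := List.mem_map.1 hc
      exact (hN.e_onep s hs j).1)
    (fun Ψ => Reg Γ Ψ ∧ Inv (A (s + 1)) Ψ)
    (fun Ψ h => h.1)
    (by
      intro Ψ h c hc x
      obtain ⟨j, _, rfl⟩ := List.mem_map.1 hc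
      exact gamma_act _ hN.comm hN.A1 h.1 h.2 (hN.e_onep s hs j).2.1
        ((hN.e_onep s hs j).2.2 1) x)
    (by
      intro Ψ h c hc c' hc' r r' x
      obtain ⟨j, _, rfl⟩ := List.mem_map.1 hc
      obtain ⟨j', _, rfl⟩ := List.mem_map.1 hc'
      exact swap_eq _ hN.comm hN.anti hs h.2 ((hN.e_onep s hs j).2.2 r)
        ((hN.e_onep s hs j').2.2 r') x)
    (by
      intro Ψ h c hc m'
      obtain ⟨j, _, rfl⟩ := List.mem_map.1 hc
      exact ⟨reg_Pop _ Ψ h.1 _ (hN.e_onep s hs j).1.1 m',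
        FDec.inv_Pop _ hN.anti hN.comm hN.A1 h.2 _ m'⟩)
    (fun Ψ h c => ⟨reg_const_mul h.1 c, fun z hz x => by
        show c * Ψ (z * x) = c * Ψ x
        rw [h.2 z hz x]⟩) ψ ⟨hr, hinv⟩ ε hε
  exact ⟨ι, hι, Ψ, fun i => ⟨(hΨ i).1.1, (hΨ i).1.2, fun j =>
    (hΨ i).2 _ (List.mem_map.2 ⟨j, by simp, rfl⟩)⟩, happ⟩

/-- the functions on the square, for a compact set of translates -/
private theorem net_lev (hN : NS A Γ π e) (s : ℕ) (hs : 1 ≤ s) (F : G → ℂ)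
    (hF : LevN A Γ e (s + 1) F) (X : Set G) (hX : IsCompact X) (ε : ℝ) (hε : 0 < ε) :
    ∃ (N : Type) (_ : Fintype N) (ι : N → Type) (_ : ∀ ν, Fintype (ι ν))
      (Ψ : (ν : N) → ι ν → SqG A hN.anti hN.comm hN.A0 → ℂ),
      (∀ ν i, LevN (sqA A hN.anti hN.comm hN.A0) (sqΓ A hN.anti hN.comm hN.A0 Γ)
        (sqe A hN.anti hN.comm hN.A0 e) s (Ψ ν i)) ∧
      ∀ y ∈ X, ∀ y' ∈ X, ∃ ν, ∀ p : SqG A hN.anti hN.comm hN.A0,
        ‖F (y * p.1.1) * (starRingEnd ℂ) (F (y' * p.1.2)) - ∑ i, Ψ ν i p‖ ≤ ε := by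
  have hC : Cocompact' Γ := by
    obtain ⟨C, hC1, _, hC2⟩ := hN.coc 0
    exact ⟨C, hC1, fun x => hC2 x (by rw [hN.A0]; trivial)⟩
  obtain ⟨B, hB0, hB⟩ := reg_bdd hC hF.1
  set η := ε / (4 * B) with hη
  have hηpos : 0 < η := by positivity
  have hV := reg_unif Γ hC F hF.1 η hηpos
  have hcov : ∀ y₀ ∈ X, {y : G | ∀ x, ‖F ((y * y₀⁻¹) * x) - F x‖ ≤ η} ∈ nhds y₀ := by
    intro y₀ _
    have hc : Filter.Tendsto (fun y : G => y * y₀⁻¹) (nhds y₀) (nhds 1) := by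
      have : Continuous fun y : G => y * y₀⁻¹ := by fun_prop
      have h := this.tendsto y₀
      rwa [mul_inv_cancel] at h
    exact hc.eventually hV
  obtain ⟨t, _, htX⟩ := hX.elim_nhds_subcover _ hcov
  choose m hm using hF.2.2
  have h1 : ∀ ν : {x // x ∈ t} × {x // x ∈ t}, ∃ (ι : Type) (_ : Fintype ι)
      (Ψ : ι → SqG A hN.anti hN.comm hN.A0 → ℂ),
      (∀ i, LevN (sqA A hN.anti hN.comm hN.A0) (sqΓ A hN.anti hN.comm hN.A0 Γ)
        (sqe A hN.anti hN.comm hN.A0 e) s (Ψ i)) ∧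
      ∀ p : SqG A hN.anti hN.comm hN.A0,
        ‖F (ν.1.1 * p.1.1) * (starRingEnd ℂ) (F (ν.2.1 * p.1.2)) - ∑ i, Ψ i p‖ ≤ ε / 2 :=
    fun ν => dec_lev (ns_sq hN) s hs (Net.prodF A hN.anti hN.comm hN.A0 F ν.1.1 ν.2.1)
      (Net.reg_prodF hN hF.1 ν.1.1 ν.2.1) (Net.inv_prodF hN hF.2.1 m hm ν.1.1 ν.2.1)
      (ε / 2) (by positivity)
  choose ι hι Ψ hΨ happ using h1
  refine ⟨{x // x ∈ t} × {x // x ∈ t}, inferInstance, ι, hι, Ψ, hΨ, fun y hy y' hy' => ?_⟩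
  have h2 := htX hy
  have h3 := htX hy'
  simp only [Set.mem_iUnion, Set.mem_ofPred_eq, exists_prop] at h2 h3
  obtain ⟨y₀, hy₀, h2⟩ := h2
  obtain ⟨y₀', hy₀', h3⟩ := h3
  refine ⟨(⟨y₀, hy₀⟩, ⟨y₀', hy₀'⟩), fun p => ?_⟩
  have h4 := happ (⟨y₀, hy₀⟩, ⟨y₀', hy₀'⟩) p
  have h5 : ‖F (y * p.1.1) - F (y₀ * p.1.1)‖ ≤ η := by
    have := h2 (y₀ * p.1.1)
    rwa [show y * y₀⁻¹ * (y₀ * p.1.1) = y * p.1.1 by group] at this
  have h6 : ‖F (y' * p.1.2) - F (y₀' * p.1.2)‖ ≤ η := by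
    have := h3 (y₀' * p.1.2)
    rwa [show y' * y₀'⁻¹ * (y₀' * p.1.2) = y' * p.1.2 by group] at this
  have h7 : ‖F (y * p.1.1) * (starRingEnd ℂ) (F (y' * p.1.2)) -
      F (y₀ * p.1.1) * (starRingEnd ℂ) (F (y₀' * p.1.2))‖ ≤ ε / 2 := by
    have e1 : F (y * p.1.1) * (starRingEnd ℂ) (F (y' * p.1.2)) -
        F (y₀ * p.1.1) * (starRingEnd ℂ) (F (y₀' * p.1.2)) =
        (F (y * p.1.1) - F (y₀ * p.1.1)) * (starRingEnd ℂ) (F (y' * p.1.2)) +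
        F (y₀ * p.1.1) * (starRingEnd ℂ) (F (y' * p.1.2) - F (y₀' * p.1.2)) := by
      rw [map_sub]; ring
    rw [e1]
    refine (norm_add_le _ _).trans ?_
    rw [norm_mul, norm_mul, RCLike.norm_conj, RCLike.norm_conj]
    have h8 : ‖F (y * p.1.1) - F (y₀ * p.1.1)‖ * ‖F (y' * p.1.2)‖ ≤ η * B :=
      mul_le_mul h5 (hB _) (norm_nonneg _) hηpos.le
    have h9 : ‖F (y₀ * p.1.1)‖ * ‖F (y' * p.1.2) - F (y₀' * p.1.2)‖ ≤ B * η :=
      mul_le_mul (hB _) h6 (norm_nonneg _) hB0.le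
    have h10 : η * B = ε / 4 := by
      rw [hη]; field_simp
    nlinarith
  calc _ = ‖(F (y * p.1.1) * (starRingEnd ℂ) (F (y' * p.1.2)) -
      F (y₀ * p.1.1) * (starRingEnd ℂ) (F (y₀' * p.1.2))) +
      (F (y₀ * p.1.1) * (starRingEnd ℂ) (F (y₀' * p.1.2)) -
        ∑ i, Ψ (⟨y₀, hy₀⟩, ⟨y₀', hy₀'⟩) i p)‖ := by
        congr 1; ring
    _ ≤ ε / 2 + ε / 2 := (norm_add_le _ _).trans (add_le_add h7 h4)
    _ = ε := by ring

/-- the sequences of a function of level one -/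
private theorem nil_one (hN : NS A Γ π e) (ψ : G → ℂ) (hψ : LevN A Γ e 1 ψ) :
    Tame 1 (NilT ψ) := by
  have hC : Cocompact' Γ := by
    obtain ⟨C, hC1, _, hC2⟩ := hN.coc 0
    exact ⟨C, hC1, fun x => hC2 x (by rw [hN.A0]; trivial)⟩
  obtain ⟨B, hB0, hB⟩ := reg_bdd hC hψ.1
  obtain ⟨_, hinv, hfr⟩ := hψ
  choose m hm using hfr
  have h0 : Tame 0 {s : ℕ → ℂ | ‖s 0‖ ≤ B ∧ ∀ l, s l = s 0} :=
    ⟨⟨B, hB0, fun s hs l => by rw [hs.2 l]; exact hs.1⟩, fun s hs => hs.2⟩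
  refine ((h0.mono (Nat.zero_le 1)).mul (tame_pp 1)).subset ?_
  rintro t ⟨h, y, rfl⟩
  refine ⟨fun _ => ψ y, ⟨hB y, fun _ => rfl⟩, _, ⟨fun l => (∑ j, (m j : ℝ) * π 1 h j) * l, ?_, rfl⟩,
    ?_⟩
  · intro r l
    push_cast
    ring
  · funext l
    have hgl : h ^ l ∈ A 1 := by rw [hN.A1]; exact Subgroup.mem_top _
    have e1 : ∑ j, (m j : ℝ) * π 1 (h ^ l) j = (∑ j, (m j : ℝ) * π 1 h j) * l := by
      rw [pi_pow hN, Finset.sum_mul]
      exact Finset.sum_congr rfl fun j _ => by ring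
    rw [lev_act hN le_rfl hinv m hm hgl y, e1, mul_comm]

/-- **Nilsequences are tame.** -/
theorem nil_tame (s : ℕ) (hs : 1 ≤ s) :
    ∀ (G : Type) [Group G] [TopologicalSpace G] [IsTopologicalGroup G]
    (A : ℕ → Subgroup G) (Γ : Subgroup G)
    (β : ℕ → Type) [∀ s, Fintype (β s)] [∀ s, DecidableEq (β s)]
    (π : (s : ℕ) → G → β s → ℝ) (e : (s : ℕ) → β s → ℝ → G), NS A Γ π e →
    ∀ ψ : G → ℂ, LevN A Γ e s ψ → Tame s (NilT ψ) := by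
  induction s, hs using Nat.le_induction with
  | base =>
    intro G _ _ _ A Γ β _ _ π e hN ψ hψ
    exact nil_one hN ψ hψ
  | succ s hs ih =>
    intro G _ _ _ A Γ β _ _ π e hN F hF
    classical
    have hC : Cocompact' Γ := by
      obtain ⟨C, hC1, _, hC2⟩ := hN.coc 0
      exact ⟨C, hC1, fun x => hC2 x (by rw [hN.A0]; trivial)⟩
    obtain ⟨B, hB0, hB⟩ := reg_bdd hC hF.1
    refine ⟨⟨B, hB0, ?_⟩, fun ε hε => ?_⟩
    · rintro t ⟨h, y, rfl⟩ l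
      exact hB _
    obtain ⟨X, hX, X₀, hX₀, hX₀X, hdec, htr⟩ := exists_trans hN
    obtain ⟨N, hNf, ι, hιf, Ψ, hΨ, hnet⟩ := net_lev hN s hs F hF X hX ε hε
    have hS : Tame s (⋃ i : (Σ ν, ι ν), NilT (Ψ i.1 i.2)) :=
      Tame.iUnion fun i => ih (SqG A hN.anti hN.comm hN.A0)
        (sqA A hN.anti hN.comm hN.A0) (sqΓ A hN.anti hN.comm hN.A0 Γ) (sqβ β)
        (sqπ A hN.anti hN.comm hN.A0 π) (sqe A hN.anti hN.comm hN.A0 e) (ns_sq hN) (Ψ i.1 i.2)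
        (hΨ i.1 i.2)
    refine ⟨_, hS, (Σ ν, ι ν), inferInstance, ?_⟩
    rintro r t ⟨g, x, rfl⟩
    obtain ⟨x₀, hx₀, γ₀, hγ₀, hx⟩ := hdec x
    set g' : G := x₀⁻¹ * g * x₀ with hg'
    obtain ⟨c, γ, hγ, hcγ, hπγ, hyc⟩ := htr x₀ hx₀ (g' ^ r) (fun j => ⌊π 1 (g' ^ r) j⌋) (by
      intro j
      have h3 := Int.floor_le (π 1 (g' ^ r) j)
      have h4 := Int.lt_floor_add_one (π 1 (g' ^ r) j)
      rw [abs_le]
      constructor <;> linarith)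
    obtain ⟨ν, hν⟩ := hnet (x₀ * c) hyc x₀ (hX₀X hx₀)
    -- the element of the square
    have hmem : ((γ * g' * γ⁻¹, g') : G × G) ∈ sq A hN.anti hN.comm hN.A0 1 := by
      rw [mem_sq A hN.anti hN.comm hN.A0 hN.A1]
      refine ⟨by rw [hN.A1]; trivial, by rw [hN.A1]; trivial, ?_⟩
      have := hN.comm 1 1 (Subgroup.commutator_mem_commutator (g₁ := γ) (g₂ := g')
        (by rw [hN.A1]; trivial) (by rw [hN.A1]; trivial))
      simpa [commutatorElement_def] using this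
    set p : SqG A hN.anti hN.comm hN.A0 := ⟨(γ * g' * γ⁻¹, g'), hmem⟩ with hp
    have hterm : ∀ l, F (g ^ (l + r) * x) * (starRingEnd ℂ) (F (g ^ l * x)) =
        F (x₀ * c * (p ^ l).1.1) * (starRingEnd ℂ) (F (x₀ * (p ^ l).1.2)) := by
      intro l
      have e0 : ∀ n : ℕ, g ^ n * x₀ = x₀ * g' ^ n := by
        intro n
        rw [hg']
        have := conj_pow (a := x₀⁻¹) (b := g) (i := n)
        rw [inv_inv] at this
        rw [this]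
        group
      have e1 : (p ^ l).1.1 = (γ * g' * γ⁻¹) ^ l := by
        rw [hp]; simp
      have e2 : (p ^ l).1.2 = g' ^ l := by
        rw [hp]; simp
      rw [e1, e2]
      congr 1
      · have e3 : g ^ (l + r) * x = x₀ * c * (γ * g' * γ⁻¹) ^ l * (γ * γ₀) := by
          rw [hx, ← mul_assoc, e0, add_comm, pow_add, hcγ, conj_pow]
          group
        rw [e3]
        exact hF.1.2 _ _ (Γ.mul_mem hγ hγ₀)
      · rw [hx, ← mul_assoc, e0]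
        rw [hF.1.2 _ _ hγ₀]
    refine ⟨fun i => if i.1 = ν then fun l => Ψ i.1 i.2 (p ^ l * 1) else 0, ?_, fun l => ?_⟩
    · rintro ⟨ν', i⟩
      by_cases h3 : ν' = ν
      · left
        simp only [h3, if_true]
        subst h3
        exact Set.mem_iUnion.2 ⟨⟨ν', i⟩, p, 1, rfl⟩
      · right
        exact if_neg h3
    · have e1 : ∑ i : (Σ ν, ι ν), (if i.1 = ν then (fun l => Ψ i.1 i.2 (p ^ l * 1)) else 0 : ℕ → ℂ) l =
          ∑ i, Ψ ν i (p ^ l) := by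
        rw [Fintype.sum_sigma, sum_eq_single ν]
        · refine sum_congr rfl fun i _ => ?_
          simp only [if_true, mul_one]
        · intro ν' _ hν'
          refine sum_eq_zero fun i _ => ?_
          rw [if_neg hν']
          rfl
        · intro h3
          exact absurd (mem_univ ν) h3
      rw [e1]
      simp only
      rw [hterm]
      exact hν (p ^ l)

end Pool.Agent.Lib.MP_663568_nt.E
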