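import Pool.Agent.Lib.MP_663568_e.EDefs

/-!
Row W9: the functions orthogonal to all functions which are invariant under one term of the
filtration.
-/

set_option autoImplicit false
open Finset MeasureTheory

namespace Pool.Agent.Lib.MP_663568_nt.E

open Katai Tw Fib Nul T3

variable {G : Type} [Group G] [TopologicalSpace G] [IsTopologicalGroup G] {A : ℕ → Subgroup G}
  {Γ : Subgroup G}
  {β : ℕ → Type} [∀ s, Fintype (β s)] [∀ s, DecidableEq (β s)]
  {π : (s : ℕ) → G → β s → ℝ} {e : (s : ℕ) → β s → ℝ → G}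

/-- `F` is orthogonal to all continuous functions which are invariant under `N`. -/
def Ort [MeasurableSpace (G ⧸ Γ)] (m : Measure (G ⧸ Γ)) (N : Subgroup G) (F : G → ℂ) : Prop :=
  ∀ F' φ : G ⧸ Γ → ℂ, (∀ g : G, F' g = F g) → Continuous φ →
    (∀ z ∈ N, ∀ x : G ⧸ Γ, φ (z • x) = φ x) → ∫ x, F' x * (starRingEnd ℂ) (φ x) ∂m = 0

omit [IsTopologicalGroup G] in
private lemma w9_compact (hN : NS A Γ π e) : CompactSpace (G ⧸ Γ) := by
  obtain ⟨C, hC1, hC2⟩ := coc_prime hN
  refine ⟨?_⟩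
  have : (Set.univ : Set (G ⧸ Γ)) = (fun g : G => (g : G ⧸ Γ)) '' C := by
    ext x
    simp only [Set.mem_univ, true_iff]
    obtain ⟨g, rfl⟩ := QuotientGroup.mk_surjective x
    obtain ⟨c, hc, γ, hγ, e⟩ := hC2 g
    exact ⟨c, hc, (coe_eq_of_mul Γ _ _ _ hγ e).symm⟩
  rw [this]
  exact hC1.image QuotientGroup.continuous_mk

omit [IsTopologicalGroup G] in
private lemma w9_bdd (hN : NS A Γ π e) {φ : G ⧸ Γ → ℂ} (hφ : Continuous φ) :
    ∃ B : ℝ, ∀ x, ‖φ x‖ ≤ B := by
  have := w9_compact hN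
  have h1 : IsCompact (Set.range fun x => ‖φ x‖) := isCompact_range (by fun_prop)
  obtain ⟨B, hB⟩ := h1.bddAbove
  exact ⟨B, fun x => hB ⟨x, rfl⟩⟩

variable [MeasurableSpace (G ⧸ Γ)] [BorelSpace (G ⧸ Γ)] (m : Measure (G ⧸ Γ))
  [IsProbabilityMeasure m]

omit [IsTopologicalGroup G] in
private lemma w9_int (hN : NS A Γ π e) {φ : G ⧸ Γ → ℂ} (hφ : Continuous φ) :
    Integrable φ m := by
  obtain ⟨B, hB⟩ := w9_bdd hN hφ
  exact Integrable.of_bound hφ.aestronglyMeasurable B (Filter.Eventually.of_forall hB)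

theorem ort_mul (N : Subgroup G) (F : G → ℂ) (hF : Reg Γ F)
    (h : Ort m N F) (c : ℂ) : Ort m N fun x => c * F x := by
  intro F' φ hF' hφ hinv
  obtain ⟨F₁, _, hF₁⟩ := exists_descend hF
  have e1 : F' = fun x => c * F₁ x := by
    funext x
    obtain ⟨y, rfl⟩ := QuotientGroup.mk_surjective x
    rw [hF₁]
    exact hF' y
  rw [e1]
  have e2 : ∀ x, c * F₁ x * (starRingEnd ℂ) (φ x) = c * (F₁ x * (starRingEnd ℂ) (φ x)) :=
    fun x => mul_assoc _ _ _
  simp only [e2]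
  rw [integral_const_mul, h F₁ φ hF₁ hφ hinv, mul_zero]

theorem ort_sum (hN : NS A Γ π e) (N : Subgroup G) (ι : Type) (t : Finset ι)
    (F : ι → G → ℂ) (h : ∀ i ∈ t, Reg Γ (F i) ∧ Ort m N (F i)) :
    Ort m N fun x => ∑ i ∈ t, F i x := by
  intro F' φ hF' hφ hinv
  have hd : ∀ i, ∃ F₁ : G ⧸ Γ → ℂ, i ∈ t → Continuous F₁ ∧ ∀ x : G, F₁ (x : G ⧸ Γ) = F i x := by
    intro i
    by_cases hi : i ∈ t
    · obtain ⟨F₁, h1⟩ := exists_descend (h i hi).1
      exact ⟨F₁, fun _ => h1⟩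
    · exact ⟨0, fun h => absurd h hi⟩
  choose F₁ hF₁ using hd
  have e1 : F' = fun x => ∑ i ∈ t, F₁ i x := by
    funext x
    obtain ⟨y, rfl⟩ := QuotientGroup.mk_surjective x
    rw [hF' y]
    exact sum_congr rfl fun i hi => ((hF₁ i hi).2 y).symm
  rw [e1]
  have e2 : ∀ x, (∑ i ∈ t, F₁ i x) * (starRingEnd ℂ) (φ x)
      = ∑ i ∈ t, F₁ i x * (starRingEnd ℂ) (φ x) := fun x => sum_mul _ _ _
  simp only [e2]
  have hi : ∀ i ∈ t, Integrable (fun x => F₁ i x * (starRingEnd ℂ) (φ x)) m := fun i hi =>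
    w9_int m hN ((hF₁ i hi).1.mul (Complex.continuous_conj.comp hφ))
  rw [integral_finsetSum t hi]
  exact sum_eq_zero fun i hi => (h i hi).2 (F₁ i) φ (hF₁ i hi).2 hφ hinv

theorem ort_pop (hN : NS A Γ π e) (hm : ∀ g : G, m.map (fun x => g • x) = m)
    (N : Subgroup G) (hNn : N.Normal) (F : G → ℂ) (hF : Reg Γ F) (h : Ort m N F) (e' : ℝ → G)
    (he' : IsOneP e') (n : ℤ) : Ort m N (Pop e' n F) := by
  intro F' φ hF' hφc hinv
  obtain ⟨F₁, hF₁c, hF₁⟩ := exists_descend hF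
  have e1 : ∀ x, F' x * (starRingEnd ℂ) (φ x) =
      ∫ r in (0 : ℝ)..1, ee (-(n * r)) * F₁ (e' r • x) * (starRingEnd ℂ) (φ x) := by
    intro x
    rw [intervalIntegral.integral_mul_const]
    congr 1
    obtain ⟨y, rfl⟩ := QuotientGroup.mk_surjective x
    rw [hF' y]
    unfold Pop
    refine intervalIntegral.integral_congr fun r _ => ?_
    have : e' r • (y : G ⧸ Γ) = ((e' r * y : G) : G ⧸ Γ) := rfl
    rw [this, hF₁]
  simp only [e1]
  have hcont : Continuous fun p : ℝ × (G ⧸ Γ) =>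
      ee (-(n * p.1)) * F₁ (e' p.1 • p.2) * (starRingEnd ℂ) (φ p.2) := by
    have c1 : Continuous fun p : ℝ × (G ⧸ Γ) => ee (-(n * p.1)) := by
      unfold ee
      fun_prop
    have c2 : Continuous fun p : ℝ × (G ⧸ Γ) => e' p.1 • p.2 :=
      (he'.1.comp continuous_fst).smul continuous_snd
    exact (c1.mul (hF₁c.comp c2)).mul (Complex.continuous_conj.comp (hφc.comp continuous_snd))
  obtain ⟨B, hB⟩ := w9_bdd hN hF₁c
  obtain ⟨B', hB'⟩ := w9_bdd hN hφc
  have hfin : IsFiniteMeasure (volume.restrict (Set.uIoc (0 : ℝ) 1)) := by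
    rw [Set.uIoc_of_le zero_le_one]
    infer_instance
  have hint : Integrable (Function.uncurry fun (r : ℝ) (x : G ⧸ Γ) =>
      ee (-(n * r)) * F₁ (e' r • x) * (starRingEnd ℂ) (φ x))
      ((volume.restrict (Set.uIoc (0 : ℝ) 1)).prod m) := by
    refine Integrable.of_bound hcont.aestronglyMeasurable (B * B') (Filter.Eventually.of_forall ?_)
    rintro ⟨r, x⟩
    simp only [Function.uncurry_apply_pair, norm_mul, norm_ee, RCLike.norm_conj, one_mul]
    exact mul_le_mul (hB _) (hB' _) (norm_nonneg _) ((norm_nonneg _).trans (hB (e' r • x)))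
  rw [← intervalIntegral_integral_swap hint]
  have e2 : ∀ r : ℝ, ∫ x, ee (-(n * r)) * F₁ (e' r • x) * (starRingEnd ℂ) (φ x) ∂m = 0 := by
    intro r
    have e3 : ∫ x, F₁ (e' r • x) * (starRingEnd ℂ) (φ x) ∂m
        = ∫ y, F₁ y * (starRingEnd ℂ) (φ ((e' r)⁻¹ • y)) ∂m := by
      conv_rhs => rw [← hm (e' r)]
      rw [integral_map]
      · simp only [inv_smul_smul]
      · exact (continuous_const_smul (e' r)).measurable.aemeasurable
      · exact (hF₁c.mul (Complex.continuous_conj.comp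
          (hφc.comp (continuous_const_smul _)))).aestronglyMeasurable
    have e4 : ∀ x, ee (-(n * r)) * F₁ (e' r • x) * (starRingEnd ℂ) (φ x)
        = ee (-(n * r)) * (F₁ (e' r • x) * (starRingEnd ℂ) (φ x)) := fun x => mul_assoc _ _ _
    simp only [e4]
    rw [integral_const_mul, e3, h F₁ (fun y => φ ((e' r)⁻¹ • y)) hF₁
      (hφc.comp (continuous_const_smul _)) (by
        intro z hz x
        have h1 : (e' r)⁻¹ * z * (e' r) ∈ N := by
          have := hNn.conj_mem z hz (e' r)⁻¹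
          rwa [inv_inv] at this
        have h2 : (e' r)⁻¹ • z • x = ((e' r)⁻¹ * z * (e' r)) • (e' r)⁻¹ • x := by
          rw [smul_smul, smul_smul]
          congr 1
          group
        rw [h2, hinv _ h1]), mul_zero]
  simp only [e2]
  simp

/-- An invariant function in the class is zero. -/
theorem ort_zero (hN : NS A Γ π e) (hm : ∀ g : G, m.map (fun x => g • x) = m)
    (N : Subgroup G) (F : G → ℂ) (hF : Reg Γ F) (hinv : Inv N F) (h : Ort m N F) (x : G) :
    F x = 0 := by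
  obtain ⟨F', hF'c, hF'⟩ := exists_descend hF
  have h1 := h F' F' hF' hF'c (by
    intro z hz y
    obtain ⟨y, rfl⟩ := QuotientGroup.mk_surjective y
    have : z • (y : G ⧸ Γ) = ((z * y : G) : G ⧸ Γ) := rfl
    rw [this, hF', hF', hinv z hz])
  have e1 : ∀ y, F' y * (starRingEnd ℂ) (F' y) = ((‖F' y‖ ^ 2 : ℝ) : ℂ) := by
    intro y
    rw [RCLike.mul_conj]
    push_cast
    rfl
  simp only [e1] at h1
  rw [integral_complex_ofReal] at h1
  have h2 : ∫ y, ‖F' y‖ ^ 2 ∂m = 0 := by exact_mod_cast h1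
  have hint : Integrable (fun y => ‖F' y‖ ^ 2) m := by
    obtain ⟨B, hB⟩ := w9_bdd hN hF'c
    refine Integrable.of_bound ((hF'c.norm.pow 2).aestronglyMeasurable) (B ^ 2)
      (Filter.Eventually.of_forall fun y => ?_)
    rw [Real.norm_eq_abs, abs_of_nonneg (by positivity)]
    exact pow_le_pow_left₀ (norm_nonneg _) (hB y) 2
  rw [integral_eq_zero_iff_of_nonneg (fun y => by positivity) hint] at h2
  by_contra hx
  have hne : F' (x : G ⧸ Γ) ≠ 0 := by rw [hF']; exact hx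
  set U : Set (G ⧸ Γ) := {y | F' y ≠ 0} with hU
  have hUo : IsOpen U := isOpen_ne_fun hF'c continuous_const
  have hU0 : m U = 0 := by
    have h3 : {y | ¬ (fun y => ‖F' y‖ ^ 2) y = (0 : G ⧸ Γ → ℝ) y} = U := by
      ext y
      simp [hU]
    rw [← h3]
    exact h2
  -- the translates of `U` cover
  have := w9_compact hN
  have hcov : (Set.univ : Set (G ⧸ Γ)) ⊆ ⋃ g : G, (fun y => g • y) ⁻¹' U := by
    intro y _
    obtain ⟨y, rfl⟩ := QuotientGroup.mk_surjective y
    refine Set.mem_iUnion.2 ⟨x * y⁻¹, ?_⟩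
    change F' ((x * y⁻¹) • (y : G ⧸ Γ)) ≠ 0
    have h4 : (x * y⁻¹) • (y : G ⧸ Γ) = ((x * y⁻¹ * y : G) : G ⧸ Γ) := rfl
    rw [h4, inv_mul_cancel_right]
    exact hne
  obtain ⟨T, hT⟩ := isCompact_univ.elim_finite_subcover (fun g : G => (fun y => g • y) ⁻¹' U)
    (fun g => hUo.preimage (continuous_const_smul g)) hcov
  have h5 : ∀ g : G, m ((fun y => g • y) ⁻¹' U) = 0 := by
    intro g
    rw [← Measure.map_apply (continuous_const_smul g).measurable hUo.measurableSet, hm g, hU0]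
  have h6 : m (Set.univ : Set (G ⧸ Γ)) = 0 := by
    refine measure_mono_null hT ?_
    exact (measure_biUnion_null_iff T.countable_toSet).2 fun g _ => h5 g
  rw [measure_univ] at h6
  exact one_ne_zero h6

end Pool.Agent.Lib.MP_663568_nt.E
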