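import Pool.Agent.Lib.MP_663568_e.E09A
import Pool.Agent.Lib.MP_663568_tw.VDefs

/-!
Row V1: one van der Corput step with tame twists.
-/

set_option autoImplicit false
open Finset

namespace Pool.Agent.Lib.MP_663568_nt.E

open Katai Tw Fib Nul T3

variable {G : Type} [Group G] [TopologicalSpace G] [IsTopologicalGroup G] {A : ℕ → Subgroup G}
  {Γ : Subgroup G}
  {β : ℕ → Type} [∀ s, Fintype (β s)] [∀ s, DecidableEq (β s)]
  {π : (s : ℕ) → G → β s → ℝ} {e : (s : ℕ) → β s → ℝ → G}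

/-- One van der Corput step. -/
theorem step_locT (s : ℕ) (hs : 1 ≤ s) (d : ℕ) (T : Set (ℕ → ℂ)) (hT : Tame (d + 1) T)
    (B : ℝ) (hB : 0 < B) (hTB : ∀ t ∈ T, ∀ l, ‖t l‖ ≤ B) (hN : NS A Γ π e) (b : β 2 → β 1 → β 1 → ℤ) (hb : CF π b)
    (F : G → ℂ) (hF : LevN A Γ e (s + 1) F) (hG : GoodN e (s + 1) F) (hF1 : ∀ x, ‖F x‖ * B ≤ 1)
    (ε : ℝ) (hε : 0 < ε) (hε1 : ε ≤ 1) :
    ∃ (S : Set (ℕ → ℂ)) (I : Type) (_ : Fintype I) (Ψ : I → SqG A hN.anti hN.comm hN.A0 → ℂ)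
      (ε₁ : ℝ), Tame d S ∧ 0 < ε₁ ∧
      (∀ i, LevN (sqA A hN.anti hN.comm hN.A0) (sqΓ A hN.anti hN.comm hN.A0 Γ)
          (sqe A hN.anti hN.comm hN.A0 e) s (Ψ i) ∧
        GoodN (sqe A hN.anti hN.comm hN.A0 e) s (Ψ i) ∧
        ∀ j m, Freq (e (s + 1) j) m F →
          Freq (sqe A hN.anti hN.comm hN.A0 e s (Sum.inr j)) m (Ψ i)) ∧
      ∀ θ : β 1 → ℝ,
        Rare (ε ^ 2 / 64) (fun r => ¬ ∀ i, LocT S (sqπ A hN.anti hN.comm hN.A0 π 1) (Ψ i)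
          (ths b θ r : sqβ β 1 → ℝ) ε₁) → LocT T (π 1) F θ ε := by
  classical
  obtain ⟨X, hX, X₀, hX₀, hX₀X, hdec, htr⟩ := exists_trans hN
  -- the derivatives of the twists
  obtain ⟨S, hS, J, hJf, hder⟩ := hT.2 (B ^ 2 * (ε ^ 2 / 192)) (by positivity)
  obtain ⟨BS, hBS, hSB⟩ := hS.bdd
  set nJ : ℝ := (Fintype.card J : ℝ) + 1 with hnJ
  have hnJ0 : 0 < nJ := by positivity
  have hnJ1 : (Fintype.card J : ℝ) ≤ nJ := by rw [hnJ]; linarith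
  obtain ⟨N, hNf, ι, hιf, Ψ, hΨ, hnet⟩ := net_decomp_freq hN s hs F hF hG X hX
    (ε ^ 2 / (192 * (nJ * BS))) (by positivity)
  set cd : ℝ := 1 + ∑ ν : N, (Fintype.card (ι ν) : ℝ) with hcd
  have hcd0 : 0 < cd := by positivity
  set ε₁ : ℝ := ε ^ 2 / (192 * (cd * nJ)) with hε₁
  have hε₁0 : 0 < ε₁ := by positivity
  refine ⟨S, (Σ ν, ι ν), inferInstance, fun i => Ψ i.1 i.2, ε₁, hS, hε₁0,
    fun i => hΨ i.1 i.2, fun θ hθ => ?_⟩
  obtain ⟨R₀, hR₀⟩ := hθ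
  set R : ℕ := R₀ + ⌈32 / ε ^ 2⌉₊ + 1 with hR
  have hR1 : 1 ≤ R := by omega
  have hRr : 32 ≤ ε ^ 2 * R := by
    have h1 := Nat.le_ceil (32 / ε ^ 2)
    have h2 : (⌈32 / ε ^ 2⌉₊ : ℝ) ≤ R := by exact_mod_cast (by omega : ⌈32 / ε ^ 2⌉₊ ≤ R)
    have h3 := h1.trans h2
    rw [div_le_iff₀ (by positivity)] at h3
    linarith
  set θs : ℕ → β 1 ⊕ β 2 → ℝ := fun r => Sum.elim θ
        (fun k => ∑ j, ∑ i, (b k j i : ℝ) * (⌊(r : ℝ) * θ j⌋ : ℝ) * θ i) with hθs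
  set Gd : ℕ → Prop := fun r => ∀ i : (Σ ν, ι ν), LocT S (sqπ A hN.anti hN.comm hN.A0 π 1)
    (Ψ i.1 i.2) (ths b θ r : sqβ β 1 → ℝ) ε₁ with hGd
  set S' : Finset ℕ := (Icc 1 R).filter fun r : ℕ => ¬ Gd r with hS'
  have hScard : (S'.card : ℝ) ≤ ε ^ 2 / 64 * R := by
    refine le_trans (le_of_eq ?_) (hR₀ R (by omega))
    rw [hS']
    congr!
  -- the constants for the square
  have hρL : ∀ (r : ℕ) (ν : N) (i : ι ν), ∃ ρ : ℝ, 0 < ρ ∧ ∃ L₀ : ℕ, Gd r →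
      ∀ L : ℕ, L₀ ≤ L → ∀ g x : SqG A hN.anti hN.comm hN.A0,
        (∀ j, |sqπ A hN.anti hN.comm hN.A0 π 1 g j - θs r j| < ρ) →
        ∀ t ∈ S, ‖∑ l ∈ Icc 1 L, Ψ ν i (g ^ l * x) * t l‖ ≤ ε₁ * L := by
    intro r ν i
    by_cases hr : Gd r
    · obtain ⟨ρ, hρ, L₀, h⟩ := hr ⟨ν, i⟩
      exact ⟨ρ, hρ, L₀, fun _ => h⟩
    · exact ⟨1, one_pos, 0, fun h => absurd h hr⟩
  choose ρf hρf Lf hLf using hρL
  set D : ℝ := 1 + ∑ r ∈ Icc 1 R, ∑ k, ∑ j, ∑ i, |(b k j i : ℝ) * (⌊(r : ℝ) * θ j⌋ : ℝ)| with hD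
  have hD0 : 0 < D := by positivity
  have hDle : ∀ r ∈ Icc 1 R, ∀ k, ∑ j, ∑ i, |(b k j i : ℝ) * (⌊(r : ℝ) * θ j⌋ : ℝ)| ≤ D := by
    intro r hr k
    have h1 : ∑ j, ∑ i, |(b k j i : ℝ) * (⌊(r : ℝ) * θ j⌋ : ℝ)| ≤
        ∑ k, ∑ j, ∑ i, |(b k j i : ℝ) * (⌊(r : ℝ) * θ j⌋ : ℝ)| :=
      single_le_sum (f := fun k => ∑ j, ∑ i, |(b k j i : ℝ) * (⌊(r : ℝ) * θ j⌋ : ℝ)|)
        (fun _ _ => by positivity) (mem_univ k)
    have h2 : ∑ k, ∑ j, ∑ i, |(b k j i : ℝ) * (⌊(r : ℝ) * θ j⌋ : ℝ)| ≤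
        ∑ r ∈ Icc 1 R, ∑ k, ∑ j, ∑ i, |(b k j i : ℝ) * (⌊(r : ℝ) * θ j⌋ : ℝ)| :=
      single_le_sum (f := fun r : ℕ => ∑ k, ∑ j, ∑ i, |(b k j i : ℝ) * (⌊(r : ℝ) * θ j⌋ : ℝ)|)
        (fun _ _ => by positivity) hr
    linarith
  set E : ℝ := 1 + R + ∑ r ∈ Icc 1 R, ∑ ν, ∑ i, 1 / ρf r ν i with hE
  have hsum0 : ∀ r, 0 ≤ ∑ ν, ∑ i, 1 / ρf r ν i := fun r =>
    sum_nonneg fun ν _ => sum_nonneg fun i _ => (one_div_pos.2 (hρf r ν i)).le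
  have hE1 : 0 ≤ ∑ r ∈ Icc 1 R, ∑ ν, ∑ i, 1 / ρf r ν i := sum_nonneg fun r _ => hsum0 r
  have hE0 : 0 < E := by positivity
  have hEle : ∀ r ∈ Icc 1 R, ∀ ν i, 1 / E ≤ ρf r ν i := by
    intro r hr ν i
    have h1 : 1 / ρf r ν i ≤ ∑ i, 1 / ρf r ν i :=
      single_le_sum (f := fun i => 1 / ρf r ν i) (fun i _ => (one_div_pos.2 (hρf r ν i)).le)
        (mem_univ i)
    have h2 : ∑ i, 1 / ρf r ν i ≤ ∑ ν, ∑ i, 1 / ρf r ν i :=
      single_le_sum (f := fun ν => ∑ i, 1 / ρf r ν i) (fun ν _ =>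
        sum_nonneg fun i _ => (one_div_pos.2 (hρf r ν i)).le) (mem_univ ν)
    have h3 : ∑ ν, ∑ i, 1 / ρf r ν i ≤ ∑ r ∈ Icc 1 R, ∑ ν, ∑ i, 1 / ρf r ν i :=
      single_le_sum (f := fun r => ∑ ν, ∑ i, 1 / ρf r ν i) (fun r _ => hsum0 r) hr
    have h4 : 1 / ρf r ν i ≤ E := by
      rw [hE]
      have : (0 : ℝ) ≤ R := Nat.cast_nonneg _
      linarith
    exact (one_div_le hE0 (hρf r ν i)).2 h4
  have hER : (R : ℝ) ≤ E := by rw [hE]; linarith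
  set L₀ : ℕ := ⌈128 * (R : ℝ) / ε ^ 2⌉₊ + ∑ r ∈ Icc 1 R, ∑ ν, ∑ i, Lf r ν i with hL₀
  have hL₀le : ∀ r ∈ Icc 1 R, ∀ ν i, Lf r ν i ≤ L₀ := by
    intro r hr ν i
    have h1 : Lf r ν i ≤ ∑ i, Lf r ν i :=
      single_le_sum (f := fun i => Lf r ν i) (fun i _ => Nat.zero_le _) (mem_univ i)
    have h2 : ∑ i, Lf r ν i ≤ ∑ ν, ∑ i, Lf r ν i :=
      single_le_sum (f := fun ν => ∑ i, Lf r ν i) (fun ν _ => Nat.zero_le _) (mem_univ ν)
    have h3 : ∑ ν, ∑ i, Lf r ν i ≤ ∑ r ∈ Icc 1 R, ∑ ν, ∑ i, Lf r ν i :=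
      single_le_sum (f := fun r => ∑ ν, ∑ i, Lf r ν i) (fun r _ => Nat.zero_le _) hr
    omega
  refine ⟨1 / (E * D), by positivity, L₀, fun L hL g x hg t ht => ?_⟩
  have hLn : (0 : ℝ) ≤ L := Nat.cast_nonneg _
  have hD1 : 1 ≤ D := by
    rw [hD]
    have : (0 : ℝ) ≤ ∑ r ∈ Icc 1 R, ∑ k, ∑ j, ∑ i, |(b k j i : ℝ) * (⌊(r : ℝ) * θ j⌋ : ℝ)| := by
      positivity
    linarith
  have hρE : 1 / (E * D) ≤ 1 / E := by
    apply one_div_le_one_div_of_le hE0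
    exact le_mul_of_one_le_right hE0.le hD1
  refine vdc (fun l => F (g ^ l * x) * t l)
    (fun l => by
      rw [norm_mul]
      exact (mul_le_mul_of_nonneg_left (hTB t ht l) (norm_nonneg _)).trans (hF1 _))
    ε hε hε1 R L S' hRr ?_ ?_ ?_
  · have h1 := Nat.le_ceil (128 * (R : ℝ) / ε ^ 2)
    have h2 : (⌈128 * (R : ℝ) / ε ^ 2⌉₊ : ℝ) ≤ L := by
      exact_mod_cast (by omega : ⌈128 * (R : ℝ) / ε ^ 2⌉₊ ≤ L)
    have h3 := h1.trans h2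
    rw [div_le_iff₀ (by positivity)] at h3
    linarith
  · linarith
  -- one shift
  intro r hr hrS
  have hNR : Gd r := by
    by_contra h
    exact hrS (by rw [hS', mem_filter]; exact ⟨hr, h⟩)
  have hrR : (r : ℝ) ≤ R := by exact_mod_cast (mem_Icc.1 hr).2
  obtain ⟨x₀, hx₀, γ₀, hγ₀, hx⟩ := hdec x
  set g' : G := x₀⁻¹ * g * x₀ with hg'
  have hπg' : π 1 g' = π 1 g := pi_one_conj hN x₀ g
  set z : β 1 → ℤ := fun j => ⌊(r : ℝ) * θ j⌋ with hz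
  obtain ⟨c, γ, hγ, hcγ, hπγ, hyc⟩ := htr x₀ hx₀ (g' ^ r) z (by
    intro j
    rw [pi_pow hN, hπg']
    have h1 : |(r : ℝ) * π 1 g j - r * θ j| ≤ 1 := by
      rw [← mul_sub, abs_mul, abs_of_nonneg (Nat.cast_nonneg r)]
      calc (r : ℝ) * |π 1 g j - θ j| ≤ R * (1 / E) := by
            apply mul_le_mul hrR ((hg j).le.trans hρE) (abs_nonneg _) (Nat.cast_nonneg _)
        _ ≤ 1 := by
            rw [mul_one_div, div_le_one hE0]; exact hER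
    have h2 : |(r : ℝ) * θ j - z j| ≤ 1 := by
      rw [hz, abs_le]
      have h3 := Int.floor_le ((r : ℝ) * θ j)
      have h4 := Int.lt_floor_add_one ((r : ℝ) * θ j)
      constructor <;> linarith
    calc |(r : ℝ) * π 1 g j - z j| = |((r : ℝ) * π 1 g j - r * θ j) + (r * θ j - z j)| := by
          congr 1; ring
      _ ≤ 1 + 1 := (abs_add_le _ _).trans (add_le_add h1 h2)
      _ = 2 := by norm_num)
  obtain ⟨ν, hν⟩ := hnet (x₀ * c) hyc x₀ (hX₀X hx₀)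
  -- the element of the square
  have hmem : ((γ * g' * γ⁻¹, g') : G × G) ∈ sq A hN.anti hN.comm hN.A0 1 := by
    rw [mem_sq A hN.anti hN.comm hN.A0 hN.A1]
    refine ⟨by rw [hN.A1]; trivial, by rw [hN.A1]; trivial, ?_⟩
    have := hN.comm 1 1 (Subgroup.commutator_mem_commutator (g₁ := γ) (g₂ := g')
      (by rw [hN.A1]; trivial) (by rw [hN.A1]; trivial))
    simpa [commutatorElement_def] using this
  set p : SqG A hN.anti hN.comm hN.A0 := ⟨(γ * g' * γ⁻¹, g'), hmem⟩ with hp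
  have hclose : ∀ j, |sqπ A hN.anti hN.comm hN.A0 π 1 p j - θs r j| < 1 / E := by
    rintro (j | k)
    · change |π 1 g' j - θ j| < 1 / E
      rw [hπg']
      exact (hg j).trans_le hρE
    · change |π 2 (γ * g' * γ⁻¹ * g'⁻¹) k -
        ∑ j, ∑ i, (b k j i : ℝ) * (⌊(r : ℝ) * θ j⌋ : ℝ) * θ i| < 1 / E
      rw [hb, hπγ, hπg', ← sum_sub_distrib]
      have h1 : ∀ j, (∑ i, (b k j i : ℝ) * (z j : ℝ) * π 1 g i) -
          ∑ i, (b k j i : ℝ) * (⌊(r : ℝ) * θ j⌋ : ℝ) * θ i =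
          ∑ i, ((b k j i : ℝ) * (⌊(r : ℝ) * θ j⌋ : ℝ)) * (π 1 g i - θ i) := by
        intro j
        rw [← sum_sub_distrib]
        exact sum_congr rfl fun i _ => by rw [hz]; ring
      simp only [h1]
      have h2 : |∑ j, ∑ i, ((b k j i : ℝ) * (⌊(r : ℝ) * θ j⌋ : ℝ)) * (π 1 g i - θ i)| ≤
          ∑ j, ∑ i, |(b k j i : ℝ) * (⌊(r : ℝ) * θ j⌋ : ℝ)| * |π 1 g i - θ i| := by
        refine (abs_sum_le_sum_abs _ _).trans (sum_le_sum fun j _ => ?_)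
        refine (abs_sum_le_sum_abs _ _).trans (sum_le_sum fun i _ => ?_)
        rw [abs_mul]
      by_cases hne : Nonempty (β 1)
      · -- the largest difference
        obtain ⟨i₀, hi₀⟩ := Finite.exists_max (fun i : β 1 => |π 1 g i - θ i|)
        have h3 : ∑ j, ∑ i, |(b k j i : ℝ) * (⌊(r : ℝ) * θ j⌋ : ℝ)| * |π 1 g i - θ i| ≤
            D * |π 1 g i₀ - θ i₀| := by
          calc _ ≤ ∑ j, ∑ i, |(b k j i : ℝ) * (⌊(r : ℝ) * θ j⌋ : ℝ)| * |π 1 g i₀ - θ i₀| :=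
                sum_le_sum fun j _ => sum_le_sum fun i _ =>
                  mul_le_mul_of_nonneg_left (hi₀ i) (abs_nonneg _)
            _ = (∑ j, ∑ i, |(b k j i : ℝ) * (⌊(r : ℝ) * θ j⌋ : ℝ)|) * |π 1 g i₀ - θ i₀| := by
                simp only [sum_mul]
            _ ≤ _ := mul_le_mul_of_nonneg_right (hDle r hr k) (abs_nonneg _)
        have h4 : D * |π 1 g i₀ - θ i₀| < D * (1 / (E * D)) :=
          mul_lt_mul_of_pos_left (hg i₀) hD0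
        have h5 : D * (1 / (E * D)) = 1 / E := by field_simp
        linarith
      · have hem : IsEmpty (β 1) := not_nonempty_iff.1 hne
        rw [Finset.univ_eq_empty, sum_empty, abs_zero]
        positivity
  -- the terms
  have hterm : ∀ l, F (g ^ (l + r) * x) * (starRingEnd ℂ) (F (g ^ l * x)) =
      F (x₀ * c * (p ^ l).1.1) * (starRingEnd ℂ) (F (x₀ * (p ^ l).1.2)) := by
    intro l
    have e0 : ∀ n : ℕ, g ^ n * x₀ = x₀ * g' ^ n := by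
      intro n
      rw [hg']
      have := conj_pow (a := x₀⁻¹) (b := g) (i := n)
      rw [inv_inv] at this
      rw [this]
      group
    have e1 : (p ^ l).1.1 = (γ * g' * γ⁻¹) ^ l := by
      rw [hp]; simp
    have e2 : (p ^ l).1.2 = g' ^ l := by
      rw [hp]; simp
    rw [e1, e2]
    congr 1
    · have e3 : g ^ (l + r) * x = x₀ * c * (γ * g' * γ⁻¹) ^ l * (γ * γ₀) := by
        rw [hx, ← mul_assoc, e0, add_comm, pow_add, hcγ, conj_pow]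
        group
      rw [e3]
      exact hF.1.2 _ _ (Γ.mul_mem hγ hγ₀)
    · rw [hx, ← mul_assoc, e0]
      rw [hF.1.2 _ _ hγ₀]
  obtain ⟨cc, hcc, hcl⟩ := hder r t ht
  have hcb : ∀ j l, ‖cc j l‖ ≤ BS := by
    intro j l
    rcases hcc j with h1 | h1
    · exact hSB _ h1 l
    · rw [h1, Pi.zero_apply, norm_zero]
      exact hBS.le
  have hsb : ∀ l, ‖∑ j, cc j l‖ ≤ nJ * BS := by
    intro l
    refine (norm_sum_le _ _).trans ?_
    calc ∑ j, ‖cc j l‖ ≤ ∑ _j : J, BS := sum_le_sum fun j _ => hcb j l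
      _ = (Fintype.card J : ℝ) * BS := by simp
      _ ≤ nJ * BS := mul_le_mul_of_nonneg_right hnJ1 hBS.le
  -- the main part
  have hsum1 : ‖∑ l ∈ Icc 1 L, (∑ i, Ψ ν i (p ^ l)) * ∑ j, cc j l‖ ≤ ε ^ 2 / 192 * L := by
    have e1 : ∑ l ∈ Icc 1 L, (∑ i, Ψ ν i (p ^ l)) * ∑ j, cc j l =
        ∑ i, ∑ j, ∑ l ∈ Icc 1 L, Ψ ν i (p ^ l) * cc j l := by
      simp only [sum_mul_sum]
      rw [sum_comm]
      exact sum_congr rfl fun i _ => sum_comm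
    rw [e1]
    have h1 : ∀ i j, ‖∑ l ∈ Icc 1 L, Ψ ν i (p ^ l) * cc j l‖ ≤ ε₁ * L := by
      intro i j
      rcases hcc j with h1 | h1
      · have h2 := hLf r ν i hNR L ((hL₀le r hr ν i).trans hL) p 1
          (fun j => (hclose j).trans_le (hEle r hr ν i)) _ h1
        simpa only [mul_one] using h2
      · rw [h1]
        simp only [Pi.zero_apply, mul_zero, sum_const_zero, norm_zero]
        positivity
    calc _ ≤ ∑ i, ‖∑ j, ∑ l ∈ Icc 1 L, Ψ ν i (p ^ l) * cc j l‖ := norm_sum_le _ _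
      _ ≤ ∑ _i : ι ν, nJ * (ε₁ * L) := by
          refine sum_le_sum fun i _ => (norm_sum_le _ _).trans ?_
          calc _ ≤ ∑ _j : J, ε₁ * (L : ℝ) := sum_le_sum fun j _ => h1 i j
            _ = (Fintype.card J : ℝ) * (ε₁ * L) := by simp
            _ ≤ nJ * (ε₁ * L) := mul_le_mul_of_nonneg_right hnJ1 (by positivity)
      _ = (Fintype.card (ι ν) : ℝ) * (nJ * (ε₁ * L)) := by simp
      _ ≤ cd * (nJ * (ε₁ * L)) := by
          refine mul_le_mul_of_nonneg_right ?_ (by positivity)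
          have : (Fintype.card (ι ν) : ℝ) ≤ ∑ ν : N, (Fintype.card (ι ν) : ℝ) :=
            single_le_sum (f := fun ν => (Fintype.card (ι ν) : ℝ)) (fun _ _ => Nat.cast_nonneg _)
              (mem_univ ν)
          rw [hcd]; linarith
      _ = _ := by rw [hε₁]; field_simp
  have hsum2 : ‖∑ l ∈ Icc 1 L, (F (x₀ * c * (p ^ l).1.1) * (starRingEnd ℂ)
      (F (x₀ * (p ^ l).1.2)) - ∑ i, Ψ ν i (p ^ l)) * ∑ j, cc j l‖ ≤ ε ^ 2 / 192 * L := by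
    calc _ ≤ ∑ l ∈ Icc 1 L, ε ^ 2 / 192 :=
          (norm_sum_le _ _).trans (sum_le_sum fun l _ => by
            rw [norm_mul]
            calc _ ≤ ε ^ 2 / (192 * (nJ * BS)) * (nJ * BS) :=
                  mul_le_mul (hν (p ^ l)) (hsb l) (norm_nonneg _) (by positivity)
              _ = ε ^ 2 / 192 := by field_simp)
      _ = _ := by simp; ring
  have hsum3 : ‖∑ l ∈ Icc 1 L, (F (g ^ (l + r) * x) * (starRingEnd ℂ) (F (g ^ l * x))) *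
      (t (l + r) * (starRingEnd ℂ) (t l) - ∑ j, cc j l)‖ ≤ ε ^ 2 / 192 * L := by
    calc _ ≤ ∑ l ∈ Icc 1 L, ε ^ 2 / 192 :=
          (norm_sum_le _ _).trans (sum_le_sum fun l _ => by
            rw [norm_mul, norm_mul, RCLike.norm_conj]
            have h1 := hF1 (g ^ (l + r) * x)
            have h2 := hF1 (g ^ l * x)
            have h3 : ‖F (g ^ (l + r) * x)‖ * ‖F (g ^ l * x)‖ * B ^ 2 ≤ 1 := by
              calc _ = (‖F (g ^ (l + r) * x)‖ * B) * (‖F (g ^ l * x)‖ * B) := by ring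
                _ ≤ 1 * 1 := mul_le_mul h1 h2 (by positivity) zero_le_one
                _ = 1 := one_mul 1
            calc _ ≤ ‖F (g ^ (l + r) * x)‖ * ‖F (g ^ l * x)‖ * (B ^ 2 * (ε ^ 2 / 192)) :=
                  mul_le_mul_of_nonneg_left (hcl l) (by positivity)
              _ = (‖F (g ^ (l + r) * x)‖ * ‖F (g ^ l * x)‖ * B ^ 2) * (ε ^ 2 / 192) := by ring
              _ ≤ 1 * (ε ^ 2 / 192) := mul_le_mul_of_nonneg_right h3 (by positivity)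
              _ = _ := one_mul _)
      _ = _ := by simp; ring
  have hgoal : ∑ l ∈ Icc 1 L, (F (g ^ (l + r) * x) * t (l + r)) * (starRingEnd ℂ)
      (F (g ^ l * x) * t l) =
      ∑ l ∈ Icc 1 L, (F (g ^ (l + r) * x) * (starRingEnd ℂ) (F (g ^ l * x))) *
      (t (l + r) * (starRingEnd ℂ) (t l) - ∑ j, cc j l) +
      (∑ l ∈ Icc 1 L, (F (x₀ * c * (p ^ l).1.1) * (starRingEnd ℂ)
      (F (x₀ * (p ^ l).1.2)) - ∑ i, Ψ ν i (p ^ l)) * ∑ j, cc j l +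
      ∑ l ∈ Icc 1 L, (∑ i, Ψ ν i (p ^ l)) * ∑ j, cc j l) := by
    rw [← sum_add_distrib, ← sum_add_distrib]
    refine sum_congr rfl fun l _ => ?_
    rw [← hterm, map_mul]
    ring
  change ‖∑ l ∈ Icc 1 L, (F (g ^ (l + r) * x) * t (l + r)) * (starRingEnd ℂ)
      (F (g ^ l * x) * t l)‖ ≤ ε ^ 2 / 64 * L
  rw [hgoal]
  calc _ ≤ ε ^ 2 / 192 * L + (ε ^ 2 / 192 * L + ε ^ 2 / 192 * L) :=
        (norm_add_le _ _).trans (add_le_add hsum3 ((norm_add_le _ _).trans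
          (add_le_add hsum2 hsum1)))
    _ = _ := by ring

end Pool.Agent.Lib.MP_663568_nt.E
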