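import Pool.Agent.Lib.MP_663568_e.E11
import Pool.Agent.Lib.MP_663568_tw.V01

/-!
Row V2: the induction on the level, with tame twists.
-/

set_option autoImplicit false
open Finset

namespace Pool.Agent.Lib.MP_663568_nt.E

open Katai Tw Fib Nul T3

section

variable {G : Type} [Group G] [TopologicalSpace G] [IsTopologicalGroup G] {A : ℕ → Subgroup G}
  {Γ : Subgroup G}
  {β : ℕ → Type} [∀ s, Fintype (β s)] [∀ s, DecidableEq (β s)]
  {π : (s : ℕ) → G → β s → ℝ} {e : (s : ℕ) → β s → ℝ → G}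

/-- The reduction to functions bounded by one. -/
theorem egt_reduce (hN : NS A Γ π e) (s : ℕ) (T : Set (ℕ → ℂ)) (b : β 2 → β 1 → β 1 → ℤ)
    (B : ℝ) (hB : 0 < B)
    (H : ∀ F : G → ℂ, LevN A Γ e s F → GoodN e s F → (∀ x, ‖F x‖ * B ≤ 1) →
      ∀ ε : ℝ, 0 < ε → ε ≤ 1 →
      ∃ (K : ℕ) (δ : ℝ), 0 < δ ∧ ∀ θ : β 1 → ℝ, TT π e s K θ → GGd b K δ θ →
        LocT T (π 1) F θ ε)
    (F : G → ℂ) (hF : LevN A Γ e s F) (hG : GoodN e s F) (ε : ℝ) (hε : 0 < ε) :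
    ∃ (K : ℕ) (δ : ℝ), 0 < δ ∧ ∀ θ : β 1 → ℝ, TT π e s K θ → GGd b K δ θ →
      LocT T (π 1) F θ ε := by
  have hCo : Cocompact' Γ := by
    obtain ⟨C, hC1, _, hC3⟩ := hN.coc 0
    exact ⟨C, hC1, fun x => hC3 x (by rw [hN.A0]; trivial)⟩
  obtain ⟨B₁, hB₁0, hB₁⟩ := reg_bdd hCo hF.1
  have hBB : 0 < B₁ * B := by positivity
  set F' : G → ℂ := fun x => ((B₁ * B : ℝ) : ℂ)⁻¹ * F x with hF'
  have hF'L : LevN A Γ e s F' := by
    refine ⟨reg_const_mul hF.1 _, fun z hz x => ?_, fun j => ?_⟩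
    · simp only [hF']; rw [hF.2.1 z hz x]
    · obtain ⟨m, hm⟩ := hF.2.2 j
      exact ⟨m, hm.mul_const _⟩
  have hF'1 : ∀ x, ‖F' x‖ * B ≤ 1 := by
    intro x
    simp only [hF']
    rw [norm_mul, norm_inv, Complex.norm_real, Real.norm_eq_abs, abs_of_pos hBB]
    have h1 : (B₁ * B)⁻¹ * ‖F x‖ * B = B₁⁻¹ * ‖F x‖ := by field_simp
    rw [h1, inv_mul_le_iff₀ hB₁0, mul_one]
    exact hB₁ x
  have hF'G : GoodN e s F' := by
    obtain ⟨j, m, hm, h⟩ := hG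
    exact ⟨j, m, hm, h.mul_const _⟩
  obtain ⟨K, δ, hδ, hK⟩ := H F' hF'L hF'G hF'1 (min 1 (ε / (B₁ * B)))
    (lt_min one_pos (by positivity)) (min_le_left _ _)
  refine ⟨K, δ, hδ, fun θ hT hGG => ?_⟩
  obtain ⟨ρ, hρ, L₀, h⟩ := hK θ hT hGG
  refine ⟨ρ, hρ, L₀, fun L hL g x hg t ht => ?_⟩
  have h1 := h L hL g x hg t ht
  have hLn : (0 : ℝ) ≤ L := Nat.cast_nonneg _
  have e1 : ∑ l ∈ Icc 1 L, F (g ^ l * x) * t l =
      ((B₁ * B : ℝ) : ℂ) * ∑ l ∈ Icc 1 L, F' (g ^ l * x) * t l := by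
    rw [mul_sum]
    refine sum_congr rfl fun l _ => ?_
    simp only [hF']
    have : ((B₁ * B : ℝ) : ℂ) ≠ 0 := by exact_mod_cast hBB.ne'
    rw [← mul_assoc, ← mul_assoc, mul_inv_cancel₀ this, one_mul]
  rw [e1, norm_mul, Complex.norm_real, Real.norm_eq_abs, abs_of_pos hBB]
  calc B₁ * B * ‖∑ l ∈ Icc 1 L, F' (g ^ l * x) * t l‖ ≤ B₁ * B * (min 1 (ε / (B₁ * B)) * L) :=
        mul_le_mul_of_nonneg_left h1 hBB.le
    _ ≤ B₁ * B * (ε / (B₁ * B) * L) := by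
        refine mul_le_mul_of_nonneg_left ?_ hBB.le
        exact mul_le_mul_of_nonneg_right (min_le_right _ _) hLn
    _ = ε * L := by field_simp

end

/-- constant twists -/
lemma Loc.locT {G : Type} [Group G] {β₁ : Type} {p : G → β₁ → ℝ} {F : G → ℂ} {θ : β₁ → ℝ}
    {ε B : ℝ} {S : Set (ℕ → ℂ)} (hS : Tame 0 S) (hB : 0 < B) (hSB : ∀ t ∈ S, ∀ l, ‖t l‖ ≤ B)
    (h : Loc p F θ (ε / B)) : LocT S p F θ ε := by
  obtain ⟨ρ, hρ, L₀, h⟩ := h
  refine ⟨ρ, hρ, L₀, fun L hL g x hg t ht => ?_⟩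
  have e1 : ∑ l ∈ Icc 1 L, F (g ^ l * x) * t l = (∑ l ∈ Icc 1 L, F (g ^ l * x)) * t 0 := by
    rw [sum_mul]
    exact sum_congr rfl fun l _ => by rw [hS.2 t ht l]
  rw [e1, norm_mul]
  have h1 := h L hL g x hg
  calc _ ≤ ε / B * L * B := mul_le_mul h1 (hSB t ht 0) (norm_nonneg _) ((norm_nonneg _).trans h1)
    _ = ε * L := by field_simp

/-- Functions of level two. -/
theorem egt_two : EGT 0 := by
  intro G _ _ _ A Γ β _ _ π e hN b hb T hT F hF hG ε hε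
  obtain ⟨B, hB, hTB⟩ := hT.bdd
  refine egt_reduce hN 2 T b B hB ?_ F hF hG ε hε
  clear hε ε hG hF F
  intro F hF hG hF1 ε hε hε1
  classical
  obtain ⟨m, hm0, hm⟩ := exists_freq hF hG
  obtain ⟨S, I, hI, Ψ, ε₁, hS, hε₁, hΨ, hstep⟩ := step_locT 1 le_rfl 0 T hT B hB hTB hN b hb F
    hF hG hF1 ε hε hε1
  obtain ⟨BS, hBS, hSB⟩ := hS.bdd
  -- the frequencies of the pieces
  have hfr : ∀ i, ∃ m' : sqβ β 1 → ℤ, (∀ j, m' (Sum.inr j) = m j) ∧
      ∀ p, Freq (sqe A hN.anti hN.comm hN.A0 e 1 p) (m' p) (Ψ i) := by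
    intro i
    choose m₁ hm₁ using (hΨ i).1.2.2
    refine ⟨Sum.elim (fun j => m₁ (Sum.inl j)) m, fun j => rfl, ?_⟩
    rintro (j | j)
    · exact hm₁ (Sum.inl j)
    · exact (hΨ i).2.2 j (m j) (hm j)
  choose m' hm'1 hm'2 using hfr
  set K : ℕ := ∑ j, (m j).natAbs with hK
  have hmK : ∀ j, |m j| ≤ (K : ℤ) := by
    intro j
    rw [Int.abs_eq_natAbs]
    exact_mod_cast Finset.single_le_sum (f := fun j => (m j).natAbs) (fun _ _ => Nat.zero_le _)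
      (mem_univ j)
  have hcard : (0 : ℝ) < Fintype.card I + 1 := by positivity
  refine ⟨K, ε ^ 2 / 64 / (Fintype.card I + 1), by positivity, fun θ _ hGG => hstep θ ?_⟩
  have h1 : ∀ i ∈ (univ : Finset I), Rare (ε ^ 2 / 64 / (Fintype.card I + 1)) fun r =>
      ∃ z : ℤ, (∑ j, (m' i (Sum.inl j) : ℝ) * θ j) + Psi (Mw b m) θ r = z :=
    fun i _ => hGG m hm0 hmK _
  have h2 := Rare.bunion (univ : Finset I) h1
  refine h2.mono ?_ ?_
  · rw [sum_const, card_univ, nsmul_eq_mul]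
    have : (Fintype.card I : ℝ) * (ε ^ 2 / 64 / (Fintype.card I + 1)) =
        ε ^ 2 / 64 * (Fintype.card I / (Fintype.card I + 1)) := by ring
    rw [this]
    apply mul_le_of_le_one_right (by positivity)
    rw [div_le_one hcard]
    linarith
  · intro r _ hr
    by_contra hcon
    apply hr
    intro i
    refine Loc.locT hS hBS hSB
      (loc_one (ns_sq hN) (Ψ i) (hΨ i).1 (m' i) (hm'2 i) _ ?_ (ε₁ / BS) (by positivity))
    intro z hz
    apply hcon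
    refine ⟨i, mem_univ _, z, ?_⟩
    rw [← hz]
    have e1 : ∑ p : sqβ β 1, (m' i p : ℝ) * (ths b θ r : sqβ β 1 → ℝ) p =
        (∑ j : β 1, (m' i (Sum.inl j) : ℝ) * θ j) +
          ∑ k : β 2, (m' i (Sum.inr k) : ℝ) * Psi (b k) θ r :=
      Fintype.sum_sum_type _
    rw [e1]
    congr 1
    simp only [hm'1]
    exact psi_mw b m θ r

/-- The induction step. -/
theorem egt_step (k : ℕ) (ih : EGT k) : EGT (k + 1) := by
  intro G _ _ _ A Γ β _ _ π e hN b hb T hT F hF hG ε hε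
  obtain ⟨B, hB, hTB⟩ := hT.bdd
  refine egt_reduce hN (k + 1 + 2) T b B hB ?_ F hF hG ε hε
  clear hε ε hG hF F
  intro F hF hG hF1 ε hε hε1
  classical
  obtain ⟨S, I, hI, Ψ, ε₁, hS, hε₁, hΨ, hstep⟩ := step_locT (k + 2) (by omega) (k + 1) T hT B hB
    hTB hN b hb F hF hG hF1 ε hε hε1
  have hSq := ns_sq hN
  obtain ⟨b', hb', _⟩ := comm_form hSq
  choose Ki δi hδi hmain using fun i => ih (SqG A hN.anti hN.comm hN.A0)
    (sqA A hN.anti hN.comm hN.A0) (sqΓ A hN.anti hN.comm hN.A0 Γ) (sqβ β)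
    (sqπ A hN.anti hN.comm hN.A0 π) (sqe A hN.anti hN.comm hN.A0 e) hSq b' hb' S hS (Ψ i)
    (hΨ i).1 (hΨ i).2.1 ε₁ hε₁
  set K₁ : ℕ := ∑ i, Ki i with hK₁
  have hKle : ∀ i, Ki i ≤ K₁ := fun i =>
    single_le_sum (f := fun i => Ki i) (fun _ _ => Nat.zero_le _) (mem_univ i)
  set δ₁ : ℝ := 1 / (1 + ∑ i, 1 / δi i) with hδ₁
  have hsum0 : 0 ≤ ∑ i, 1 / δi i := sum_nonneg fun i _ => (one_div_pos.2 (hδi i)).le
  have hδ₁0 : 0 < δ₁ := by positivity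
  have hδle : ∀ i, δ₁ ≤ δi i := by
    intro i
    have h1 : 1 / δi i ≤ ∑ i, 1 / δi i :=
      single_le_sum (f := fun i => 1 / δi i) (fun i _ => (one_div_pos.2 (hδi i)).le) (mem_univ i)
    rw [hδ₁, one_div_le (by positivity) (hδi i)]
    linarith
  obtain ⟨f1, f2, f3, f4, f5⟩ := sq_form hN b hb b' hb'
  obtain ⟨K, δ, hδ, hK⟩ := gg_sq_num (β₁ := β 1) (β₂ := β 2) (β₃ := β 3) b b' f1 f2 f3 f4 K₁ δ₁
    hδ₁0 (ε ^ 2 / 64) (by positivity)
  refine ⟨max K K₁, δ, hδ, fun θ hT hGG => hstep θ ?_⟩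
  have h1 := hK θ (by
    intro w hw hwK
    obtain ⟨j, hj⟩ := hT 2 le_rfl (by omega) w hw fun k => (hwK k).trans (by
      exact_mod_cast le_max_left K K₁)
    refine ⟨j, fun m hm1 hm2 z => ?_⟩
    have h2 := hj m hm1 (hm2.trans (le_max_left _ _)) z
    intro h3
    apply h2
    rw [← h3]
    congr 1
    refine sum_congr rfl fun i _ => ?_
    congr 1
    refine sum_congr rfl fun k _ => ?_
    rw [f5]) (hGG.mono (le_max_left _ _) le_rfl)
  refine h1.mono le_rfl ?_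
  intro r _ hr hGd
  apply hr
  intro i
  refine hmain i _ ?_ (hGd.mono (hKle i) (hδle i))
  exact tt_sq hN (k + 2) (Ki i) θ (hT.mono ((hKle i).trans (le_max_right _ _))) _

theorem egt_all (k : ℕ) : EGT k := by
  induction k with
  | zero => exact egt_two
  | succ k ih => exact egt_step k ih

end Pool.Agent.Lib.MP_663568_nt.E
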