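import Pool.Agent.Lib.MP_663568_e.EDefs

/-!
# Polynomial twists: definitions
-/

set_option autoImplicit false
open Finset MeasureTheory

namespace Pool.Agent.Lib.MP_663568_nt.E

open Katai Tw Fib Nul T3

/-- polynomial sequences of degree at most `d` -/
def PP : ℕ → (ℕ → ℝ) → Prop
  | 0, q => ∀ l, q l = q 0
  | d + 1, q => ∀ r : ℕ, PP d fun l => q (l + r) - q l

lemma PP.zero_of {q : ℕ → ℝ} (h : ∀ l, q l = q 0) : PP 0 q := h

lemma PP.const (d : ℕ) (c : ℝ) : PP d fun _ => c := by
  induction d generalizing c with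
  | zero => intro l; rfl
  | succ d ih =>
    intro r
    simp only [sub_self]
    exact ih 0

lemma PP.add {d : ℕ} {q q' : ℕ → ℝ} (h : PP d q) (h' : PP d q') : PP d fun l => q l + q' l := by
  induction d generalizing q q' with
  | zero => intro l; simp only; rw [h l, h' l]
  | succ d ih =>
    intro r
    have := ih (h r) (h' r)
    convert this using 2
    ring

lemma PP.neg {d : ℕ} {q : ℕ → ℝ} (h : PP d q) : PP d fun l => - q l := by
  induction d generalizing q with
  | zero => intro l; simp only; rw [h l]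
  | succ d ih =>
    intro r
    have := ih (h r)
    convert this using 2
    ring

lemma PP.sub {d : ℕ} {q q' : ℕ → ℝ} (h : PP d q) (h' : PP d q') : PP d fun l => q l - q' l := by
  have := h.add h'.neg
  have e : (fun l => q l - q' l) = fun l => q l + - q' l := by
    funext l
    ring
  rw [e]
  exact this

lemma PP.const_mul {d : ℕ} {q : ℕ → ℝ} (h : PP d q) (c : ℝ) : PP d fun l => c * q l := by
  induction d generalizing q with
  | zero => intro l; simp only; rw [h l]
  | succ d ih =>
    intro r
    have := ih (h r)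
    convert this using 2
    ring

/-- affine changes of the variable -/
lemma PP.dil {d : ℕ} {q : ℕ → ℝ} (h : PP d q) (p j : ℕ) : PP d fun l => q (p * (j + l)) := by
  induction d generalizing q with
  | zero =>
    intro l
    change q (p * (j + l)) = q (p * (j + 0))
    rw [h, h (p * (j + 0))]
  | succ d ih =>
    intro r
    have := ih (h (p * r))
    have e : (fun l => q (p * (j + (l + r))) - q (p * (j + l))) =
        fun l => q (p * (j + l) + p * r) - q (p * (j + l)) := by
      funext l
      rw [show p * (j + (l + r)) = p * (j + l) + p * r by ring]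
    rw [e]
    exact this

lemma PP.succ {d : ℕ} {q : ℕ → ℝ} (h : PP d q) : PP (d + 1) q := by
  induction d generalizing q with
  | zero =>
    intro r l
    change q (l + r) - q l = q (0 + r) - q 0
    rw [h, h l, h (0 + r)]
  | succ d ih => exact fun r => ih (h r)

lemma PP.mono {d d' : ℕ} {q : ℕ → ℝ} (h : PP d q) (hd : d ≤ d') : PP d' q := by
  induction d', hd using Nat.le_induction with
  | base => exact h
  | succ d' _ ih => exact ih.succ

lemma PP.shift {d : ℕ} {q : ℕ → ℝ} (h : PP d q) (r : ℕ) : PP d fun l => q (l + r) := by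
  have := h.dil 1 r
  convert this using 3
  ring

lemma PP.pow (d : ℕ) : PP d fun l => (l : ℝ) ^ d := by
  induction d using Nat.strong_induction_on with
  | _ d ih =>
    cases d with
    | zero => intro l; simp
    | succ d =>
      intro r
      -- the difference is a combination of lower powers
      have key : ∀ n : ℕ, n ≤ d → PP d fun l : ℕ => (l : ℝ) ^ n := fun n hn =>
        (ih n (by omega)).mono hn
      have hsum : ∀ s : Finset ℕ, (∀ n ∈ s, n ≤ d) → ∀ c : ℕ → ℝ,
          PP d fun l : ℕ => ∑ n ∈ s, c n * (l : ℝ) ^ n := by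
        intro s
        induction s using Finset.induction_on with
        | empty => intro _ c; simpa using PP.const d 0
        | insert a s ha ihs =>
          intro hs c
          have h1 := (key a (hs a (mem_insert_self _ _))).const_mul (c a)
          have h2 := ihs (fun n hn => hs n (mem_insert_of_mem hn)) c
          have h3 := h1.add h2
          convert h3 using 2
          rw [sum_insert ha]
      have h4 := hsum (range (d + 1)) (fun n hn => by rw [mem_range] at hn; omega)
        (fun n => (r : ℝ) ^ (d + 1 - n) * ((d + 1).choose n : ℝ))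
      convert h4 using 2 with l
      push_cast
      rw [add_pow, sum_range_succ]
      simp only [Nat.sub_self, pow_zero, Nat.choose_self, Nat.cast_one, mul_one]
      rw [add_sub_cancel_right]
      exact sum_congr rfl fun n _ => by ring

/-- values of polynomials -/
lemma PP.eval (Q : Polynomial ℝ) (d : ℕ) (hQ : Q.natDegree ≤ d) :
    PP d fun l => Q.eval (l : ℝ) := by
  have h : ∀ s : Finset ℕ, (∀ n ∈ s, n ≤ d) →
      PP d fun l : ℕ => ∑ n ∈ s, Q.coeff n * (l : ℝ) ^ n := by
    intro s
    induction s using Finset.induction_on with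
    | empty => intro _; simpa using PP.const d 0
    | insert a s ha ihs =>
      intro hs
      have h1 := ((PP.pow a).mono (hs a (mem_insert_self _ _))).const_mul (Q.coeff a)
      have h2 := ihs (fun n hn => hs n (mem_insert_of_mem hn))
      have h3 := h1.add h2
      convert h3 using 2
      rw [sum_insert ha]
  have h4 := h (range (Q.natDegree + 1)) (fun n hn => by rw [mem_range] at hn; omega)
  convert h4 using 2 with l
  rw [Polynomial.eval_eq_sum_range]

section

variable {G : Type} [Group G] {β : ℕ → Type} [∀ s, Fintype (β s)]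

/-- the averages of `F`, twisted by polynomial phases of degree at most `d`, along the orbits of
all `g` with horizontal coordinates near `θ` are at most `ε` -/
def LocP {β₁ : Type} (d : ℕ) (p : G → β₁ → ℝ) (F : G → ℂ) (θ : β₁ → ℝ) (ε : ℝ) : Prop :=
  ∃ ρ : ℝ, 0 < ρ ∧ ∃ L₀ : ℕ, ∀ L : ℕ, L₀ ≤ L → ∀ g x : G, (∀ j, |p g j - θ j| < ρ) →
    ∀ q : ℕ → ℝ, PP d q → ‖∑ l ∈ Icc 1 L, F (g ^ l * x) * ee (q l)‖ ≤ ε * L

lemma Loc.locP {β₁ : Type} {p : G → β₁ → ℝ} {F : G → ℂ} {θ : β₁ → ℝ} {ε : ℝ}
    (h : Loc p F θ ε) : LocP 0 p F θ ε := by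
  obtain ⟨ρ, hρ, L₀, h⟩ := h
  refine ⟨ρ, hρ, L₀, fun L hL g x hg q hq => ?_⟩
  have e1 : ∑ l ∈ Icc 1 L, F (g ^ l * x) * ee (q l) = (∑ l ∈ Icc 1 L, F (g ^ l * x)) * ee (q 0) := by
    rw [sum_mul]
    exact sum_congr rfl fun l _ => by rw [hq l]
  rw [e1, norm_mul, norm_ee, mul_one]
  exact h L hL g x hg

end

/-- **The statement of the induction on the level, with twists.** -/
def EGP (k : ℕ) : Prop :=
  ∀ (G : Type) [Group G] [TopologicalSpace G] [IsTopologicalGroup G]
    (A : ℕ → Subgroup G) (Γ : Subgroup G)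
    (β : ℕ → Type) [∀ s, Fintype (β s)] [∀ s, DecidableEq (β s)]
    (π : (s : ℕ) → G → β s → ℝ) (e : (s : ℕ) → β s → ℝ → G), NS A Γ π e →
    ∀ b : β 2 → β 1 → β 1 → ℤ, CF π b →
    ∀ F : G → ℂ, LevN A Γ e (k + 2) F → GoodN e (k + 2) F → ∀ ε : ℝ, 0 < ε →
    ∃ (K : ℕ) (δ : ℝ), 0 < δ ∧ ∀ θ : β 1 → ℝ, TT π e (k + 2) K θ → GGd b K δ θ →
      LocP (k + 1) (π 1) F θ ε

/-- the index set of the twisted family -/
abbrev IdxP {G : Type} [Group G] (d : ℕ) (N : Subgroup G) (U : Set G) : Type :=
  Idx N U × {q : ℕ → ℝ // PP d q}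

/-- the family of sequences `F (g ^ n x) ee (q n)` -/
noncomputable def orbP {G : Type} [Group G] (d : ℕ) (N : Subgroup G) (U : Set G) (F : G → ℂ)
    (i : IdxP d N U) (n : ℕ) : ℂ := F ((i.1.1 : G) ^ n * i.1.2) * ee (i.2.1 n)

/-- The uniform estimate with constant `ε` for `F`, all `g ∈ U N`, `U` a neighbourhood of `K`, and
all polynomial twists of degree at most `d`. -/
def UEpsP {G : Type} [Group G] [TopologicalSpace G] (d : ℕ) (N : Subgroup G) (F : G → ℂ)
    (K : Set G) (ε : ℝ) : Prop :=
  ∃ U : Set G, IsOpen U ∧ K ⊆ U ∧ ∃ H₀ : ℕ, ∀ M H : ℕ, H₀ ≤ H → H ≤ M →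
    ∑ n ∈ Icc 1 M, (1 / (n : ℝ)) * GG (orbP d N U F) muC H n ≤ ε * H * Real.log M

end Pool.Agent.Lib.MP_663568_nt.E
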