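import Pool.Agent.Lib.MP_663568_e.E13
import Pool.Agent.Lib.MP_663568_tw.WDefs

/-!
Row W3: multiples of one vector by two different large primes.
-/

set_option autoImplicit false
open Finset

namespace Pool.Agent.Lib.MP_663568_nt.E

open Katai Tw Fib Nul T3

/-- the bracket function with fractional parts -/
private lemma psi_fract {γ : Type} [Fintype γ] (M : γ → γ → ℤ) (θ : γ → ℝ) (r : ℕ) :
    ∃ z : ℤ, Psi M θ r = z + (∑ j, (∑ i, (M j i : ℝ) * Int.fract (θ i)) * θ j) * r +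
      ∑ j, (-∑ i, (M j i : ℝ) * Int.fract (θ i)) * Int.fract ((r : ℝ) * θ j) := by
  refine ⟨∑ j, ∑ i, M j i * ⌊(r : ℝ) * θ j⌋ * ⌊θ i⌋, ?_⟩
  unfold Psi
  push_cast
  rw [sum_mul, ← sum_add_distrib, ← sum_add_distrib]
  refine sum_congr rfl fun j _ => ?_
  have h1 : ∀ i, (M j i : ℝ) * (⌊(r : ℝ) * θ j⌋ : ℝ) * θ i =
      (M j i : ℝ) * (⌊(r : ℝ) * θ j⌋ : ℝ) * (⌊θ i⌋ : ℝ) +
        (M j i : ℝ) * Int.fract (θ i) * (⌊(r : ℝ) * θ j⌋ : ℝ) := by
    intro i
    have := Int.floor_add_fract (θ i)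
    nth_rewrite 1 [← this]
    ring
  simp only [h1]
  rw [sum_add_distrib, add_assoc]
  congr 1
  rw [← sum_mul]
  have h2 := Int.floor_add_fract ((r : ℝ) * θ j)
  have h3 : (⌊(r : ℝ) * θ j⌋ : ℝ) = (r : ℝ) * θ j - Int.fract ((r : ℝ) * θ j) := by linarith
  rw [h3]
  ring

private lemma nri_ne {γ : Type} [Fintype γ] {α : γ → ℝ} (hα : NRI α) (v : γ → ℤ) (hv : v ≠ 0)
    (z : ℤ) : ∑ j, (v j : ℝ) * α j ≠ z := by
  refine hα (∑ j, (v j).natAbs) v hv (fun j => ?_) z
  have h1 : (v j).natAbs ≤ ∑ j, (v j).natAbs :=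
    Finset.single_le_sum (f := fun j => (v j).natAbs) (fun _ _ => Nat.zero_le _) (mem_univ j)
  rw [Int.abs_eq_natAbs]
  exact_mod_cast h1

private lemma nri_mul {γ : Type} [Fintype γ] {α : γ → ℝ} (hα : NRI α) {p : ℕ} (hp : 0 < p) :
    NRI fun j => (p : ℝ) * α j := by
  intro K k hk _ z h
  refine nri_ne hα (fun j => (p : ℤ) * k j) ?_ z ?_
  · intro h0
    apply hk
    funext j
    have h1 := congrFun h0 j
    simp only [Pi.zero_apply, mul_eq_zero, Nat.cast_eq_zero] at h1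
    rcases h1 with h1 | h1
    · omega
    · exact h1
  · rw [← h]
    refine Finset.sum_congr rfl fun j _ => ?_
    push_cast
    ring

/-- the row of a matrix times the fractional parts is a rational number only for a zero row -/
private lemma row_zero {γ : Type} [Fintype γ] (M : γ → ℤ) (α : γ → ℝ) (hα : NRI α) (p n : ℕ)
    (hp : 0 < p) (hn : 0 < n) (k : ℤ)
    (h : (n : ℝ) * (-∑ i, (M i : ℝ) * Int.fract ((p : ℝ) * α i)) = k) : ∀ i, M i = 0 := by
  by_contra hcon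
  push Not at hcon
  obtain ⟨i₀, hi₀⟩ := hcon
  refine nri_ne hα (fun i => (n : ℤ) * p * M i) ?_
    (-k + ∑ i, (n : ℤ) * M i * ⌊(p : ℝ) * α i⌋) ?_
  · intro h0
    have h1 := congrFun h0 i₀
    simp only [Pi.zero_apply] at h1
    have hn' : (n : ℤ) ≠ 0 := by omega
    have hp' : (p : ℤ) ≠ 0 := by omega
    exact mul_ne_zero (mul_ne_zero hn' hp') hi₀ h1
  · push_cast
    rw [← h]
    rw [mul_neg, neg_neg, mul_sum, ← sum_add_distrib]
    refine sum_congr rfl fun i _ => ?_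
    have := Int.floor_add_fract ((p : ℝ) * α i)
    calc (n : ℝ) * p * M i * α i = (n : ℝ) * M i * ((p : ℝ) * α i) := by ring
      _ = (n : ℝ) * M i * ((⌊(p : ℝ) * α i⌋ : ℝ) + Int.fract ((p : ℝ) * α i)) := by rw [this]
      _ = _ := by ring

/-- Multiples of one vector by two different large primes: the numerical lemma. -/
theorem same_num {γ β₂ : Type} [Fintype γ] [Fintype β₂] [DecidableEq γ]
    (b : β₂ → γ → γ → ℤ) (K : ℕ) (δ : ℝ) (hδ : 0 < δ) :
    ∃ K₀ : ℕ, ∀ p q : ℕ, p.Prime → q.Prime → p ≠ q → K₀ < p → K₀ < q → ∀ α : γ → ℝ, NRI α →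
      ∀ w w' : β₂ → ℤ, (∀ k, |w k| ≤ (K : ℤ)) → (∀ k, |w' k| ≤ (K : ℤ)) →
      ((∃ j i, Mw b w j i ≠ 0) ∨ ∃ j i, Mw b w' j i ≠ 0) →
      ∀ c : ℝ, Rare δ fun r => ∃ z : ℤ, c + (Psi (Mw b w) (fun j => (p : ℝ) * α j) r +
        Psi (Mw b w') (fun j => (q : ℝ) * α j) r) = z := by
  classical
  set Z : ℝ := (K : ℝ) * ∑ j, ∑ i, ∑ k, |(b k j i : ℝ)| with hZ
  have hZ0 : 0 ≤ Z := by positivity
  -- the bound of the coefficients
  have hbd : ∀ w : β₂ → ℤ, (∀ k, |w k| ≤ (K : ℤ)) → ∀ (θ : γ → ℝ) (j : γ),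
      |-∑ i, (Mw b w j i : ℝ) * Int.fract (θ i)| ≤ Z := by
    intro w hw θ j
    rw [abs_neg]
    calc |∑ i, (Mw b w j i : ℝ) * Int.fract (θ i)| ≤ ∑ i, |(Mw b w j i : ℝ) * Int.fract (θ i)| :=
          abs_sum_le_sum_abs _ _
      _ ≤ ∑ i, (K : ℝ) * ∑ k, |(b k j i : ℝ)| := by
          refine sum_le_sum fun i _ => ?_
          rw [abs_mul, abs_of_nonneg (Int.fract_nonneg (θ i))]
          have h1 : |(Mw b w j i : ℝ)| ≤ (K : ℝ) * ∑ k, |(b k j i : ℝ)| := by
            unfold Mw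
            push_cast
            refine (abs_sum_le_sum_abs _ _).trans ?_
            rw [mul_sum]
            refine sum_le_sum fun k _ => ?_
            rw [abs_mul]
            refine mul_le_mul_of_nonneg_right ?_ (abs_nonneg _)
            have := hw k
            exact_mod_cast this
          calc |(Mw b w j i : ℝ)| * Int.fract (θ i) ≤ |(Mw b w j i : ℝ)| * 1 :=
                mul_le_mul_of_nonneg_left (Int.fract_lt_one _).le (abs_nonneg _)
            _ ≤ _ := by rw [mul_one]; exact h1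
      _ = (K : ℝ) * ∑ i, ∑ k, |(b k j i : ℝ)| := by rw [mul_sum]
      _ ≤ Z := by
          rw [hZ]
          refine mul_le_mul_of_nonneg_left ?_ (Nat.cast_nonneg _)
          exact single_le_sum (f := fun j => ∑ i, ∑ k, |(b k j i : ℝ)|)
            (fun _ _ => by positivity) (mem_univ j)
  obtain ⟨K', hK'⟩ := gb (α := γ) (α' := γ) Z hZ0 δ hδ
  refine ⟨K', fun p q hp hq hpq hKp hKq α hα w w' hw hw' hne c => ?_⟩
  set θ : γ → ℝ := fun j => (p : ℝ) * α j with hθ
  set θ' : γ → ℝ := fun j => (q : ℝ) * α j with hθ'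
  set ζ : γ → ℝ := fun j => -∑ i, (Mw b w j i : ℝ) * Int.fract (θ i) with hζ
  set ζ' : γ → ℝ := fun j => -∑ i, (Mw b w' j i : ℝ) * Int.fract (θ' i) with hζ'
  set lam : ℝ := (∑ j, (∑ i, (Mw b w j i : ℝ) * Int.fract (θ i)) * θ j) +
    ∑ j, (∑ i, (Mw b w' j i : ℝ) * Int.fract (θ' i)) * θ' j with hlam
  have h := hK' θ θ' (nri_mul hα hp.pos K') lam c ζ ζ' (hbd w hw θ) (hbd w' hw' θ') ?_
  · refine h.mono le_rfl ?_
    rintro r - ⟨z, hz⟩
    obtain ⟨z₁, hz₁⟩ := psi_fract (Mw b w) θ r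
    obtain ⟨z₂, hz₂⟩ := psi_fract (Mw b w') θ' r
    refine ⟨z - z₁ - z₂, ?_⟩
    push_cast
    rw [← hz, hz₁, hz₂, hlam]
    ring
  -- the obstruction
  rintro ⟨J, D, a, a', w₁, ⟨hD1, hDK, ha, ha', haJ, hrel⟩, m, k, k', w₀, hm1, hmK, hk, hk', _, h1, h2⟩
  have hJ : ∀ j, j ∈ J := by
    intro j
    by_contra hj
    have h3 := hrel j hj
    have h4 : ∑ i, (((if i = j then (D : ℤ) * q else 0) - a j i * p - a' j i * q : ℤ) : ℝ) * α i =
        (w₁ j : ℝ) := by
      push_cast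
      simp only [sub_mul, sum_sub_distrib]
      have e1 : ∑ i, ((if i = j then (D : ℝ) * (q : ℝ) else 0) : ℝ) * α i = (D : ℝ) * θ' j := by
        rw [sum_eq_single j]
        · simp only [if_true]
          rw [hθ']
          ring
        · intro i _ hi
          rw [if_neg hi, zero_mul]
        · intro hj'
          exact absurd (mem_univ j) hj'
      have e2 : ∑ i, (a j i : ℝ) * (p : ℝ) * α i = ∑ i, (a j i : ℝ) * θ i :=
        sum_congr rfl fun i _ => by rw [hθ]; ring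
      have e3 : ∑ i, (a' j i : ℝ) * (q : ℝ) * α i = ∑ i, (a' j i : ℝ) * θ' i :=
        sum_congr rfl fun i _ => by rw [hθ']; ring
      rw [e1, e2, e3, h3]
      ring
    have h5 : (fun i => (if i = j then (D : ℤ) * q else 0) - a j i * p - a' j i * q) = 0 := by
      by_contra hcon
      exact nri_ne hα _ hcon _ h4
    have h6 := congrFun h5 j
    simp only [if_true, haJ j j hj, zero_mul, sub_zero, Pi.zero_apply] at h6
    have h7 : (p : ℤ) ∣ (D : ℤ) * q := ⟨a j j, by linarith⟩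
    have h8 : p ∣ D * q := by exact_mod_cast h7
    rcases (hp.dvd_mul).1 h8 with h9 | h9
    · have := Nat.le_of_dvd hD1 h9
      omega
    · exact hpq ((Nat.prime_dvd_prime_iff_eq hp hq).1 h9)
  have hJu : univ \ J = ∅ := by
    rw [sdiff_eq_empty_iff_subset]
    exact fun j _ => hJ j
  have hmD : 0 < m * D := Nat.mul_pos hm1 hD1
  rcases hne with ⟨j, i, hji⟩ | ⟨j, i, hji⟩
  · apply hji
    refine row_zero (Mw b w j) α hα p (m * D) hp.pos hmD (k j) ?_ i
    have h3 := h1 j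
    unfold red1 at h3
    rw [hJu, sum_empty, add_zero] at h3
    rw [← h3]
    push_cast
    rw [mul_assoc]
  · apply hji
    refine row_zero (Mw b w' j) α hα q (m * D) hq.pos hmD (k' j) ?_ i
    have h3 := h2 j (hJ j)
    unfold red2 at h3
    rw [hJu, sum_empty, add_zero] at h3
    rw [← h3]
    push_cast
    rw [mul_assoc]

variable {G : Type} [Group G] [TopologicalSpace G] [IsTopologicalGroup G] {A : ℕ → Subgroup G}
  {Γ : Subgroup G}
  {β : ℕ → Type} [∀ s, Fintype (β s)] [∀ s, DecidableEq (β s)]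
  {π : (s : ℕ) → G → β s → ℝ} {e : (s : ℕ) → β s → ℝ → G}

omit [TopologicalSpace G] [IsTopologicalGroup G] in
private lemma pi_one' [TopologicalSpace G] (hN : NS A Γ π e) {s : ℕ} (hs : 1 ≤ s) :
    π s (1 : G) = 0 :=
  (hN.pi_ker s hs 1 (A s).one_mem).2 (A (s + 1)).one_mem

omit [IsTopologicalGroup G] in
private lemma comc_ll (_hN : NS A Γ π e) (t : ℕ) (j : β t) (i : β 1) (k : β (t + 1)) :
    comc (prπ π) (pre e) t (Sum.inl j) (Sum.inl i) (Sum.inl k) = comc π e t j i k := rfl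

omit [IsTopologicalGroup G] in
private lemma comc_rr (_hN : NS A Γ π e) (t : ℕ) (j : β t) (i : β 1) (k : β (t + 1)) :
    comc (prπ π) (pre e) t (Sum.inr j) (Sum.inr i) (Sum.inr k) = comc π e t j i k := rfl

omit [IsTopologicalGroup G] in
private lemma comc_llr (hN : NS A Γ π e) (t : ℕ) (j : β t) (i : β 1) (k : β (t + 1)) :
    comc (prπ π) (pre e) t (Sum.inl j) (Sum.inl i) (Sum.inr k) = 0 := by
  change π (t + 1) ((1 : G) * 1 * 1⁻¹ * 1⁻¹) k = 0
  rw [inv_one, mul_one, mul_one, mul_one, pi_one' hN (by omega)]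
  rfl

omit [IsTopologicalGroup G] in
private lemma comc_rrl (hN : NS A Γ π e) (t : ℕ) (j : β t) (i : β 1) (k : β (t + 1)) :
    comc (prπ π) (pre e) t (Sum.inr j) (Sum.inr i) (Sum.inl k) = 0 := by
  change π (t + 1) ((1 : G) * 1 * 1⁻¹ * 1⁻¹) k = 0
  rw [inv_one, mul_one, mul_one, mul_one, pi_one' hN (by omega)]
  rfl

omit [IsTopologicalGroup G] in
private lemma comc_lr (hN : NS A Γ π e) (t : ℕ) (j : β t) (i : β 1) (k : prβ β (t + 1)) :
    comc (prπ π) (pre e) t (Sum.inl j) (Sum.inr i) k = 0 := by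
  rcases k with k | k
  · change π (t + 1) (e t j 1 * 1 * (e t j 1)⁻¹ * (1 : G)⁻¹) k = 0
    rw [inv_one, mul_one, mul_one, mul_inv_cancel, pi_one' hN (by omega)]
    rfl
  · change π (t + 1) ((1 : G) * e 1 i 1 * (1 : G)⁻¹ * (e 1 i 1)⁻¹) k = 0
    rw [inv_one, mul_one, one_mul, mul_inv_cancel, pi_one' hN (by omega)]
    rfl

omit [IsTopologicalGroup G] in
private lemma comc_rl (hN : NS A Γ π e) (t : ℕ) (j : β t) (i : β 1) (k : prβ β (t + 1)) :
    comc (prπ π) (pre e) t (Sum.inr j) (Sum.inl i) k = 0 := by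
  rcases k with k | k
  · change π (t + 1) ((1 : G) * e 1 i 1 * (1 : G)⁻¹ * (e 1 i 1)⁻¹) k = 0
    rw [inv_one, mul_one, one_mul, mul_inv_cancel, pi_one' hN (by omega)]
    rfl
  · change π (t + 1) (e t j 1 * 1 * (e t j 1)⁻¹ * (1 : G)⁻¹) k = 0
    rw [inv_one, mul_one, mul_one, mul_inv_cancel, pi_one' hN (by omega)]
    rfl

omit [IsTopologicalGroup G] in
private lemma cf_coeff (hN : NS A Γ π e) (b : β 2 → β 1 → β 1 → ℤ) (hb : CF π b) (k : β 2)
    (j i : β 1) : (b k j i : ℝ) = comc π e 1 j i k := by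
  have h := hb (e 1 j 1) (e 1 i 1) k
  rw [hN.e_pi 1 le_rfl, hN.e_pi 1 le_rfl] at h
  rw [Finset.sum_eq_single j, Finset.sum_eq_single i] at h
  · rw [Pi.single_eq_same, Pi.single_eq_same, mul_one, mul_one] at h
    exact h.symm
  · intro i' _ hi'
    rw [Pi.single_eq_of_ne hi', mul_zero]
  · intro h'
    exact absurd (mem_univ i) h'
  · intro j' _ hj'
    refine Finset.sum_eq_zero fun i' _ => ?_
    rw [Pi.single_eq_of_ne hj', mul_zero, zero_mul]
  · intro h'
    exact absurd (mem_univ j) h'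

private lemma psi_add {γ : Type} [Fintype γ] (M : (γ ⊕ γ) → (γ ⊕ γ) → ℤ) (M₁ M₂ : γ → γ → ℤ)
    (h1 : ∀ j i, M (Sum.inl j) (Sum.inl i) = M₁ j i) (h2 : ∀ j i, M (Sum.inl j) (Sum.inr i) = 0)
    (h3 : ∀ j i, M (Sum.inr j) (Sum.inl i) = 0) (h4 : ∀ j i, M (Sum.inr j) (Sum.inr i) = M₂ j i)
    (x y : γ → ℝ) (r : ℕ) :
    Psi M (Sum.elim x y) r = Psi M₁ x r + Psi M₂ y r := by
  unfold Psi
  rw [Fintype.sum_sum_type]
  congr 1
  · refine Finset.sum_congr rfl fun j _ => ?_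
    rw [Fintype.sum_sum_type]
    simp only [h1, h2, Int.cast_zero, zero_mul, Finset.sum_const_zero, add_zero, Sum.elim_inl]
  · refine Finset.sum_congr rfl fun j _ => ?_
    rw [Fintype.sum_sum_type]
    simp only [h3, h4, Int.cast_zero, zero_mul, Finset.sum_const_zero, zero_add, Sum.elim_inr]

/-- Multiples of one vector by two different large primes: the product group. -/
theorem gg_same (hN : NS A Γ π e) (b' : prβ β 2 → prβ β 1 → prβ β 1 → ℤ) (hb' : CF (prπ π) b')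
    (K : ℕ) (δ : ℝ) (hδ : 0 < δ) :
    ∃ K₀ : ℕ, ∀ p q : ℕ, p.Prime → q.Prime → p ≠ q → K₀ < p → K₀ < q → ∀ α : β 1 → ℝ, NRI α →
      GGd b' K δ
        (Sum.elim (fun j => (p : ℝ) * α j) (fun j => (q : ℝ) * α j) : prβ β 1 → ℝ) := by
  classical
  obtain ⟨b, hbf, hbn⟩ := comm_form hN
  have hcf : CF π b := hbf
  have hco' : ∀ k j i, (b' k j i : ℝ) = comc (prπ π) (pre e) 1 j i k :=
    fun k j i => cf_coeff (ns_prod hN) b' hb' k j i
  have hco : ∀ k j i, (b k j i : ℝ) = comc π e 1 j i k := fun k j i => cf_coeff hN b hcf k j i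
  have hlll : ∀ k j i, b' (Sum.inl k) (Sum.inl j) (Sum.inl i) = b k j i := by
    intro k j i
    have h := hco' (Sum.inl k) (Sum.inl j) (Sum.inl i)
    rw [comc_ll hN, ← hco] at h
    exact_mod_cast h
  have hrrr : ∀ k j i, b' (Sum.inr k) (Sum.inr j) (Sum.inr i) = b k j i := by
    intro k j i
    have h := hco' (Sum.inr k) (Sum.inr j) (Sum.inr i)
    rw [comc_rr hN, ← hco] at h
    exact_mod_cast h
  have hrll : ∀ k j i, b' (Sum.inr k) (Sum.inl j) (Sum.inl i) = 0 := by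
    intro k j i
    have h := hco' (Sum.inr k) (Sum.inl j) (Sum.inl i)
    rw [comc_llr hN] at h
    exact_mod_cast h
  have hlrr : ∀ k j i, b' (Sum.inl k) (Sum.inr j) (Sum.inr i) = 0 := by
    intro k j i
    have h := hco' (Sum.inl k) (Sum.inr j) (Sum.inr i)
    rw [comc_rrl hN] at h
    exact_mod_cast h
  have hlr : ∀ k j i, b' k (Sum.inl j) (Sum.inr i) = 0 := by
    intro k j i
    have h := hco' k (Sum.inl j) (Sum.inr i)
    rw [comc_lr hN] at h
    exact_mod_cast h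
  have hrl : ∀ k j i, b' k (Sum.inr j) (Sum.inl i) = 0 := by
    intro k j i
    have h := hco' k (Sum.inr j) (Sum.inl i)
    rw [comc_rl hN] at h
    exact_mod_cast h
  have hPsi : ∀ (w : prβ β 2 → ℤ) (x y : β 1 → ℝ) (r : ℕ),
      Psi (Mw b' w) (Sum.elim x y : prβ β 1 → ℝ) r =
        Psi (Mw b fun k => w (Sum.inl k)) x r + Psi (Mw b fun k => w (Sum.inr k)) y r := by
    intro w x y r
    refine psi_add (Mw b' w) _ _ ?_ ?_ ?_ ?_ x y r
    · intro j i
      simp only [Mw, Fintype.sum_sum_type, hlll, hrll, mul_zero, Finset.sum_const_zero, add_zero]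
    · intro j i
      simp only [Mw, hlr, mul_zero, Finset.sum_const_zero]
    · intro j i
      simp only [Mw, hrl, mul_zero, Finset.sum_const_zero]
    · intro j i
      simp only [Mw, Fintype.sum_sum_type, hrrr, hlrr, mul_zero, Finset.sum_const_zero, zero_add]
  obtain ⟨K₀, hK₀⟩ := same_num b K δ hδ
  refine ⟨K₀, fun p q hp hq hpq hKp hKq α hα w hw hwK c => ?_⟩
  have hfun : (fun r : ℕ => ∃ z : ℤ, c + Psi (Mw b' w)
      (Sum.elim (fun j => (p : ℝ) * α j) (fun j => (q : ℝ) * α j) : prβ β 1 → ℝ) r = z) =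
      fun r : ℕ => ∃ z : ℤ, c + (Psi (Mw b fun k => w (Sum.inl k)) (fun j => (p : ℝ) * α j) r +
        Psi (Mw b fun k => w (Sum.inr k)) (fun j => (q : ℝ) * α j) r) = z := by
    funext r
    rw [hPsi]
  rw [hfun]
  refine hK₀ p q hp hq hpq hKp hKq α hα _ _ (fun k => hwK (Sum.inl k)) (fun k => hwK (Sum.inr k))
    ?_ c
  by_cases hl : (fun k => w (Sum.inl k)) = 0
  · have hr : (fun k => w (Sum.inr k)) ≠ 0 := by
      intro hr
      apply hw
      funext k
      rcases k with k | k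
      · exact congrFun hl k
      · exact congrFun hr k
    exact Or.inr (hbn _ hr)
  · exact Or.inl (hbn _ hl)

end Pool.Agent.Lib.MP_663568_nt.E
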