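import Pool.Agent.Lib.MP_663568_tw.V02
import Pool.Agent.Lib.MP_663568_tw.W03

/-!
Row V4: correlations of twisted dilated orbits.
-/

set_option autoImplicit false
open Finset

namespace Pool.Agent.Lib.MP_663568_nt.E

open Katai Tw Fib Nul T3

/-- Uniform constants on a compact set. -/
theorem locT_unif {G : Type} [Group G] {β₁ : Type} [Fintype β₁] (p : G → β₁ → ℝ) (F : G → ℂ)
    (T : Set (ℕ → ℂ)) (ε : ℝ) (S : Set (β₁ → ℝ)) (hS : IsCompact S)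
    (h : ∀ θ ∈ S, LocT T p F θ ε) :
    ∃ ρ : ℝ, 0 < ρ ∧ ∃ L₀ : ℕ, ∀ θ ∈ S, ∀ L : ℕ, L₀ ≤ L → ∀ g x : G, (∀ j, |p g j - θ j| < ρ) →
      ∀ τ ∈ T, ‖∑ l ∈ Icc 1 L, F (g ^ l * x) * τ l‖ ≤ ε * L := by
  have h1 : ∀ θ : β₁ → ℝ, ∃ ρ : ℝ, 0 < ρ ∧ ∃ L₀ : ℕ, θ ∈ S → ∀ L : ℕ, L₀ ≤ L → ∀ g x : G,
      (∀ j, |p g j - θ j| < ρ) → ∀ τ ∈ T,
        ‖∑ l ∈ Icc 1 L, F (g ^ l * x) * τ l‖ ≤ ε * L := by
    intro θ
    by_cases hθ : θ ∈ S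
    · obtain ⟨ρ, hρ, L₀, hL⟩ := h θ hθ
      exact ⟨ρ, hρ, L₀, fun _ => hL⟩
    · exact ⟨1, one_pos, 0, fun h' => absurd h' hθ⟩
  choose ρ hρ L₀ hL using h1
  obtain ⟨t, ht, hcov⟩ := hS.elim_nhds_subcover
    (fun θ => Metric.ball θ (ρ θ / 2)) (fun θ _ => Metric.ball_mem_nhds θ (half_pos (hρ θ)))
  have hE0 : 0 ≤ ∑ θ ∈ t, 2 / ρ θ := sum_nonneg fun θ _ => (div_pos two_pos (hρ θ)).le
  refine ⟨1 / (1 + ∑ θ ∈ t, 2 / ρ θ), by positivity, t.sup L₀,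
    fun θ hθ L hLt g x hg τ hτ => ?_⟩
  obtain ⟨θ₀, hθ₀t, hθ₀⟩ := Set.mem_iUnion₂.1 (hcov hθ)
  have hle : 1 / (1 + ∑ θ ∈ t, 2 / ρ θ) ≤ ρ θ₀ / 2 := by
    have h2 : 2 / ρ θ₀ ≤ ∑ θ ∈ t, 2 / ρ θ :=
      single_le_sum (f := fun θ => 2 / ρ θ) (fun θ _ => (div_pos two_pos (hρ θ)).le) hθ₀t
    have h3 := hρ θ₀
    rw [div_le_div_iff₀ (by positivity) two_pos]
    have h4 : ρ θ₀ * (2 / ρ θ₀) = 2 := by field_simp
    nlinarith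
  refine hL θ₀ (ht θ₀ hθ₀t) L ((Finset.le_sup hθ₀t).trans hLt) g x ?_ τ hτ
  intro j
  have h3 := (dist_pi_lt_iff (half_pos (hρ θ₀))).1 (Metric.mem_ball.1 hθ₀) j
  rw [Real.dist_eq] at h3
  have h4 := abs_sub_le (p g j) (θ j) (θ₀ j)
  have h5 := hg j
  linarith

variable {G : Type} [Group G] [TopologicalSpace G] [IsTopologicalGroup G] {A : ℕ → Subgroup G}
  {Γ : Subgroup G}
  {β : ℕ → Type} [∀ s, Fintype (β s)] [∀ s, DecidableEq (β s)]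
  {π : (s : ℕ) → G → β s → ℝ} {e : (s : ℕ) → β s → ℝ → G}

omit [IsTopologicalGroup G] in
/-- the horizontal coordinates of ergodic elements -/
theorem nri_erg' (hN : NS A Γ π e) {a : G} (ha : Erg Γ a) : NRI (π 1 a) := by
  intro K k hk _ z hz
  exact (erg_irr hN ha hk).ne_int z hz

/-- the products of the dilated twists -/
def pairT (T : Set (ℕ → ℂ)) : Set (ℕ → ℂ) :=
  {s | ∃ t ∈ {s | ∃ t ∈ T, ∃ p j : ℕ, s = fun l => t (p * (j + l))},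
    ∃ t' ∈ {s | ∃ t ∈ {s | ∃ t ∈ T, ∃ p j : ℕ, s = fun l => t (p * (j + l))},
      s = fun l => (starRingEnd ℂ) (t l)}, s = fun l => t l * t' l}

lemma pairT_tame {d : ℕ} {T : Set (ℕ → ℂ)} (hT : Tame d T) : Tame d (pairT T) :=
  hT.dil.mul hT.dil.conj

lemma mem_pairT {T : Set (ℕ → ℂ)} {t t' : ℕ → ℂ} (ht : t ∈ T) (ht' : t' ∈ T) (p q j : ℕ) :
    (fun l => t (p * (j + l)) * (starRingEnd ℂ) (t' (q * (j + l)))) ∈ pairT T :=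
  ⟨_, ⟨t, ht, p, j, rfl⟩, _, ⟨_, ⟨t', ht', q, j, rfl⟩, rfl⟩, rfl⟩

/-- a twisted correlation is a twisted average on the product -/
theorem corr_of_locT (T : Set (ℕ → ℂ)) (F : G → ℂ) (p q : ℕ) (θ : prβ β 1 → ℝ) (ρ η : ℝ) (L : ℕ)
    (hL : ∀ g x : G × G, (∀ j, |prπ π 1 g j - θ j| < ρ) → ∀ τ ∈ pairT T,
      ‖∑ l ∈ Icc 1 L, (fun y : G × G => F y.1 * (starRingEnd ℂ) (F y.2)) (g ^ l * x) *
        τ l‖ ≤ η * L) (v v' : G)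
    (hv : ∀ j, |π 1 (v ^ p) j - θ (Sum.inl j)| < ρ)
    (hv' : ∀ j, |π 1 (v' ^ q) j - θ (Sum.inr j)| < ρ) (x x' : G) (j : ℕ) (t t' : ℕ → ℂ)
    (ht : t ∈ T) (ht' : t' ∈ T) :
    ‖∑ l ∈ Icc 1 L, (F (v ^ (p * (j + l)) * x) * t (p * (j + l))) *
      (starRingEnd ℂ) (F (v' ^ (q * (j + l)) * x') * t' (q * (j + l)))‖ ≤ η * L := by
  have h1 := hL (v ^ p, v' ^ q) (v ^ (p * j) * x, v' ^ (q * j) * x') (by
    rintro (i | i)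
    · exact hv i
    · exact hv' i) _ (mem_pairT ht ht' p q j)
  refine le_trans (le_of_eq ?_) h1
  congr 1
  refine sum_congr rfl fun l _ => ?_
  have e1 : v ^ (p * (j + l)) * x = ((v ^ p, v' ^ q) ^ l * (v ^ (p * j) * x, v' ^ (q * j) * x')).1 := by
    change v ^ (p * (j + l)) * x = (v ^ p) ^ l * (v ^ (p * j) * x)
    rw [← mul_assoc, ← pow_mul, ← pow_add]
    congr 2
    ring
  have e2 : v' ^ (q * (j + l)) * x' =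
      ((v ^ p, v' ^ q) ^ l * (v ^ (p * j) * x, v' ^ (q * j) * x')).2 := by
    change v' ^ (q * (j + l)) * x' = (v' ^ q) ^ l * (v' ^ (q * j) * x')
    rw [← mul_assoc, ← pow_mul, ← pow_add]
    congr 2
    ring
  rw [e1, e2, map_mul]
  ring

omit [IsTopologicalGroup G] in
/-- the horizontal coordinates of the powers of the elements near `a` -/
private lemma near_pow (hN : NS A Γ π e) (p : ℕ) (u w a : G) (hw : w ∈ A 2) (δ ρ : ℝ)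
    (hδ : (p : ℝ) * δ ≤ ρ) (hp : 0 < p) (hu : ∀ j, |π 1 u j - π 1 a j| < δ) (j : β 1) :
    |π 1 ((u * w) ^ p) j - (p : ℝ) * π 1 a j| < ρ := by
  have hw0 : π 1 w = 0 := (hN.pi_ker 1 le_rfl w (by rw [hN.A1]; trivial)).2 hw
  have h1 : π 1 ((u * w) ^ p) j = (p : ℝ) * π 1 u j := by
    rw [pi_pow hN, pi_one_mul hN, hw0, add_zero]
  rw [h1, ← mul_sub, abs_mul, abs_of_nonneg (Nat.cast_nonneg p)]
  have hp' : (0 : ℝ) < p := by exact_mod_cast hp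
  calc (p : ℝ) * |π 1 u j - π 1 a j| < p * δ := mul_lt_mul_of_pos_left (hu j) hp'
    _ ≤ ρ := hδ

omit [IsTopologicalGroup G] in
/-- the open set of the elements near a set -/
private lemma isOpen_near (hN : NS A Γ π e) (C : Set G) (δ : ℝ) :
    IsOpen {g : G | ∃ a ∈ C, ∀ j, |π 1 g j - π 1 a j| < δ} := by
  have h1 : {g : G | ∃ a ∈ C, ∀ j, |π 1 g j - π 1 a j| < δ} =
      ⋃ a ∈ C, ⋂ j, {g : G | |π 1 g j - π 1 a j| < δ} := by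
    ext g
    simp only [Set.mem_ofPred_eq, Set.mem_iUnion, Set.mem_iInter, exists_prop]
  rw [h1]
  refine isOpen_biUnion fun a _ => isOpen_iInter_of_finite fun j => ?_
  have hc : Continuous fun g => |π 1 g j - π 1 a j| :=
    (((continuous_apply j).comp (pi_one_cont hN)).sub continuous_const).abs
  exact isOpen_lt hc continuous_const

/-- Twisted correlations with distant factors, uniformly near a compact set. -/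
theorem corr_farT (hN : NS A Γ π e) (k : ℕ) (T : Set (ℕ → ℂ)) (hT : Tame (k + 1) T) (F : G → ℂ) (hF : LevN A Γ e (k + 2) F)
    (hG : GoodN e (k + 2) F) (C : Set G) (hC : IsCompact C) (hCe : ∀ a ∈ C, Erg Γ a)
    (η : ℝ) (hη : 0 < η) :
    ∃ B : ℕ, 0 < B ∧ ∀ P : Finset ℕ, (∀ p ∈ P, 0 < p) → ∃ (L : ℕ) (U : Set G), 0 < L ∧ IsOpen U ∧
      C ⊆ U ∧ ∀ p ∈ P, ∀ q ∈ P, B * q ≤ p → ∀ u ∈ U, ∀ u' ∈ U, ∀ w ∈ A 2, ∀ w' ∈ A 2,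
      ∀ (x x' : G) (j : ℕ), ∀ t ∈ T, ∀ t' ∈ T,
        ‖∑ l ∈ Icc 1 L, (F ((u * w) ^ (p * (j + l)) * x) * t (p * (j + l))) *
          (starRingEnd ℂ) (F ((u' * w') ^ (q * (j + l)) * x') * t' (q * (j + l)))‖ ≤
            η * L := by
  classical
  obtain ⟨hF2, hG2⟩ := lev_pr (k + 2) F hF hG
  obtain ⟨b', hb', _⟩ := comm_form (ns_prod hN)
  obtain ⟨K, δ, hδ, hmain⟩ := egt_all k (G × G) (prA A) (Γ.prod Γ) (prβ β) (prπ π) (pre e)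
    (ns_prod hN) b' hb' (pairT T) (pairT_tame hT) _ hF2 hG2 η hη
  set C₁ : Set (β 1 → ℝ) := π 1 '' C with hC₁
  have hC₁c : IsCompact C₁ := hC.image (pi_one_cont hN)
  have hC₁n : ∀ α ∈ C₁, NRI α := by
    rintro _ ⟨a, ha, rfl⟩
    exact nri_erg' hN (hCe a ha)
  obtain ⟨B, hB0, hB⟩ := gg_pair hN b' hb' C₁ hC₁c hC₁n K δ hδ
  refine ⟨B, hB0, fun P hP => ?_⟩
  -- uniform constants for one pair
  have h1 : ∀ pq : ℕ × ℕ, ∃ ρ : ℝ, 0 < ρ ∧ ∃ L₀ : ℕ, pq.1 ∈ P → pq.2 ∈ P → B * pq.2 ≤ pq.1 →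
      ∀ α ∈ C₁, ∀ α' ∈ C₁, ∀ L : ℕ, L₀ ≤ L → ∀ g x : G × G,
      (∀ j, |prπ π 1 g j - (Sum.elim (fun j => (pq.1 : ℝ) * α j)
        (fun j => (pq.2 : ℝ) * α' j) : prβ β 1 → ℝ) j| < ρ) →
      ∀ τ ∈ pairT T,
      ‖∑ l ∈ Icc 1 L, (fun y : G × G => F y.1 * (starRingEnd ℂ) (F y.2)) (g ^ l * x) *
        τ l‖ ≤ η * L := by
    rintro ⟨p, q⟩
    by_cases h : p ∈ P ∧ q ∈ P ∧ B * q ≤ p
    · obtain ⟨hp, hq, hpq⟩ := h
      have hcont : Continuous fun x : (β 1 → ℝ) × (β 1 → ℝ) =>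
          (Sum.elim (fun j => (p : ℝ) * x.1 j) (fun j => (q : ℝ) * x.2 j) : prβ β 1 → ℝ) := by
        refine continuous_pi ?_
        rintro (j | j)
        · exact continuous_const.mul ((continuous_apply j).comp continuous_fst)
        · exact continuous_const.mul ((continuous_apply j).comp continuous_snd)
      obtain ⟨ρ, hρ, L₀, hu⟩ := locT_unif (prπ π 1)
        (fun y : G × G => F y.1 * (starRingEnd ℂ) (F y.2)) (pairT T) η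
        ((fun x : (β 1 → ℝ) × (β 1 → ℝ) =>
          (Sum.elim (fun j => (p : ℝ) * x.1 j) (fun j => (q : ℝ) * x.2 j) : prβ β 1 → ℝ)) ''
          (C₁ ×ˢ C₁)) ((hC₁c.prod hC₁c).image hcont) (by
        rintro _ ⟨⟨α, α'⟩, ⟨hα, hα'⟩, rfl⟩
        exact hmain _ (tt_pair hN (k + 2) K p q (hP p hp) (hP q hq) α α' (hC₁n α hα)
          (hC₁n α' hα')) (hB p q (hP q hq) hpq α hα α' hα'))
      exact ⟨ρ, hρ, L₀, fun _ _ _ α hα α' hα' => hu _ ⟨(α, α'), ⟨hα, hα'⟩, rfl⟩⟩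
    · exact ⟨1, one_pos, 0, fun hp hq hpq => absurd ⟨hp, hq, hpq⟩ h⟩
  choose ρ hρ L₀ hL using h1
  set R : ℝ := 1 + ∑ pq ∈ P ×ˢ P, 1 / ρ pq with hR
  have hR0 : 0 ≤ ∑ pq ∈ P ×ˢ P, 1 / ρ pq := sum_nonneg fun pq _ => (one_div_pos.2 (hρ pq)).le
  have hRp : 0 < R := by rw [hR]; linarith
  set Sp : ℝ := 1 + ∑ p ∈ P, (p : ℝ) with hSp
  have hSp0 : 0 ≤ ∑ p ∈ P, (p : ℝ) := sum_nonneg fun _ _ => Nat.cast_nonneg _
  have hSpp : 0 < Sp := by rw [hSp]; linarith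
  set δ₀ : ℝ := 1 / (R * Sp) with hδ₀
  have hδ₀p : 0 < δ₀ := by positivity
  have hδle : ∀ p ∈ P, ∀ pq ∈ P ×ˢ P, (p : ℝ) * δ₀ ≤ ρ pq := by
    intro p hp pq hpq
    have h2 : (p : ℝ) ≤ Sp := by
      have : (p : ℝ) ≤ ∑ p ∈ P, (p : ℝ) :=
        single_le_sum (f := fun p : ℕ => (p : ℝ)) (fun _ _ => Nat.cast_nonneg _) hp
      rw [hSp]; linarith
    have h3 : 1 / ρ pq ≤ R := by
      have : 1 / ρ pq ≤ ∑ pq ∈ P ×ˢ P, 1 / ρ pq :=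
        single_le_sum (f := fun pq => 1 / ρ pq) (fun pq _ => (one_div_pos.2 (hρ pq)).le) hpq
      rw [hR]; linarith
    have h4 : 1 / R ≤ ρ pq := (one_div_le (hρ pq) hRp).1 h3
    calc (p : ℝ) * δ₀ ≤ Sp * δ₀ := mul_le_mul_of_nonneg_right h2 hδ₀p.le
      _ = 1 / R := by rw [hδ₀]; field_simp
      _ ≤ ρ pq := h4
  set L : ℕ := (P ×ˢ P).sup L₀ + 1 with hLdef
  refine ⟨L, {g : G | ∃ a ∈ C, ∀ j, |π 1 g j - π 1 a j| < δ₀}, by omega, isOpen_near hN C δ₀,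
    fun a ha => ⟨a, ha, fun j => by rw [sub_self, abs_zero]; exact hδ₀p⟩, ?_⟩
  intro p hp q hq hpq u ⟨a, ha, hua⟩ u' ⟨a', ha', hua'⟩ w hw w' hw' x x' j t ht t' ht'
  have hmem : (p, q) ∈ P ×ˢ P := mem_product.2 ⟨hp, hq⟩
  refine corr_of_locT (π := π) T F p q (Sum.elim (fun j => (p : ℝ) * π 1 a j)
    (fun j => (q : ℝ) * π 1 a' j)) (ρ (p, q)) η L ?_ (u * w) (u' * w') ?_ ?_ x x' j t t' ht ht'
  · refine hL (p, q) hp hq hpq (π 1 a) ⟨a, ha, rfl⟩ (π 1 a') ⟨a', ha', rfl⟩ L ?_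
    exact (Finset.le_sup hmem).trans (Nat.le_succ _)
  · exact fun i => near_pow hN p u w a hw δ₀ _ (hδle p hp _ hmem) (hP p hp) hua i
  · exact fun i => near_pow hN q u' w' a' hw' δ₀ _ (hδle q hq _ hmem) (hP q hq) hua' i

/-- Twisted correlations of one orbit, near one ergodic element. -/
theorem corr_sameT (hN : NS A Γ π e) (k : ℕ) (T : Set (ℕ → ℂ)) (hT : Tame (k + 1) T) (F : G → ℂ) (hF : LevN A Γ e (k + 2) F)
    (hG : GoodN e (k + 2) F) (η : ℝ) (hη : 0 < η) :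
    ∃ K₀ : ℕ, ∀ P : Finset ℕ, (∀ p ∈ P, p.Prime ∧ K₀ < p) → ∀ a : G, Erg Γ a →
      ∃ (L : ℕ) (U : Set G), 0 < L ∧ IsOpen U ∧ a ∈ U ∧
      ∀ p ∈ P, ∀ q ∈ P, p ≠ q → ∀ u ∈ U, ∀ w ∈ A 2, ∀ (x : G) (j : ℕ), ∀ t ∈ T,
        ‖∑ l ∈ Icc 1 L, (F ((u * w) ^ (p * (j + l)) * x) * t (p * (j + l))) *
          (starRingEnd ℂ) (F ((u * w) ^ (q * (j + l)) * x) * t (q * (j + l)))‖ ≤
            η * L := by
  classical
  obtain ⟨hF2, hG2⟩ := lev_pr (k + 2) F hF hG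
  obtain ⟨b', hb', _⟩ := comm_form (ns_prod hN)
  obtain ⟨K, δ, hδ, hmain⟩ := egt_all k (G × G) (prA A) (Γ.prod Γ) (prβ β) (prπ π) (pre e)
    (ns_prod hN) b' hb' (pairT T) (pairT_tame hT) _ hF2 hG2 η hη
  obtain ⟨K₀, hK₀⟩ := gg_same hN b' hb' K δ hδ
  refine ⟨K₀, fun P hP a ha => ?_⟩
  have hα := nri_erg' hN ha
  have h1 : ∀ pq : ℕ × ℕ, ∃ ρ : ℝ, 0 < ρ ∧ ∃ L₀ : ℕ, pq.1 ∈ P → pq.2 ∈ P → pq.1 ≠ pq.2 →
      ∀ L : ℕ, L₀ ≤ L → ∀ g x : G × G,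
      (∀ j, |prπ π 1 g j - (Sum.elim (fun j => (pq.1 : ℝ) * π 1 a j)
        (fun j => (pq.2 : ℝ) * π 1 a j) : prβ β 1 → ℝ) j| < ρ) →
      ∀ τ ∈ pairT T,
      ‖∑ l ∈ Icc 1 L, (fun y : G × G => F y.1 * (starRingEnd ℂ) (F y.2)) (g ^ l * x) *
        τ l‖ ≤ η * L := by
    rintro ⟨p, q⟩
    by_cases h : p ∈ P ∧ q ∈ P ∧ p ≠ q
    · obtain ⟨hp, hq, hpq⟩ := h
      obtain ⟨ρ, hρ, L₀, hu⟩ := hmain _ (tt_pair hN (k + 2) K p q (hP p hp).1.pos (hP q hq).1.pos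
        (π 1 a) (π 1 a) hα hα) (hK₀ p q (hP p hp).1 (hP q hq).1 hpq (hP p hp).2 (hP q hq).2
          (π 1 a) hα)
      exact ⟨ρ, hρ, L₀, fun _ _ _ => hu⟩
    · exact ⟨1, one_pos, 0, fun hp hq hpq => absurd ⟨hp, hq, hpq⟩ h⟩
  choose ρ hρ L₀ hL using h1
  set R : ℝ := 1 + ∑ pq ∈ P ×ˢ P, 1 / ρ pq with hR
  have hR0 : 0 ≤ ∑ pq ∈ P ×ˢ P, 1 / ρ pq := sum_nonneg fun pq _ => (one_div_pos.2 (hρ pq)).le
  have hRp : 0 < R := by rw [hR]; linarith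
  set Sp : ℝ := 1 + ∑ p ∈ P, (p : ℝ) with hSp
  have hSp0 : 0 ≤ ∑ p ∈ P, (p : ℝ) := sum_nonneg fun _ _ => Nat.cast_nonneg _
  have hSpp : 0 < Sp := by rw [hSp]; linarith
  set δ₀ : ℝ := 1 / (R * Sp) with hδ₀
  have hδ₀p : 0 < δ₀ := by positivity
  have hδle : ∀ p ∈ P, ∀ pq ∈ P ×ˢ P, (p : ℝ) * δ₀ ≤ ρ pq := by
    intro p hp pq hpq
    have h2 : (p : ℝ) ≤ Sp := by
      have : (p : ℝ) ≤ ∑ p ∈ P, (p : ℝ) :=
        single_le_sum (f := fun p : ℕ => (p : ℝ)) (fun _ _ => Nat.cast_nonneg _) hp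
      rw [hSp]; linarith
    have h3 : 1 / ρ pq ≤ R := by
      have : 1 / ρ pq ≤ ∑ pq ∈ P ×ˢ P, 1 / ρ pq :=
        single_le_sum (f := fun pq => 1 / ρ pq) (fun pq _ => (one_div_pos.2 (hρ pq)).le) hpq
      rw [hR]; linarith
    have h4 : 1 / R ≤ ρ pq := (one_div_le (hρ pq) hRp).1 h3
    calc (p : ℝ) * δ₀ ≤ Sp * δ₀ := mul_le_mul_of_nonneg_right h2 hδ₀p.le
      _ = 1 / R := by rw [hδ₀]; field_simp
      _ ≤ ρ pq := h4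
  set L : ℕ := (P ×ˢ P).sup L₀ + 1 with hLdef
  refine ⟨L, {g : G | ∃ a' ∈ ({a} : Set G), ∀ j, |π 1 g j - π 1 a' j| < δ₀}, by omega,
    isOpen_near hN {a} δ₀, ⟨a, rfl, fun j => by rw [sub_self, abs_zero]; exact hδ₀p⟩, ?_⟩
  rintro p hp q hq hpq u ⟨a', rfl, hua⟩ w hw x j t ht
  have hmem : (p, q) ∈ P ×ˢ P := mem_product.2 ⟨hp, hq⟩
  refine corr_of_locT (π := π) T F p q (Sum.elim (fun j => (p : ℝ) * π 1 a' j)
    (fun j => (q : ℝ) * π 1 a' j)) (ρ (p, q)) η L ?_ (u * w) (u * w) ?_ ?_ x x j t t ht ht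
  · refine hL (p, q) hp hq hpq L ?_
    exact (Finset.le_sup hmem).trans (Nat.le_succ _)
  · exact fun i => near_pow hN p u w a' hw δ₀ _ (hδle p hp _ hmem) (hP p hp).1.pos hua i
  · exact fun i => near_pow hN q u w a' hw δ₀ _ (hδle q hq _ hmem) (hP q hq).1.pos hua i

end Pool.Agent.Lib.MP_663568_nt.E
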