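import Pool.Agent.Lib.MP_663568_tw.V04
import Pool.Agent.Lib.MP_663568_tw.W05
import Pool.Agent.Lib.MP_663568_t3.TSingle

/-!
Row V7: single windows near the origin, with tame twists.
-/

set_option autoImplicit false
open Finset

namespace Pool.Agent.Lib.MP_663568_nt.E

open Katai Tw Fib Nul T3

variable {G : Type} [Group G] [TopologicalSpace G] [IsTopologicalGroup G] {A : ℕ → Subgroup G}
  {Γ : Subgroup G}
  {β : ℕ → Type} [∀ s, Fintype (β s)] [∀ s, DecidableEq (β s)]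
  {π : (s : ℕ) → G → β s → ℝ} {e : (s : ℕ) → β s → ℝ → G}

/-- Single windows near the origin. -/
theorem single_nearT (hN : NS A Γ π e) (k : ℕ) (T : Set (ℕ → ℂ)) (hT : Tame (k + 1) T)
    (hT1 : ∀ t ∈ T, ∀ l, ‖t l‖ ≤ 1) (F : G → ℂ) (hF : LevN A Γ e (k + 2) F)
    (hG : GoodN e (k + 2) F) (hF1 : ∀ x, ‖F x‖ ≤ 1)
    (C : Set G) (hC : IsCompact C) (hCe : ∀ a ∈ C, Erg Γ a) (ε : ℝ) (hε : 0 < ε) :
    ∃ U : Set G, IsOpen U ∧ C ⊆ U ∧ ∃ H₁ : ℕ, ∀ u ∈ U, ∀ w ∈ A 2, ∀ x : G, ∀ t ∈ T,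
      ∀ H n : ℕ, H₁ ≤ H → n ≤ H →
      ws (fun m => F ((u * w) ^ m * x) * t m) muC n H ≤ ε * H := by
  obtain ⟨η, hη, hnat⟩ := natural_w muC norm_muC (fun p hp m hm => muC_mul p hp m hm)
    (ε / 4) (by positivity)
  obtain ⟨K₀, hK₀⟩ := corr_sameT hN k T hT F hF hG η hη
  obtain ⟨P, hP, hnatP⟩ := hnat K₀
  have h1 : ∀ c : ↥C, ∃ W : Set G, IsOpen W ∧ (c : G) ∈ W ∧ ∃ H₁ : ℕ, ∀ u ∈ W, ∀ w ∈ A 2,
      ∀ x : G, ∀ t ∈ T, ∀ H n : ℕ, H₁ ≤ H → n ≤ H →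
      ws (fun m => F ((u * w) ^ m * x) * t m) muC n H ≤ ε * H := by
    rintro ⟨a, ha⟩
    obtain ⟨L, W, hL0, hW1, haW, hW⟩ := hK₀ P hP a (hCe a ha)
    obtain ⟨H₀, hH₀, hsum⟩ := hnatP L hL0
    refine ⟨W, hW1, haW, H₀ + ⌈4 * (H₀ : ℝ) / ε⌉₊, fun u hu w hw x t ht H n hH hn => ?_⟩
    have hb : ∀ m, ‖F ((u * w) ^ m * x) * t m‖ ≤ 1 := fun m => by
      rw [norm_mul]
      exact mul_le_one₀ (hF1 _) (norm_nonneg _) (hT1 t ht m)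
    refine window_small _ muC hb norm_muC ε hε H₀ hH₀ (fun X hX => ?_) H n hH hn
    exact hsum _ hb (fun p hp q hq hpq j => hW p hp q hq hpq u hu w hw x j t ht) X hX
  choose W hW hcW H₁ hH₁ using h1
  obtain ⟨Y, hY⟩ := hC.elim_finite_subcover W hW (fun c hc => Set.mem_iUnion.2 ⟨⟨c, hc⟩, hcW _⟩)
  refine ⟨⋃ c ∈ Y, W c, isOpen_biUnion fun c _ => hW c, hY, Y.sup H₁, ?_⟩
  intro u hu w hw x t ht H n hH hn
  rw [Set.mem_iUnion₂] at hu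
  obtain ⟨c, hc, hu⟩ := hu
  exact hH₁ c u hu w hw x t ht H n ((Finset.le_sup hc).trans hH) hn

end Pool.Agent.Lib.MP_663568_nt.E
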