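import Pool.Agent.Lib.MP_663568_tw.V07
import Pool.Agent.Lib.MP_663568_e.E18

/-!
Row V8: the uniform estimate for functions of level at least two, near every compact set of
ergodic elements, with tame twists of degree smaller than the level.
-/

set_option autoImplicit false
open Finset

namespace Pool.Agent.Lib.MP_663568_nt.E

open Katai Tw Fib Nul T3

lemma UEpsT.const_mul {G : Type} [Group G] [TopologicalSpace G] {T : Set (ℕ → ℂ)} {N : Subgroup G}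
    {F : G → ℂ} {K : Set G} {ε : ℝ} (h : UEpsT T N F K ε)
    (c : ℂ) : UEpsT T N (fun x => c * F x) K (‖c‖ * ε) := by
  obtain ⟨U, hU, hKU, H₀, hH⟩ := h
  refine ⟨U, hU, hKU, H₀, fun M H h1 h2 => ?_⟩
  have hG : ∀ n, GG (orbT T N U fun x => c * F x) muC H n = ‖c‖ * GG (orbT T N U F) muC H n := by
    intro n
    rw [GG, GG, Real.mul_iSup_of_nonneg (norm_nonneg _)]
    congr 1
    funext i
    rw [← norm_mul, mul_sum]
    congr 1
    refine sum_congr rfl fun h _ => ?_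
    simp only [orbT]
    ring
  have h3 := hH M H h1 h2
  have h4 : ∑ n ∈ Icc 1 M, (1 / (n : ℝ)) * GG (orbT T N U fun x => c * F x) muC H n =
      ‖c‖ * ∑ n ∈ Icc 1 M, (1 / (n : ℝ)) * GG (orbT T N U F) muC H n := by
    rw [mul_sum]
    refine sum_congr rfl fun n _ => ?_
    rw [hG]
    ring
  rw [h4]
  calc _ ≤ ‖c‖ * (ε * H * Real.log M) := mul_le_mul_of_nonneg_left h3 (norm_nonneg _)
    _ = _ := by ring

variable {G : Type} [Group G] [TopologicalSpace G] [IsTopologicalGroup G] {A : ℕ → Subgroup G}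
  {Γ : Subgroup G}
  {β : ℕ → Type} [∀ s, Fintype (β s)] [∀ s, DecidableEq (β s)]
  {π : (s : ℕ) → G → β s → ℝ} {e : (s : ℕ) → β s → ℝ → G}

private theorem char_geT_norm (hN : NS A Γ π e) (k : ℕ) (T : Set (ℕ → ℂ)) (hT : Tame (k + 1) T)
    (hT1 : ∀ t ∈ T, ∀ l, ‖t l‖ ≤ 1)
    (F : G → ℂ) (hF : LevN A Γ e (k + 2) F) (hG : GoodN e (k + 2) F) (hF1 : ∀ x, ‖F x‖ ≤ 1)
    (C : Set G) (hC : IsCompact C) (hCe : ∀ a ∈ C, Erg Γ a) (ε : ℝ) (hε : 0 < ε) :
    UEpsT T (A 2) F C ε := by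
  classical
  have hb : ∀ (U : Set G) i n, ‖orbT T (A 2) U F i n‖ ≤ 1 := fun U i n => by
    rw [orbT, norm_mul]
    exact mul_le_one₀ (hF1 _) (norm_nonneg _) (hT1 _ i.2.2 n)
  obtain ⟨η, hη, hk⟩ := klog muC norm_muC muC_mul (ε / 10) (by positivity)
  obtain ⟨B, hB, hcf⟩ := corr_farT hN k T hT F hF hG C hC hCe η hη
  obtain ⟨P, hP, hkP⟩ := hk B
  obtain ⟨L, U₁, hL, hU₁, hCU₁, horth⟩ := hcf P (fun p hp => (hP p hp).pos)
  obtain ⟨H, hH, N₀, hN₀⟩ := hkP L hL (IdxT T (A 2) U₁) (orbT T (A 2) U₁ F)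
    (hb U₁) (by
    rintro p hp q hq hpq ⟨⟨⟨g, u, hu, w, hw, rfl⟩, x⟩, ⟨t, ht⟩⟩
      ⟨⟨⟨g', u', hu', w', hw', rfl⟩, x'⟩, ⟨t', ht'⟩⟩ j
    exact horth p hp q hq hpq u hu u' hu' w hw w' hw' x x' j t ht t' ht')
  obtain ⟨U₂, hU₂, hCU₂, H₁, hH₁⟩ := single_nearT hN k T hT hT1 F hF hG hF1 C hC hCe
    (ε / 10) (by positivity)
  set U : Set G := U₁ ∩ U₂ with hU
  have hmono : ∀ H n, GG (orbT T (A 2) U F) muC H n ≤
      GG (orbT T (A 2) U₁ F) muC H n := by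
    intro H n
    refine Real.iSup_le ?_ (GG_nonneg _ _ _ _)
    rintro ⟨⟨⟨g, u, hu, w, hw, rfl⟩, x⟩, Q⟩
    exact le_GG (orbT T (A 2) U₁ F) muC (hb U₁) norm_muC H n
      ⟨⟨⟨u * w, u, hu.1, w, hw, rfl⟩, x⟩, Q⟩
  obtain ⟨H₀, h3⟩ := up_scale (GG (orbT T (A 2) U F) muC) (GG_nonneg _ _)
    (GG_le _ muC (hb U) norm_muC)
    (fun H L n hL => GG_sub _ muC (hb U) norm_muC H L n hL) (ε / 10) (by positivity)
    H hH N₀ (by
      intro N hN
      refine le_trans (sum_le_sum fun n _ => ?_) (hN₀ N hN)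
      exact mul_le_mul_of_nonneg_left (hmono H n) (by positivity)) H₁ (by
      intro H n hH hn
      refine Real.iSup_le ?_ (by positivity)
      rintro ⟨⟨⟨g, u, hu, w, hw, rfl⟩, x⟩, ⟨t, ht⟩⟩
      exact hH₁ u hu.2 w hw x t ht H n hH hn)
  exact ⟨U, hU₁.inter hU₂, Set.subset_inter hCU₁ hCU₂, H₀,
    fun M H h1 h2 => (h3 M H h1 h2).trans (le_of_eq (by ring))⟩

/-- The uniform estimate for functions of level at least two, with twists bounded by one. -/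
private theorem char_geT_one (hN : NS A Γ π e) (k : ℕ) (T : Set (ℕ → ℂ)) (hT : Tame (k + 1) T)
    (hT1 : ∀ t ∈ T, ∀ l, ‖t l‖ ≤ 1) (F : G → ℂ)
    (hF : LevN A Γ e (k + 2) F) (hG : GoodN e (k + 2) F) (C : Set G) (hC : IsCompact C)
    (hCe : ∀ a ∈ C, Erg Γ a) (ε : ℝ) (hε : 0 < ε) : UEpsT T (A 2) F C ε := by
  have hCo : Cocompact' Γ := by
    obtain ⟨C, hC1, _, hC3⟩ := hN.coc 0
    exact ⟨C, hC1, fun x => hC3 x (by rw [hN.A0]; trivial)⟩
  obtain ⟨B, hB0, hB⟩ := reg_bdd hCo hF.1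
  set F' : G → ℂ := fun x => (B : ℂ)⁻¹ * F x with hF'
  have hF'L : LevN A Γ e (k + 2) F' := by
    refine ⟨reg_const_mul hF.1 _, fun z hz x => ?_, fun j => ?_⟩
    · simp only [hF']; rw [hF.2.1 z hz x]
    · obtain ⟨m, hm⟩ := hF.2.2 j
      exact ⟨m, hm.mul_const _⟩
  have hF'1 : ∀ x, ‖F' x‖ ≤ 1 := by
    intro x
    simp only [hF']
    rw [norm_mul, norm_inv, Complex.norm_real, Real.norm_eq_abs, abs_of_pos hB0,
      inv_mul_le_iff₀ hB0, mul_one]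
    exact hB x
  have hF'G : GoodN e (k + 2) F' := by
    obtain ⟨j, m, hm, h⟩ := hG
    exact ⟨j, m, hm, h.mul_const _⟩
  have h1 := (char_geT_norm hN k T hT hT1 F' hF'L hF'G hF'1 C hC hCe (ε / B)
    (by positivity)).const_mul (B : ℂ)
  have e1 : (fun x => (B : ℂ) * F' x) = F := by
    funext x
    simp only [hF']
    have : (B : ℂ) ≠ 0 := by exact_mod_cast hB0.ne'
    field_simp
  rw [e1, Complex.norm_real, Real.norm_eq_abs, abs_of_pos hB0] at h1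
  have e2 : B * (ε / B) = ε := by field_simp
  rwa [e2] at h1

/-- multiples of a tame family -/
lemma Tame.smul {d : ℕ} {T : Set (ℕ → ℂ)} (h : Tame d T) (b : ℂ) :
    Tame d {s | ∃ t ∈ T, s = fun l => b * t l} := by
  have hb : Tame 0 {s : ℕ → ℂ | s = fun _ => b} := by
    refine ⟨⟨‖b‖ + 1, by positivity, ?_⟩, ?_⟩
    · rintro s rfl l
      simp
    · rintro s rfl l
      rfl
  refine ((hb.mono (Nat.zero_le d)).mul h).subset ?_
  rintro s ⟨t, ht, rfl⟩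
  exact ⟨_, rfl, t, ht, rfl⟩

/-- The uniform estimate for functions of level at least two, with twists. -/
theorem char_geT (hN : NS A Γ π e) (k : ℕ) (T : Set (ℕ → ℂ)) (hT : Tame (k + 1) T) (F : G → ℂ)
    (hF : LevN A Γ e (k + 2) F) (hG : GoodN e (k + 2) F) (C : Set G) (hC : IsCompact C)
    (hCe : ∀ a ∈ C, Erg Γ a) (ε : ℝ) (hε : 0 < ε) : UEpsT T (A 2) F C ε := by
  obtain ⟨B, hB, hTB⟩ := hT.bdd
  have hBne : (B : ℂ) ≠ 0 := by exact_mod_cast hB.ne'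
  set T' : Set (ℕ → ℂ) := {s | ∃ t ∈ T, s = fun l => (B : ℂ)⁻¹ * t l} with hT'
  have h1 := char_geT_one hN k T' (hT.smul _) (by
    rintro s ⟨t, ht, rfl⟩ l
    rw [norm_mul, norm_inv, Complex.norm_real, Real.norm_eq_abs, abs_of_pos hB,
      inv_mul_le_iff₀ hB, mul_one]
    exact hTB t ht l) F hF hG C hC hCe (ε / B) (by positivity)
  have h2 := h1.const_mul (B : ℂ)
  rw [Complex.norm_real, Real.norm_eq_abs, abs_of_pos hB] at h2
  have e2 : B * (ε / B) = ε := by field_simp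
  rw [e2] at h2
  obtain ⟨U, hU, hCU, H₀, hH⟩ := h2
  refine ⟨U, hU, hCU, H₀, fun M H h3 h4 => le_trans (sum_le_sum fun n _ => ?_) (hH M H h3 h4)⟩
  refine mul_le_mul_of_nonneg_left ?_ (by positivity)
  refine Real.iSup_le ?_ (GG_nonneg _ _ _ _)
  rintro ⟨i, ⟨t, ht⟩⟩
  have hbd : BddAbove (Set.range fun i : IdxT T' (A 2) U =>
      ‖∑ h ∈ Icc 1 H, orbT T' (A 2) U (fun x => (B : ℂ) * F x) i (n + h) * muC (n + h)‖) := by
    have hCo : Cocompact' Γ := by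
      obtain ⟨C, hC1, _, hC3⟩ := hN.coc 0
      exact ⟨C, hC1, fun x => hC3 x (by rw [hN.A0]; trivial)⟩
    obtain ⟨B₁, hB₁0, hB₁⟩ := reg_bdd hCo hF.1
    refine ⟨H * (B * B₁), ?_⟩
    rintro _ ⟨⟨i, ⟨s, ⟨t, ht, rfl⟩⟩⟩, rfl⟩
    refine (norm_sum_le _ _).trans ?_
    calc _ ≤ ∑ _h ∈ Icc 1 H, B * B₁ := by
          refine sum_le_sum fun h _ => ?_
          rw [norm_mul, orbT, norm_mul, norm_mul, norm_mul, norm_inv, Complex.norm_real,
            Real.norm_eq_abs, abs_of_pos hB]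
          have h5 : B⁻¹ * ‖t (n + h)‖ ≤ 1 := by
            rw [inv_mul_le_iff₀ hB, mul_one]
            exact hTB t ht _
          calc _ ≤ B * B₁ * 1 * 1 := by
                refine mul_le_mul (mul_le_mul (mul_le_mul_of_nonneg_left (hB₁ _) hB.le) h5
                  (by positivity) (by positivity)) (norm_muC _) (norm_nonneg _) (by positivity)
            _ = B * B₁ := by ring
      _ = H * (B * B₁) := by simp
  refine le_trans (le_of_eq ?_) (le_ciSup hbd (i, ⟨fun l => (B : ℂ)⁻¹ * t l, t, ht, rfl⟩))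
  congr 1
  refine sum_congr rfl fun h _ => ?_
  simp only [orbT]
  field_simp

end Pool.Agent.Lib.MP_663568_nt.E
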