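import Pool.Agent.Lib.MP_663568_tw.V08
import Pool.Agent.Lib.MP_663568_tw.W09
import Pool.Agent.Lib.MP_663568_e.E19

/-!
Row V10: the uniform estimate with tame twists.
-/

set_option autoImplicit false
open Finset MeasureTheory

namespace Pool.Agent.Lib.MP_663568_nt.E

open Katai Tw Fib Nul T3

section

variable {G : Type} [Group G]

private lemma window_leT {T : Set (ℕ → ℂ)} {N : Subgroup G} {U : Set G} {F : G → ℂ} {B B' : ℝ}
    (hB : ∀ x, ‖F x‖ ≤ B) (hT : ∀ t ∈ T, ∀ l, ‖t l‖ ≤ B') (H n : ℕ) (i : IdxT T N U) :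
    ‖∑ h ∈ Icc 1 H, orbT T N U F i (n + h) * muC (n + h)‖ ≤ H * (B * B') := by
  have hB0 : 0 ≤ B := (norm_nonneg _).trans (hB 1)
  have hB'0 : 0 ≤ B' := (norm_nonneg _).trans (hT _ i.2.2 0)
  calc _ ≤ ∑ h ∈ Icc 1 H, ‖orbT T N U F i (n + h) * muC (n + h)‖ := norm_sum_le _ _
    _ ≤ ∑ _h ∈ Icc 1 H, B * B' := by
        refine sum_le_sum fun h _ => ?_
        rw [norm_mul, orbT, norm_mul]
        calc _ ≤ B * B' * 1 := mul_le_mul (mul_le_mul (hB _) (hT _ i.2.2 _) (norm_nonneg _) hB0)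
              (norm_muC _) (norm_nonneg _) (by positivity)
          _ = B * B' := mul_one _
    _ = H * (B * B') := by simp

private lemma le_GGT {T : Set (ℕ → ℂ)} {N : Subgroup G} {U : Set G} {F : G → ℂ}
    (hF : ∃ B : ℝ, ∀ x, ‖F x‖ ≤ B) (hT : BddF T) (H n : ℕ) (i : IdxT T N U) :
    ‖∑ h ∈ Icc 1 H, orbT T N U F i (n + h) * muC (n + h)‖ ≤ GG (orbT T N U F) muC H n := by
  obtain ⟨B, hB⟩ := hF
  obtain ⟨B', _, hB'⟩ := hT
  refine le_ciSup (f := fun i => ‖∑ h ∈ Icc 1 H, orbT T N U F i (n + h) * muC (n + h)‖)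
    ⟨H * (B * B'), ?_⟩ i
  rintro _ ⟨i, rfl⟩
  exact window_leT hB hB' H n i

variable [TopologicalSpace G]

lemma uepsT_zero (T : Set (ℕ → ℂ)) (N : Subgroup G) (F : G → ℂ) (hF : ∀ x, F x = 0) (C : Set G)
    (ε : ℝ) (hε : 0 < ε) : UEpsT T N F C ε := by
  refine ⟨Set.univ, isOpen_univ, Set.subset_univ _, 0, fun M H _ _ => ?_⟩
  have hGG : ∀ n, GG (orbT T N Set.univ F) muC H n = 0 := by
    intro n
    refine le_antisymm (Real.iSup_le (fun i => ?_) le_rfl) (GG_nonneg _ _ _ _)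
    have : ∑ h ∈ Icc 1 H, orbT T N Set.univ F i (n + h) * muC (n + h) = 0 :=
      sum_eq_zero fun h _ => by simp only [orbT]; rw [hF, zero_mul, zero_mul]
    rw [this, norm_zero]
  simp only [hGG, mul_zero, sum_const_zero]
  have h5 : 0 ≤ (H : ℝ) * Real.log M := mul_nonneg (by positivity) (Real.log_natCast_nonneg M)
  calc (0 : ℝ) ≤ ε * (H * Real.log M) := mul_nonneg hε.le h5
    _ = _ := by ring

/-- from a pointwise bound for the suprema -/
private theorem log_assembly (ι : Type) [Fintype ι] (g : ι → ℕ → ℕ → ℝ) (G₀ : ℕ → ℕ → ℝ) (ε : ℝ)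
    (hε : 0 < ε) (H₀ : ι → ℕ) (M H : ℕ) (hHH : 3 + ∑ i, H₀ i ≤ H) (hHM : H ≤ M)
    (hH : ∀ i, ∑ n ∈ Icc 1 M, (1 / (n : ℝ)) * g i H n ≤
      ε / (2 * (Fintype.card ι + 1)) * H * Real.log M)
    (hpt : ∀ n, G₀ H n ≤ ∑ i, g i H n + ε / 4 * H) :
    ∑ n ∈ Icc 1 M, (1 / (n : ℝ)) * G₀ H n ≤ ε * H * Real.log M := by
  have hM3 : 3 ≤ M := by omega
  have hlogM : 1 ≤ Real.log M := by
    rw [Real.le_log_iff_exp_le (by positivity)]
    have h1 : Real.exp 1 < 2.7182818286 := Real.exp_one_lt_d9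
    have h2 : (3 : ℝ) ≤ M := by exact_mod_cast hM3
    linarith
  have hH0 : (0 : ℝ) ≤ H := by positivity
  calc _ ≤ ∑ n ∈ Icc 1 M, (1 / (n : ℝ)) * (∑ i, g i H n + ε / 4 * H) := by
        refine sum_le_sum fun n _ => ?_
        exact mul_le_mul_of_nonneg_left (hpt n) (by positivity)
    _ = ∑ i, ∑ n ∈ Icc 1 M, (1 / (n : ℝ)) * g i H n
        + (∑ n ∈ Icc 1 M, (1 / (n : ℝ))) * (ε / 4 * H) := by
        simp only [mul_add, sum_add_distrib]
        congr 1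
        · simp only [mul_sum]
          rw [sum_comm]
        · rw [sum_mul]
    _ ≤ ∑ _i : ι, (ε / (2 * (Fintype.card ι + 1)) * H * Real.log M)
        + (1 + Real.log M) * (ε / 4 * H) := by
        apply add_le_add
        · exact sum_le_sum fun i _ => hH i
        · exact mul_le_mul_of_nonneg_right (sum_inv_le_log M) (by positivity)
    _ = (Fintype.card ι : ℝ) / (Fintype.card ι + 1) * (ε / 2 * H * Real.log M)
        + (1 + Real.log M) * (ε / 4 * H) := by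
        rw [sum_const, card_univ, nsmul_eq_mul]
        field_simp
    _ ≤ 1 * (ε / 2 * H * Real.log M) + (Real.log M + Real.log M) * (ε / 4 * H) := by
        apply add_le_add
        · apply mul_le_mul_of_nonneg_right _ (by positivity)
          rw [div_le_one (by positivity)]; linarith
        · apply mul_le_mul_of_nonneg_right _ (by positivity)
          linarith
    _ = ε * H * Real.log M := by ring

/-- finite sums and approximation, in the function -/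
theorem uepsT_approx (T : Set (ℕ → ℂ)) (hT : BddF T) (B₁ : ℝ) (hB₁ : 0 < B₁)
    (hTB : ∀ t ∈ T, ∀ l, ‖t l‖ ≤ B₁) (N : Subgroup G) (F : G → ℂ) (K : Set G)
    (ε : ℝ) (hε : 0 < ε)
    (ι : Type) [Fintype ι] (Fs : ι → G → ℂ) (hB : ∀ i, ∃ B : ℝ, ∀ x, ‖Fs i x‖ ≤ B)
    (hFs : ∀ i, UEpsT T N (Fs i) K (ε / (2 * (Fintype.card ι + 1))))
    (hap : ∀ x, ‖F x - ∑ i, Fs i x‖ ≤ ε / (4 * B₁)) : UEpsT T N F K ε := by
  choose U hU hKU H₀ hH using hFs
  refine ⟨⋂ i, U i, isOpen_iInter_of_finite hU, Set.subset_iInter hKU, 3 + ∑ i, H₀ i, ?_⟩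
  intro M H hHH hHM
  have hH₀ : ∀ i, H₀ i ≤ H := by
    intro i
    have := single_le_sum (f := H₀) (fun _ _ => Nat.zero_le _) (mem_univ i)
    omega
  refine log_assembly ι (fun i H n => GG (orbT T N (U i) (Fs i)) muC H n)
    (fun H n => GG (orbT T N (⋂ i, U i) F) muC H n) ε hε H₀ M H hHH hHM
    (fun i => hH i M H (hH₀ i) hHM) ?_
  intro n
  refine Real.iSup_le ?_ (add_nonneg (sum_nonneg fun _ _ => GG_nonneg _ _ _ _) (by positivity))
  rintro ⟨⟨⟨g, u, hu, w, hw, rfl⟩, x⟩, Q⟩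
  rw [Set.mem_iInter] at hu
  let i' : ∀ i, IdxT T N (U i) := fun i => ⟨⟨⟨u * w, u, hu i, w, hw, rfl⟩, x⟩, Q⟩
  have e1 : ∑ h ∈ Icc 1 H, orbT T N (⋂ i, U i) F
      ⟨⟨⟨u * w, u, Set.mem_iInter.2 hu, w, hw, rfl⟩, x⟩, Q⟩ (n + h) * muC (n + h) =
      ∑ i, ∑ h ∈ Icc 1 H, orbT T N (U i) (Fs i) (i' i) (n + h) * muC (n + h) +
      ∑ h ∈ Icc 1 H, ((F ((u * w) ^ (n + h) * x) - ∑ i, Fs i ((u * w) ^ (n + h) * x)) *
        Q.1 (n + h)) * muC (n + h) := by
    rw [sum_comm, ← sum_add_distrib]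
    refine sum_congr rfl fun h _ => ?_
    simp only [orbT, i']
    rw [← sum_mul, ← sum_mul]
    ring
  rw [e1]
  refine (norm_add_le _ _).trans (add_le_add ?_ ?_)
  · refine (norm_sum_le _ _).trans (sum_le_sum fun i _ => ?_)
    exact le_GGT (hB i) hT H n (i' i)
  · calc _ ≤ ∑ h ∈ Icc 1 H, ‖((F ((u * w) ^ (n + h) * x) - ∑ i, Fs i ((u * w) ^ (n + h) * x)) *
        Q.1 (n + h)) * muC (n + h)‖ := norm_sum_le _ _
      _ ≤ ∑ _h ∈ Icc 1 H, ε / 4 := by
          refine sum_le_sum fun h _ => ?_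
          rw [norm_mul, norm_mul]
          calc _ ≤ ε / (4 * B₁) * B₁ * 1 := mul_le_mul (mul_le_mul (hap _) (hTB _ Q.2 _)
                (norm_nonneg _) (by positivity)) (norm_muC _) (norm_nonneg _) (by positivity)
            _ = ε / 4 := by field_simp
      _ = ε / 4 * H := by simp [mul_comm]

/-- Families of sequences which are, up to `ε`, sums of elements of a tame family. -/
def QTame (d : ℕ) (T : Set (ℕ → ℂ)) : Prop :=
  ∀ ε : ℝ, 0 < ε → ∃ S : Set (ℕ → ℂ), Tame d S ∧ ∃ (I : Type) (_ : Fintype I), ∀ t ∈ T,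
    ∃ c : I → ℕ → ℂ, (∀ i, c i ∈ S ∨ c i = 0) ∧ ∀ l, ‖t l - ∑ i, c i l‖ ≤ ε

/-- finite sums and approximation, in the twist -/
theorem uepsT_qtame (d : ℕ) (N : Subgroup G) (F : G → ℂ) (B : ℝ) (hB : ∀ x, ‖F x‖ ≤ B)
    (hB0 : 0 < B) (K : Set G) (h : ∀ S, Tame d S → ∀ ε : ℝ, 0 < ε → UEpsT S N F K ε)
    (T : Set (ℕ → ℂ)) (hT : QTame d T) (ε : ℝ) (hε : 0 < ε) : UEpsT T N F K ε := by
  obtain ⟨S, hS, I, hI, hTS⟩ := hT (ε / (4 * B)) (by positivity)
  obtain ⟨U, hU, hKU, H₀, hH⟩ := h S hS (ε / (2 * (Fintype.card I + 1))) (by positivity)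
  refine ⟨U, hU, hKU, 3 + ∑ _i : I, H₀ + H₀, ?_⟩
  intro M H hHH hHM
  refine log_assembly I (fun _ H n => GG (orbT S N U F) muC H n)
    (fun H n => GG (orbT T N U F) muC H n) ε hε (fun _ => H₀) M H (by omega) hHM
    (fun i => hH M H (by omega) hHM) ?_
  intro n
  refine Real.iSup_le ?_ (add_nonneg (sum_nonneg fun _ _ => GG_nonneg _ _ _ _) (by positivity))
  rintro ⟨⟨⟨g, u, hu, w, hw, rfl⟩, x⟩, ⟨t, ht⟩⟩
  obtain ⟨c, hc, hcl⟩ := hTS t ht
  have e1 : ∑ h ∈ Icc 1 H, orbT T N U F ⟨⟨⟨u * w, u, hu, w, hw, rfl⟩, x⟩, ⟨t, ht⟩⟩ (n + h) *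
        muC (n + h) =
      ∑ i, ∑ h ∈ Icc 1 H, (F ((u * w) ^ (n + h) * x) * c i (n + h)) * muC (n + h) +
      ∑ h ∈ Icc 1 H, (F ((u * w) ^ (n + h) * x) * (t (n + h) - ∑ i, c i (n + h))) *
        muC (n + h) := by
    rw [sum_comm, ← sum_add_distrib]
    refine sum_congr rfl fun h _ => ?_
    simp only [orbT]
    rw [← sum_mul, ← mul_sum]
    ring
  rw [e1]
  refine (norm_add_le _ _).trans (add_le_add ?_ ?_)
  · refine (norm_sum_le _ _).trans (sum_le_sum fun i _ => ?_)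
    rcases hc i with h1 | h1
    · exact le_GGT ⟨B, hB⟩ hS.bdd H n ⟨⟨⟨u * w, u, hu, w, hw, rfl⟩, x⟩, ⟨c i, h1⟩⟩
    · rw [h1]
      simp only [Pi.zero_apply, mul_zero, zero_mul, sum_const_zero, norm_zero]
      exact GG_nonneg _ _ _ _
  · calc _ ≤ ∑ h ∈ Icc 1 H, ‖(F ((u * w) ^ (n + h) * x) * (t (n + h) - ∑ i, c i (n + h))) *
        muC (n + h)‖ := norm_sum_le _ _
      _ ≤ ∑ _h ∈ Icc 1 H, ε / 4 := by
          refine sum_le_sum fun h _ => ?_
          rw [norm_mul, norm_mul]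
          calc _ ≤ B * (ε / (4 * B)) * 1 := mul_le_mul (mul_le_mul (hB _) (hcl _)
                (norm_nonneg _) hB0.le) (norm_muC _) (norm_nonneg _) (by positivity)
            _ = ε / 4 := by field_simp
      _ = ε / 4 * H := by simp [mul_comm]

end

variable {G : Type} [Group G] [TopologicalSpace G] [IsTopologicalGroup G] {A : ℕ → Subgroup G}
  {Γ : Subgroup G}
  {β : ℕ → Type} [∀ s, Fintype (β s)] [∀ s, DecidableEq (β s)]
  {π : (s : ℕ) → G → β s → ℝ} {e : (s : ℕ) → β s → ℝ → G}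

/-- The estimate with tame twists. -/
theorem mean_tame (hN : NS A Γ π e) (t : ℕ) (ht : A (t + 1) = ⊥)
    [MeasurableSpace (G ⧸ Γ)] [BorelSpace (G ⧸ Γ)] (m : Measure (G ⧸ Γ)) [IsProbabilityMeasure m]
    (hm : ∀ g : G, m.map (fun x => g • x) = m) (s : ℕ) (hs : 2 ≤ s) (T : Set (ℕ → ℂ))
    (hT : Tame (s - 1) T)
    (f : G ⧸ Γ → ℂ) (hf : Continuous f)
    (hf0 : ∀ φ : G ⧸ Γ → ℂ, Continuous φ → (∀ z ∈ A s, ∀ x : G ⧸ Γ, φ (z • x) = φ x) →
      ∫ x, f x * (starRingEnd ℂ) (φ x) ∂m = 0) (C : Set G) (hC : IsCompact C)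
    (hCe : ∀ a ∈ C, Erg Γ a) (ε : ℝ) (hε : 0 < ε) :
    UEpsT T (A 2) (fun x : G => f (x : G ⧸ Γ)) C ε := by
  classical
  obtain ⟨B₁, hB₁, hTB⟩ := hT.bdd
  have hCo := coc_prime hN
  set F0 : G → ℂ := fun x : G => f (x : G ⧸ Γ) with hF0
  have hF0r : Reg Γ F0 := ⟨hf.comp QuotientGroup.continuous_mk, fun x γ hγ => by
    simp only [hF0]
    rw [QuotientGroup.mk_mul_of_mem x hγ]⟩
  have hnorm : (A s).Normal := by
    refine ⟨fun z hz g => ?_⟩
    have h1 : g * z * g⁻¹ * z⁻¹ ∈ A s := by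
      have h2 := hN.comm 0 s (Subgroup.commutator_mem_commutator (g₁ := g) (g₂ := z)
        (by rw [hN.A0]; trivial) hz)
      rw [zero_add] at h2
      simpa [commutatorElement_def] using h2
    have h3 := (A s).mul_mem h1 hz
    rwa [inv_mul_cancel_right] at h3
  have hQ0 : Ort m (A s) F0 := by
    intro F' φ hF' hφ hinv
    have e1 : F' = f := by
      funext x
      obtain ⟨y, rfl⟩ := QuotientGroup.mk_surjective x
      exact hF' y
    rw [e1]
    exact hf0 φ hφ hinv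
  obtain ⟨ι, hι, lev, F, c, hF1, hF2⟩ := level_decomp_Q A hN.anti hN.comm hN.A1 Γ hCo (esL e)
    (esL_onep hN) (esL_gen hN) (Ort m (A s))
    (fun φ hφ hQ s' hs' e' he' n => ort_pop m hN hm (A s) hnorm φ hφ hQ e'
      (esL_onep hN s' hs' e' he').1 n)
    (fun φ hφ hQ c => ort_mul m (A s) φ hφ hQ c)
    (fun ι t F h => ort_sum m hN (A s) ι t F h)
    t F0 hF0r
    (by
      rw [ht]
      intro z hz x
      rw [Subgroup.mem_bot.mp hz, one_mul]) hQ0 (ε / (8 * B₁)) (by positivity)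
  -- the constant
  have hc : ‖c‖ ≤ ε / (8 * B₁) := by
    have hd : ∀ i, ∃ F' : G ⧸ Γ → ℂ, Continuous F' ∧ ∀ x : G, F' (x : G ⧸ Γ) = F i x := fun i =>
      exists_descend (hF1 i).2.1.1
    choose F' hF'c hF' using hd
    have hone : ∀ z ∈ A s, ∀ x : G ⧸ Γ, (fun _ : G ⧸ Γ => (1 : ℂ)) (z • x) =
        (fun _ : G ⧸ Γ => (1 : ℂ)) x := fun _ _ _ => rfl
    have hz : ∀ i, ∫ x, F' i x ∂m = 0 := by
      intro i
      have := (hF1 i).2.2.2 (F' i) (fun _ => 1) (hF' i) continuous_const hone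
      simpa using this
    have hz0 : ∫ x, f x ∂m = 0 := by
      have := hf0 (fun _ => 1) continuous_const hone
      simpa using this
    have hcpt : CompactSpace (G ⧸ Γ) := by
      obtain ⟨C, hC1, hC2⟩ := hCo
      refine ⟨?_⟩
      have : (Set.univ : Set (G ⧸ Γ)) = (fun g : G => (g : G ⧸ Γ)) '' C := by
        ext x
        simp only [Set.mem_univ, true_iff]
        obtain ⟨g, rfl⟩ := QuotientGroup.mk_surjective x
        obtain ⟨c, hc, γ, hγ, e⟩ := hC2 g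
        exact ⟨c, hc, (coe_eq_of_mul Γ _ _ _ hγ e).symm⟩
      rw [this]
      exact hC1.image QuotientGroup.continuous_mk
    have hint : ∀ {φ : G ⧸ Γ → ℂ}, Continuous φ → Integrable φ m := fun {φ} hφ => by
      obtain ⟨B, hB⟩ : ∃ B : ℝ, ∀ x, ‖φ x‖ ≤ B := by
        have h1 : IsCompact (Set.range fun x => ‖φ x‖) := isCompact_range (by fun_prop)
        obtain ⟨B, hB⟩ := h1.bddAbove
        exact ⟨B, fun x => hB ⟨x, rfl⟩⟩
      exact Integrable.of_bound hφ.aestronglyMeasurable B (Filter.Eventually.of_forall hB)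
    have e1 : ∫ x, (f x - ∑ i, F' i x - c) ∂m = -c := by
      have i1 : Integrable (fun x => ∑ i, F' i x) m :=
        integrable_finsetSum _ fun i _ => hint (hF'c i)
      have i2 : Integrable (fun x => f x - ∑ i, F' i x) m := (hint hf).sub i1
      rw [integral_sub i2 (integrable_const _), integral_sub (hint hf) i1,
        hz0, integral_finsetSum _ (fun i _ => hint (hF'c i))]
      simp [hz]
    have e2 : ‖∫ x, (f x - ∑ i, F' i x - c) ∂m‖ ≤ ε / (8 * B₁) := by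
      have := norm_integral_le_of_norm_le_const (μ := m) (f := fun x => f x - ∑ i, F' i x - c)
        (C := ε / (8 * B₁)) (Filter.Eventually.of_forall fun x => by
          obtain ⟨y, rfl⟩ := QuotientGroup.mk_surjective x
          have := hF2 y
          simpa only [hF'] using this)
      simpa using this
    rw [e1, norm_neg] at e2
    exact e2
  refine uepsT_approx T hT.bdd B₁ hB₁ hTB (A 2) F0 C ε hε ι F (fun i => ?_) (fun i => ?_)
    (fun x => ?_)
  · obtain ⟨B, _, hB⟩ := reg_bdd hCo (hF1 i).2.1.1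
    exact ⟨B, hB⟩
  · have hL := (lev_iff (lev i) (F i)).1 (hF1 i).2.1
    have hGd := (good_iff (lev i) (F i)).1 (hF1 i).2.2.1
    by_cases h2 : s ≤ lev i
    · obtain ⟨k, hk⟩ : ∃ k, lev i = k + 2 := ⟨lev i - 2, by omega⟩
      rw [hk] at hL hGd
      exact char_geT hN k T (hT.mono (by omega)) (F i) hL hGd C hC hCe _ (by positivity)
    · refine uepsT_zero _ _ _ (fun x => ?_) _ _ (by positivity)
      refine ort_zero m hN hm (A s) (F i) (hF1 i).2.1.1 ?_ (hF1 i).2.2.2 x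
      intro z hz y
      exact (hF1 i).2.1.2.1 z (hN.anti (by omega : lev i + 1 ≤ s) hz) y
  · calc _ = ‖(F0 x - ∑ i, F i x - c) + c‖ := by congr 1; ring
      _ ≤ ε / (8 * B₁) + ε / (8 * B₁) := (norm_add_le _ _).trans (add_le_add (hF2 x) hc)
      _ = ε / (4 * B₁) := by field_simp; ring

end Pool.Agent.Lib.MP_663568_nt.E
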