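import Pool.Agent.Lib.MP_663568_tw.V10
import Pool.Agent.Lib.MP_663568_tw.V11

/-!
Row V12: products of nilsequences and polynomial phases.
-/

set_option autoImplicit false
open Finset MeasureTheory

namespace Pool.Agent.Lib.MP_663568_nt.E

open Katai Tw Fib Nul T3

/-- nilsequences of the function `ψ` times polynomial phases of degree at most `d` -/
def NilP {K : Type} [Group K] (d : ℕ) (ψ : K → ℂ) : Set (ℕ → ℂ) :=
  {t | ∃ (h y : K) (q : ℕ → ℝ), PP d q ∧ t = fun l => ψ (h ^ l * y) * ee (q l)}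

/-- Products of nilsequences of step at most `d` and polynomial phases of degree at most `d`. -/
theorem nilP_qtame {K : Type} [Group K] [TopologicalSpace K] [IsTopologicalGroup K]
    {B : ℕ → Subgroup K} {Λ : Subgroup K} {β : ℕ → Type} [∀ s, Fintype (β s)]
    [∀ s, DecidableEq (β s)] {π : (s : ℕ) → K → β s → ℝ} {e : (s : ℕ) → β s → ℝ → K}
    (hN : NS B Λ π e) (d : ℕ) (hd : 1 ≤ d) (ψ : K → ℂ) (hr : Reg Λ ψ)
    (hinv : Inv (B (d + 1)) ψ) : QTame d (NilP d ψ) := by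
  intro ε hε
  obtain ⟨ι, hι, Ψ, hΨ, happ⟩ := dec_lev hN d hd ψ hr hinv ε hε
  have h1 : Tame d (⋃ i, NilT (Ψ i)) :=
    Tame.iUnion fun i => nil_tame d hd K B Λ β π e hN (Ψ i) (hΨ i)
  refine ⟨_, h1.mul (tame_pp d), ι, hι, ?_⟩
  rintro t ⟨h, y, q, hq, rfl⟩
  refine ⟨fun i l => Ψ i (h ^ l * y) * ee (q l), fun i => Or.inl
    ⟨fun l => Ψ i (h ^ l * y), Set.mem_iUnion.2 ⟨i, h, y, rfl⟩, fun l => ee (q l),
      ⟨q, hq, rfl⟩, rfl⟩, fun l => ?_⟩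
  have e1 : ψ (h ^ l * y) * ee (q l) - ∑ i, Ψ i (h ^ l * y) * ee (q l) =
      (ψ (h ^ l * y) - ∑ i, Ψ i (h ^ l * y)) * ee (q l) := by
    rw [sub_mul, sum_mul]
  simp only
  rw [e1, norm_mul, norm_ee, mul_one]
  exact happ _

/-- The estimate with twists by nilsequences of lower step and polynomial phases. -/
theorem mean_nil {G : Type} [Group G] [TopologicalSpace G] [IsTopologicalGroup G]
    {A : ℕ → Subgroup G} {Γ : Subgroup G}
    {β : ℕ → Type} [∀ s, Fintype (β s)] [∀ s, DecidableEq (β s)]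
    {π : (s : ℕ) → G → β s → ℝ} {e : (s : ℕ) → β s → ℝ → G}
    (hN : NS A Γ π e) (t : ℕ) (ht : A (t + 1) = ⊥)
    [MeasurableSpace (G ⧸ Γ)] [BorelSpace (G ⧸ Γ)] (m : Measure (G ⧸ Γ)) [IsProbabilityMeasure m]
    (hm : ∀ g : G, m.map (fun x => g • x) = m) (d : ℕ) (hd : 1 ≤ d)
    (f : G ⧸ Γ → ℂ) (hf : Continuous f)
    (hf0 : ∀ φ : G ⧸ Γ → ℂ, Continuous φ → (∀ z ∈ A (d + 1), ∀ x : G ⧸ Γ, φ (z • x) = φ x) →
      ∫ x, f x * (starRingEnd ℂ) (φ x) ∂m = 0)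
    {K : Type} [Group K] [TopologicalSpace K] [IsTopologicalGroup K]
    {B : ℕ → Subgroup K} {Λ : Subgroup K} {β' : ℕ → Type} [∀ s, Fintype (β' s)]
    [∀ s, DecidableEq (β' s)] {π' : (s : ℕ) → K → β' s → ℝ} {e' : (s : ℕ) → β' s → ℝ → K}
    (hN' : NS B Λ π' e') (ψ : K → ℂ) (hr : Reg Λ ψ) (hinv : Inv (B (d + 1)) ψ)
    (C : Set G) (hC : IsCompact C) (hCe : ∀ a ∈ C, Erg Γ a) (ε : ℝ) (hε : 0 < ε) :
    UEpsT (NilP d ψ) (A 2) (fun x : G => f (x : G ⧸ Γ)) C ε := by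
  have hCo := coc_prime hN
  have hF0r : Reg Γ (fun x : G => f (x : G ⧸ Γ)) :=
    ⟨hf.comp QuotientGroup.continuous_mk, fun x γ hγ => by
      simp only
      rw [QuotientGroup.mk_mul_of_mem x hγ]⟩
  obtain ⟨B₀, hB₀, hB⟩ := reg_bdd hCo hF0r
  exact uepsT_qtame d (A 2) _ B₀ hB hB₀ C (fun S hS ε' hε' => mean_tame hN t ht m hm (d + 1)
    (by omega) S hS f hf hf0 C hC hCe ε' hε') _ (nilP_qtame hN' d hd ψ hr hinv) ε hε

/-- bounded families -/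
lemma nilP_bdd {K : Type} [Group K] [TopologicalSpace K] {Λ : Subgroup K} (hC : Cocompact' Λ)
    (d : ℕ) (ψ : K → ℂ) (hr : Reg Λ ψ) : BddF (NilP d ψ) := by
  obtain ⟨B₀, hB₀, hB⟩ := reg_bdd hC hr
  refine ⟨B₀, hB₀, ?_⟩
  rintro t ⟨h, y, q, hq, rfl⟩ l
  rw [norm_mul, norm_ee, mul_one]
  exact hB _

end Pool.Agent.Lib.MP_663568_nt.E
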